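import Mathlib

/-!
Corner contact graphs of translates of a regular polygon.
-/

namespace Pool.Agent.Lib.MP_0e6856_lc

/-- The corners of the regular `k`-gon with centre `c` and first corner `c + a`. -/
def corners (k : ℕ) (a c : ℂ) : Set ℂ :=
  {z | ∃ j : ℕ, j < k ∧ z = c + a * Complex.exp (2 * Real.pi * Complex.I * j / k)}

/-- The closed regular `k`-gon with centre `c` and first corner `c + a`. -/
def polygon (k : ℕ) (a c : ℂ) : Set ℂ := convexHull ℝ (corners k a c)

/-- Two translates meet in exactly one point, which is a corner of both. -/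
def CornerTouch (k : ℕ) (a c c' : ℂ) : Prop :=
  ∃ z, z ∈ corners k a c ∧ z ∈ corners k a c' ∧ polygon k a c ∩ polygon k a c' = {z}

/-- The graph `G` is represented by translates of the regular `k`-gon with first corner `a`:
interiors are pairwise disjoint and adjacency means touching corner to corner.  If `strict` is
true, polygons of non-adjacent vertices have to be disjoint. -/
def PolyCoin (k : ℕ) (a : ℂ) (strict : Bool) {V : Type} (G : SimpleGraph V) : Prop :=
  ∃ c : V → ℂ, ∀ u v, u ≠ v →
    Disjoint (interior (polygon k a (c u))) (interior (polygon k a (c v))) ∧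
    (G.Adj u v ↔ CornerTouch k a (c u) (c v)) ∧
    (strict = true → ¬ G.Adj u v → Disjoint (polygon k a (c u)) (polygon k a (c v)))

/-- The simple graph given by a list of vertices and a list of edges. -/
def listGraph (x : List ℕ × List (ℕ × ℕ)) : SimpleGraph {v : ℕ // v ∈ x.1} :=
  SimpleGraph.fromRel (fun u v => (u.1, v.1) ∈ x.2)

end Pool.Agent.Lib.MP_0e6856_lc
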