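import Pool.Agent.Lib.MP_0e6856_lc.Local
import Pool.Agent.Lib.MP_0e6856_lc.Defs

/-!
Contacts of translates of a regular polygon in terms of the difference of the centres.
-/

namespace Pool.Agent.Lib.MP_0e6856_lc

open Real

variable {K : ℕ}

/-- The linear form that is constant on side `l` of the regular `2K`-gon. -/
noncomputable def Fn (K : ℕ) (l : ℤ) (z : ℂ) : ℝ := (z * E (2 * K) (-(2 * l + 1))).re

theorem E_two (a : ℤ) : E (2 * K) (2 * a) = E K a := by
  unfold E
  congr 2
  push_cast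
  ring

theorem rho_eq : rho K = cos ((1 : ℤ) * (π / (2 * K : ℕ))) := by simp [rho]

theorem re_E_le (hK : 2 ≤ K) {o b : ℤ} (hb : 0 ≤ b) (h : ∀ n : ℤ, b ≤ |o + 2 * K * n|) :
    (E K o).re ≤ cos (b * (π / K)) := by
  obtain ⟨r, r1, r2, e⟩ := exists_rep hK o
  obtain ⟨n, hn⟩ := E_inj hK e.symm
  have := h n
  rw [← hn] at this
  have e2 : cos (r * (π / K)) = cos ((|r| : ℤ) * (π / K)) := by
    rcases abs_cases r with ⟨a, -⟩ | ⟨a, -⟩ <;> rw [a]
    simp
  rw [e, E_re, e2]
  refine cos_le_cos_of_nonneg_of_le_pi (by simpa using ang_le hK hb) ?_ (ang_le hK this)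
  have := ang_le hK (show |r| ≤ K by rw [abs_le]; omega)
  rwa [ang_K hK] at this

theorem re_E_lt (hK : 2 ≤ K) {o b : ℤ} (hb : 0 ≤ b) (hb' : b < K) (h : ∀ n : ℤ, b < |o + 2 * K * n|) :
    (E K o).re < cos (b * (π / K)) := by
  refine (re_E_le hK (b := b + 1) (by omega) h).trans_lt ?_
  refine cos_lt_cos_of_nonneg_of_le_pi (by simpa using ang_le hK hb) ?_ (ang_lt hK (by omega))
  have := ang_le hK (show b + 1 ≤ K by omega)
  rwa [ang_K hK] at this

theorem Fn_E (l j : ℤ) : Fn K l (E K j) = (E (2 * K) (2 * j - (2 * l + 1))).re := by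
  rw [Fn, ← E_two, ← E_add, sub_eq_add_neg]

theorem Fn_E_le (hK : 2 ≤ K) (l j : ℤ) : Fn K l (E K j) ≤ rho K := by
  rw [Fn_E, rho_eq]
  refine re_E_le (by omega) (by omega) (fun n => ?_)
  rw [mul_assoc]
  rcases abs_cases (2 * j - (2 * l + 1) + 2 * ((2 * K : ℕ) * n)) with h | h <;> omega

theorem Fn_add (l : ℤ) (z u : ℂ) : Fn K l (z + u) = Fn K l z + Fn K l u := by
  simp [Fn, add_mul]

theorem Fn_sub (l : ℤ) (z u : ℂ) : Fn K l (z - u) = Fn K l z - Fn K l u := by
  simp [Fn, sub_mul]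

theorem Fn_smul (l : ℤ) (a : ℝ) (z : ℂ) : Fn K l (a * z) = a * Fn K l z := by
  simp [Fn, mul_assoc]

theorem Fn_le_norm (l : ℤ) (z : ℂ) : Fn K l z ≤ ‖z‖ :=
  (Complex.re_le_norm _).trans (by simp)

/-- Every point lies in the sector spanned by two consecutive corners. -/
theorem sector {s : ℤ} (hK : 2 ≤ K) (h0 : 0 < s) (h1 : s < K) (z : ℂ) :
    ∃ (i : ℤ) (α β : ℝ), 0 ≤ α ∧ 0 ≤ β ∧ z = α * E K (s * i) + β * E K (s * (i + 1)) ∧
      (z * E (2 * K) (-(2 * (s * i) + s))).re = (α + β) * cos (s * (π / (2 * K : ℕ))) := by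
  obtain ⟨d, hd⟩ : ∃ d : ℝ, d = s * (π / K) := ⟨_, rfl⟩
  have d0 : 0 < d := by simpa [hd] using ang_lt hK h0
  have d1 : d < π := by have := ang_lt hK h1; rwa [ang_K hK, ← hd] at this
  have sd : 0 < sin d := sin_pos_of_pos_of_lt_pi d0 d1
  obtain ⟨i, hi⟩ : ∃ i, i = ⌊z.arg / d⌋ := ⟨_, rfl⟩
  obtain ⟨ψ, hψ⟩ : ∃ ψ, ψ = z.arg - i * d := ⟨_, rfl⟩
  have p0 : 0 ≤ ψ := by
    have := Int.floor_le (z.arg / d)
    rw [← hi, le_div_iff₀ d0] at this
    linarith
  have p1 : ψ ≤ d := by
    have := Int.lt_floor_add_one (z.arg / d)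
    rw [← hi, div_lt_iff₀ d0] at this
    linarith
  have e : z = (‖z‖ * (sin (d - ψ) / sin d) : ℝ) * E K (s * i) +
      (‖z‖ * (sin ψ / sin d) : ℝ) * E K (s * (i + 1)) := by
    have e1 : Complex.exp (ψ * Complex.I) =
        (sin (d - ψ) / sin d : ℝ) + (sin ψ / sin d : ℝ) * E K s := by
      apply Complex.ext
      · simp only [Complex.exp_ofReal_mul_I_re, Complex.add_re, Complex.ofReal_re,
          Complex.re_ofReal_mul, E_re, ← hd, sin_sub]
        field_simp
        ring
      · simp only [Complex.exp_ofReal_mul_I_im, Complex.add_im, Complex.ofReal_im,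
          Complex.im_ofReal_mul, E_im, ← hd]
        field_simp
        ring
    have e2 : Complex.exp (z.arg * Complex.I) = E K (s * i) * Complex.exp (ψ * Complex.I) := by
      unfold E
      rw [← Complex.exp_add, hψ, hd]
      congr 1
      push_cast
      ring
    conv_lhs => rw [← Complex.norm_mul_exp_arg_mul_I z, e2, e1]
    rw [mul_add s, mul_one, E_add]
    push_cast
    ring
  refine ⟨i, _, _, ?_, ?_, e, ?_⟩
  · have := sin_nonneg_of_nonneg_of_le_pi (x := d - ψ) (by linarith) (by linarith)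
    positivity
  · have := sin_nonneg_of_nonneg_of_le_pi (x := ψ) (by linarith) (by linarith)
    positivity
  · generalize ‖z‖ * (sin (d - ψ) / sin d) = α at *
    generalize ‖z‖ * (sin ψ / sin d) = β at *
    rw [e, add_mul, mul_assoc, mul_assoc, ← E_two (s * i), ← E_two (s * (i + 1)), ← E_add, ← E_add,
      show 2 * (s * i) + -(2 * (s * i) + s) = -s by ring,
      show 2 * (s * (i + 1)) + -(2 * (s * i) + s) = s by ring]
    simp only [Complex.add_re, Complex.re_ofReal_mul, E_re]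
    push_cast
    rw [neg_mul, cos_neg]
    ring

theorem sector_one (hK : 2 ≤ K) (z : ℂ) : ∃ (i : ℤ) (α β : ℝ), 0 ≤ α ∧ 0 ≤ β ∧
    z = α * E K i + β * E K (i + 1) ∧ Fn K i z = (α + β) * rho K := by
  obtain ⟨i, α, β, a, b, c, d⟩ := sector (s := 1) hK (by omega) (by omega) z
  exact ⟨i, α, β, a, b, by simpa using c, by rw [rho_eq]; simpa [Fn] using d⟩

theorem norm_le_of_Fn (hK : 2 ≤ K) {z : ℂ} (h : ∀ l, Fn K l z ≤ rho K) : ‖z‖ ≤ 1 := by
  obtain ⟨i, α, β, a, b, c, d⟩ := sector_one hK z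
  have := h i
  have := rho_pos hK
  have : α + β ≤ 1 := by nlinarith
  rw [c]
  refine (norm_add_le _ _).trans ?_
  simpa [abs_of_nonneg a, abs_of_nonneg b] using this

/-- The properties of a polygon `P` with corners `C` whose difference body is `μ` times the
regular `2K`-gon. -/
structure Nice (K : ℕ) (C P : Set ℂ) (μ : ℂ) : Prop where
  conv : Convex ℝ P
  zero : 0 ∈ interior P
  sub : C ⊆ P
  unit : ∀ v ∈ C, ‖v‖ = 1
  supp : ∀ y ∈ P, ∀ y' ∈ P, ∀ z, y - y' = μ * z → ∀ l, Fn K l z ≤ rho K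
  vert : ∀ i, ∃ v ∈ C, ∃ v' ∈ C, μ * E K i = v - v' ∧
    ∀ y ∈ P, ∀ y' ∈ P, y - y' = μ * E K i → y = v ∧ y' = v'
  ne : μ ≠ 0

variable {C P : Set ℂ} {μ : ℂ}

theorem combo_mem (hP : Convex ℝ P) (h0 : (0 : ℂ) ∈ P) {v w : ℂ} (hv : v ∈ P) (hw : w ∈ P) {α β : ℝ}
    (a : 0 ≤ α) (b : 0 ≤ β) (c : α + β ≤ 1) : α * v + β * w ∈ P := by
  have := hP.sum_mem (t := Finset.univ) (w := ![α, β, 1 - α - β]) (z := ![v, w, 0])
    (by intro i _; fin_cases i <;> simp [a, b]; linarith) (by simp [Fin.sum_univ_three])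
    (by intro i _; fin_cases i <;> simp [hv, hw, h0])
  simpa [Fin.sum_univ_three] using this

theorem combo_mem_interior (hP : Convex ℝ P) (h0 : 0 ∈ interior P) {v w : ℂ} (hv : v ∈ P)
    (hw : w ∈ P) {α β : ℝ} (a : 0 ≤ α) (b : 0 ≤ β) (c : α + β < 1) :
    α * v + β * w ∈ interior P := by
  obtain ⟨τ, hτ⟩ : ∃ τ, τ = (1 + α + β) / 2 := ⟨_, rfl⟩
  have t0 : 0 < τ := by linarith
  have h1 := combo_mem hP (interior_subset h0) hv hw (α := α / τ) (β := β / τ) (by positivity)
    (by positivity) (by rw [← add_div, div_le_one t0]; linarith)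
  have := hP.combo_interior_self_mem_interior h0 h1 (a := 1 - τ) (b := τ) (by linarith) t0.le
    (by ring)
  convert this using 1
  have : (τ : ℂ) ≠ 0 := by exact_mod_cast t0.ne'
  simp only [smul_zero, zero_add, Complex.real_smul]
  push_cast
  field_simp

theorem Nice.meet (hK : 2 ≤ K) (h : Nice K C P μ) (z : ℂ) :
    (∃ y ∈ P, ∃ y' ∈ P, y - y' = μ * z) ↔ ∀ l, Fn K l z ≤ rho K := by
  refine ⟨fun ⟨y, hy, y', hy', e⟩ => h.supp y hy y' hy' z e, fun hz => ?_⟩
  obtain ⟨i, α, β, a, b, c, d⟩ := sector_one hK z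
  have := hz i
  have := rho_pos hK
  have s : α + β ≤ 1 := by nlinarith
  obtain ⟨v, hv, v', hv', e, -⟩ := h.vert i
  obtain ⟨w, hw, w', hw', e', -⟩ := h.vert (i + 1)
  have h0 := interior_subset h.zero
  exact ⟨_, combo_mem h.conv h0 (h.sub hv) (h.sub hw) a b s, _,
    combo_mem h.conv h0 (h.sub hv') (h.sub hw') a b s, by rw [c]; linear_combination -α * e - β * e'⟩

theorem Nice.meet_interior (hK : 2 ≤ K) (h : Nice K C P μ) (z : ℂ) :
    (∃ y ∈ interior P, ∃ y' ∈ interior P, y - y' = μ * z) ↔ ∀ l, Fn K l z < rho K := by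
  constructor
  · rintro ⟨y, hy, y', hy', e⟩ l
    obtain ⟨ε, ε0, hε⟩ := Metric.mem_nhds_iff.1 (mem_interior_iff_mem_nhds.1 hy)
    have m0 : 0 < ‖μ‖ := norm_pos_iff.2 h.ne
    obtain ⟨τ, hτ⟩ : ∃ τ, τ = ε / (2 * ‖μ‖) := ⟨_, rfl⟩
    have t0 : 0 < τ := by rw [hτ]; positivity
    have hm : y + μ * (τ * E (2 * K) (2 * l + 1)) ∈ P := by
      apply hε
      rw [Metric.mem_ball, dist_eq_norm, add_sub_cancel_left, norm_mul, norm_mul, norm_E,
        Complex.norm_real, Real.norm_of_nonneg t0.le, hτ]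
      field_simp
      linarith
    have := h.supp _ hm y' (interior_subset hy') (z + τ * E (2 * K) (2 * l + 1))
      (by linear_combination e) l
    rw [Fn_add, Fn_smul, Fn, Fn, E_mul_neg] at this
    rw [Fn]
    simp only [Complex.one_re] at this
    linarith
  · intro hz
    obtain ⟨i, α, β, a, b, c, d⟩ := sector_one hK z
    have := hz i
    have := rho_pos hK
    have s : α + β < 1 := by nlinarith
    obtain ⟨v, hv, v', hv', e, -⟩ := h.vert i
    obtain ⟨w, hw, w', hw', e', -⟩ := h.vert (i + 1)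
    exact ⟨_, combo_mem_interior h.conv h.zero (h.sub hv) (h.sub hw) a b s, _,
      combo_mem_interior h.conv h.zero (h.sub hv') (h.sub hw') a b s,
      by rw [c]; linear_combination -α * e - β * e'⟩

theorem unit_extreme {v v1 v2 : ℂ} (h : ‖v‖ = 1) (h1 : ‖v1‖ = 1) (h2 : ‖v2‖ = 1) {α β : ℝ}
    (a : 0 < α) (b : 0 < β) (c : α + β = 1) (e : α * v1 + β * v2 = v) : v1 = v2 := by
  have f : (starRingEnd ℂ) v * v = 1 := by
    rw [mul_comm, Complex.mul_conj, Complex.normSq_eq_norm_sq, h]; simp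
  have n1 : ‖(starRingEnd ℂ) v * v1‖ = 1 := by simp [h, h1]
  have n2 : ‖(starRingEnd ℂ) v * v2‖ = 1 := by simp [h, h2]
  have r1 := (Complex.re_le_norm _).trans n1.le
  have r2 := (Complex.re_le_norm _).trans n2.le
  have s : α * ((starRingEnd ℂ) v * v1).re + β * ((starRingEnd ℂ) v * v2).re = 1 := by
    rw [← Complex.re_ofReal_mul, ← Complex.re_ofReal_mul, ← Complex.add_re,
      show α * ((starRingEnd ℂ) v * v1) + β * ((starRingEnd ℂ) v * v2) = 1 by
        linear_combination (starRingEnd ℂ) v * e + f]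
    simp
  have e1 := eq_one_of_re n1 (by nlinarith)
  have e2 := eq_one_of_re n2 (by nlinarith)
  linear_combination v * e1 - v * e2 - (v1 - v2) * f

theorem Nice.touch (hK : 2 ≤ K) (h : Nice K C P μ) {z : ℂ} (ho : ∃ l, rho K ≤ Fn K l z) :
    (∃ v ∈ C, ∃ v' ∈ C, v - v' = μ * z ∧ ∀ y ∈ P, ∀ y' ∈ P, y - y' = μ * z → y = v) ↔ Root K z := by
  constructor
  · rintro ⟨v, hv, v', hv', e, u⟩
    obtain ⟨l, hl⟩ := ho
    obtain ⟨i, α, β, a, b, c, d⟩ := sector_one hK z
    have hρ := rho_pos hK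
    have s1 : α + β ≤ 1 := by
      have := h.supp v (h.sub hv) v' (h.sub hv') z e i
      nlinarith
    have s2 : 1 ≤ α + β := by
      rw [c, Fn_add, Fn_smul, Fn_smul] at hl
      have := Fn_E_le hK l i
      have := Fn_E_le hK l (i + 1)
      by_contra hc
      nlinarith
    rcases eq_or_lt_of_le a with rfl | a'
    · obtain rfl : β = 1 := by linarith
      exact ⟨i + 1, by simpa using c⟩
    rcases eq_or_lt_of_le b with rfl | b'
    · obtain rfl : α = 1 := by linarith
      exact ⟨i, by simpa using c⟩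
    exfalso
    obtain ⟨v1, h1, v1', h1', e1, -⟩ := h.vert i
    obtain ⟨v2, h2, v2', h2', e2, -⟩ := h.vert (i + 1)
    have h0 := interior_subset h.zero
    have ee : α * v1 + β * v2 - (α * v1' + β * v2') = μ * z := by
      rw [c]; linear_combination -α * e1 - β * e2
    have y1 := u _ (combo_mem h.conv h0 (h.sub h1) (h.sub h2) a b s1) _
      (combo_mem h.conv h0 (h.sub h1') (h.sub h2') a b s1) ee
    have q1 := unit_extreme (h.unit _ hv) (h.unit _ h1) (h.unit _ h2) a' b' (by linarith) y1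
    have q2 := unit_extreme (h.unit _ hv') (h.unit _ h1') (h.unit _ h2') a' b' (by linarith)
      (by linear_combination y1 - ee + e)
    have : E K i = E K (i + 1) := mul_left_cancel₀ h.ne (by rw [e1, e2, q1, q2])
    have := E_inj' hK this (by omega) (by omega)
    omega
  · rintro ⟨i, rfl⟩
    obtain ⟨v, hv, v', hv', e, u⟩ := h.vert i
    exact ⟨v, hv, v', hv', e.symm, fun y hy y' hy' e' => (u y hy y' hy' e').1⟩

theorem hull_le {S : Set ℂ} {u : ℂ} {b : ℝ} (h : ∀ w ∈ S, (w * u).re ≤ b) :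
    ∀ y ∈ convexHull ℝ S, (y * u).re ≤ b :=
  convexHull_min h (convex_halfSpace_le (f := fun y : ℂ => (y * u).re)
    ⟨fun x y => by simp [add_mul], fun a x => by simp [mul_assoc]⟩ b)

theorem hull_unique {S : Set ℂ} {u v : ℂ} {b : ℝ} (hv : (v * u).re = b)
    (h : ∀ w ∈ S, (w * u).re < b ∨ w = v) : ∀ y ∈ convexHull ℝ S, (y * u).re < b ∨ y = v := by
  refine convexHull_min h ?_
  intro x hx y hy α β a b' c
  have e : ((α • x + β • y) * u).re = α * (x * u).re + β * (y * u).re := by
    simp [add_mul, mul_assoc]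
  change (x * u).re < b ∨ x = v at hx
  change (y * u).re < b ∨ y = v at hy
  change ((α • x + β • y) * u).re < b ∨ α • x + β • y = v
  rcases eq_or_lt_of_le a with rfl | a
  · obtain rfl : β = 1 := by linarith
    simpa using hy
  rcases eq_or_lt_of_le b' with rfl | b'
  · obtain rfl : α = 1 := by linarith
    simpa using hx
  obtain rfl : β = 1 - α := by linarith
  rcases hx with hx | rfl <;> rcases hy with hy | rfl
  · left; rw [e]; nlinarith
  · left; rw [e]; nlinarith
  · left; rw [e]; nlinarith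
  · right; simp only [Complex.real_smul]; push_cast; ring

theorem unique_of_hull {S : Set ℂ} {u v v' : ℂ} {b : ℝ} (hv : (v * u).re = b)
    (hv' : (v' * -u).re = b) (h : ∀ w ∈ S, (w * u).re < b ∨ w = v)
    (h' : ∀ w ∈ S, (w * -u).re < b ∨ w = v') :
    ∀ y ∈ convexHull ℝ S, ∀ y' ∈ convexHull ℝ S, y - y' = v - v' → y = v ∧ y' = v' := by
  intro y hy y' hy' e
  have s : (y * u).re + (y' * -u).re = (v * u).re + (v' * -u).re := by
    rw [← Complex.add_re, ← Complex.add_re]
    congr 1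
    linear_combination u * e
  rcases hull_unique hv h y hy with a | a <;> rcases hull_unique hv' h' y' hy' with a' | a'
  · linarith
  · rw [a'] at s; linarith
  · rw [a] at s; linarith
  · exact ⟨a, a'⟩

/-- The corners of the standard polygon. -/
def C0 (K : ℕ) (s : ℤ) : Set ℂ := Set.range fun i : ℤ => E K (s * i)

theorem zero_mem_interior (hK : 2 ≤ K) {s : ℤ} (h0 : 0 < s) (h1 : 3 * s ≤ 2 * K) :
    0 ∈ interior (convexHull ℝ (C0 K s)) := by
  have sub : ∀ i, E K (s * i) ∈ convexHull ℝ (C0 K s) := fun i => subset_convexHull _ _ ⟨i, rfl⟩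
  have z0 : (0 : ℂ) ∈ convexHull ℝ (C0 K s) := by
    obtain ⟨i, α, β, a, b, c, -⟩ := sector hK h0 (by omega) (-1)
    have := (convex_convexHull ℝ (C0 K s)).sum_mem (t := Finset.univ)
      (w := ![α / (α + β + 1), β / (α + β + 1), 1 / (α + β + 1)])
      (z := ![E K (s * i), E K (s * (i + 1)), E K (s * 0)])
      (by intro i _; fin_cases i <;> simp <;> positivity)
      (by simp only [Fin.sum_univ_three]; simp; field_simp)
      (by intro j _; fin_cases j <;> exact sub _)
    convert this using 1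
    have : ((α : ℂ) + β + 1) ≠ 0 := by exact_mod_cast (by positivity : α + β + 1 ≠ 0)
    simp only [Fin.sum_univ_three]
    simp
    field_simp
    linear_combination c
  rw [mem_interior_iff_mem_nhds, Metric.mem_nhds_iff]
  refine ⟨1 / 2, by norm_num, fun z hz => ?_⟩
  obtain ⟨i, α, β, a, b, c, d⟩ := sector hK h0 (by omega) z
  have n1 : (z * E (2 * K) (-(2 * (s * i) + s))).re ≤ ‖z‖ := (Complex.re_le_norm _).trans (by simp)
  have n2 : ‖z‖ < 1 / 2 := by simpa using hz
  have n3 : 1 / 2 ≤ cos (s * (π / (2 * K : ℕ))) := by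
    rw [← cos_pi_div_three]
    have hp := pi_pos
    have t1 := ang_le (K := 2 * K) (by omega) h0.le
    have t2 := ang_le (K := 2 * K) (by omega) (show 3 * s ≤ (2 * K : ℕ) by push_cast; omega)
    rw [ang_K (by omega)] at t2
    push_cast at t1 t2 ⊢
    exact cos_le_cos_of_nonneg_of_le_pi (by linarith) (by linarith) (by linarith)
  rw [c]
  exact combo_mem (convex_convexHull _ _) z0 (sub _) (sub _) a b (by nlinarith)

theorem nice_even (hK : 2 ≤ K) : Nice K (C0 K 1) (convexHull ℝ (C0 K 1)) 2 where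
  conv := convex_convexHull _ _
  zero := zero_mem_interior hK (by omega) (by omega)
  sub := subset_convexHull _ _
  unit := by rintro _ ⟨i, rfl⟩; simp
  supp := by
    intro y hy y' hy' z e l
    have a := hull_le (u := E (2 * K) (-(2 * l + 1))) (b := rho K)
      (by rintro _ ⟨i, rfl⟩; exact Fn_E_le hK l _) y hy
    have b := hull_le (u := -E (2 * K) (-(2 * l + 1))) (b := rho K)
      (by rintro _ ⟨i, rfl⟩
          have := Fn_E_le hK l (1 * i + K)
          rw [E_add_K hK] at this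
          simpa [Fn] using this) y' hy'
    have c : (y * E (2 * K) (-(2 * l + 1))).re + (y' * -E (2 * K) (-(2 * l + 1))).re =
        (2 : ℝ) * Fn K l z := by
      rw [← Complex.add_re, ← Fn_smul, Fn]
      congr 1
      push_cast
      linear_combination E (2 * K) (-(2 * l + 1)) * e
    linarith
  vert := by
    intro i
    have key : ∀ i, ∀ w ∈ C0 K 1, (w * E K (-i)).re < 1 ∨ w = E K i := by
      rintro i _ ⟨j, rfl⟩
      by_cases h : (E K (1 * j) * E K (-i)).re < 1
      · exact Or.inl h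
      · have := eq_one_of_re (by simp) (not_lt.1 h)
        right
        linear_combination E K i * this - E K (1 * j) * E_neg_mul (K := K) i
    have e : (2 : ℂ) * E K i = E K i - E K (i + K) := by rw [E_add_K hK]; ring
    have e2 : E K (-(i + K)) = -E K (-i) := by rw [← E_sub_K hK]; congr 1; ring
    refine ⟨E K i, ⟨i, by simp⟩, E K (i + K), ⟨i + K, by simp⟩, e, ?_⟩
    rw [e]
    exact unique_of_hull (u := E K (-i)) (b := 1) (by rw [E_mul_neg]; simp)
      (by rw [← e2, E_mul_neg]; simp) (key i) (e2 ▸ key (i + K))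
  ne := two_ne_zero

theorem nice_odd (hK : 2 ≤ K) (ho : Odd K) :
    Nice K (C0 K 2) (convexHull ℝ (C0 K 2)) (1 + E K 1) := by
  obtain ⟨r, hr⟩ := ho
  have hρ := rho_pos hK
  have hμ : 1 + E K 1 = (2 * rho K : ℝ) * E (2 * K) 1 := by
    have : E (2 * K) (-1) + E (2 * K) 1 = (2 * rho K : ℝ) := by
      rw [rho_eq]
      apply Complex.ext
      · simp only [Complex.add_re, E_re, Complex.ofReal_re]; simp; ring
      · simp only [Complex.add_im, E_im, Complex.ofReal_im]; simp
    rw [← this, add_mul, E_neg_mul, ← E_add, ← E_two]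
    rfl
  refine ⟨convex_convexHull _ _, zero_mem_interior hK (by omega) (by omega), subset_convexHull _ _,
    by rintro _ ⟨i, rfl⟩; simp, ?_, ?_, ?_⟩
  · intro y hy y' hy' z e l
    have one : ∀ u : ℂ, ‖u‖ = 1 → ∀ y ∈ convexHull ℝ (C0 K 2), (y * u).re ≤ 1 := fun u hu =>
      hull_le (by rintro _ ⟨i, rfl⟩; exact (Complex.re_le_norm _).trans (by simp [hu]))
    have odd : ∀ o : ℤ, o % 2 = 1 → ∀ y ∈ convexHull ℝ (C0 K 2), (y * E K o).re ≤ cos (π / K) :=
      fun o ho => hull_le (by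
        rintro _ ⟨i, rfl⟩
        rw [← E_add]
        have := re_E_le hK (o := 2 * i + o) (b := 1) (by omega) (fun n => by
          rw [mul_assoc]
          rcases abs_cases (2 * i + o + 2 * (K * n)) with h | h <;> omega)
        simpa using this)
    have c : (y * E K (-(l + 1))).re + (y' * E K (-(l + 1) + K)).re = 2 * rho K * Fn K l z := by
      rw [← Complex.add_re, ← Fn_smul, Fn, E_add_K hK, ← E_two,
        show 2 * -(l + 1) = -1 + -(2 * l + 1) by ring, E_add]
      congr 1
      rw [hμ] at e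
      linear_combination E (2 * K) (-1) * E (2 * K) (-(2 * l + 1)) * e +
        ((2 * rho K : ℝ) * z * E (2 * K) (-(2 * l + 1))) * E_neg_mul (K := 2 * K) 1
    have d : (y * E K (-(l + 1))).re + (y' * E K (-(l + 1) + K)).re ≤ 1 + cos (π / K) := by
      rcases Int.emod_two_eq_zero_or_one (-(l + 1)) with h | h
      · have := one _ (norm_E (K := K) (-(l + 1))) y hy
        have := odd (-(l + 1) + K) (by omega) y' hy'
        linarith
      · have := one _ (norm_E (K := K) (-(l + 1) + K)) y' hy'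
        have := odd (-(l + 1)) h y hy
        linarith
    have := rho_sq (K := K)
    nlinarith
  · intro i
    have key : ∀ i a, a % 2 = 0 → (a = i ∨ a = i + 1) → (E K a * E (2 * K) (-(2 * i + 1))).re = rho K ∧
        ∀ w ∈ C0 K 2, (w * E (2 * K) (-(2 * i + 1))).re < rho K ∨ w = E K a := by
      intro i a ha hi
      constructor
      · rw [← E_two, ← E_add, rho_eq, E_re]
        rcases hi with rfl | rfl
        · rw [show 2 * a + -(2 * a + 1) = -1 by ring]; simp
        · rw [show 2 * (i + 1) + -(2 * i + 1) = 1 by ring]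
      · rintro _ ⟨j, rfl⟩
        by_cases h : ∀ n : ℤ, 1 < |2 * (2 * j) + -(2 * i + 1) + 2 * (2 * K : ℕ) * n|
        · left
          dsimp only
          rw [← E_two, ← E_add, rho_eq]
          exact re_E_lt (by omega) (by omega) (by push_cast; omega) h
        · right
          push Not at h
          obtain ⟨n, hn⟩ := h
          dsimp only
          rw [← E_period hK (2 * j) n]
          congr 1
          rw [abs_le] at hn
          push_cast at hn
          have : (2 : ℤ) * (2 * K) * n = 4 * (K * n) := by ring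
          rw [mul_assoc]
          omega
    have neg : ∀ i : ℤ, E (2 * K) (-(2 * (i + K) + 1)) = -E (2 * K) (-(2 * i + 1)) := by
      intro i
      rw [← E_sub_K (K := 2 * K) (by omega)]
      congr 1
      push_cast
      ring
    have fin : ∀ a b : ℤ, a % 2 = 0 → b % 2 = 0 → (a = i ∧ b = i + K + 1) ∨ (a = i + 1 ∧ b = i + K) →
        (1 + E K 1) * E K i = E K a - E K b → ∃ v ∈ C0 K 2, ∃ v' ∈ C0 K 2,
          (1 + E K 1) * E K i = v - v' ∧ ∀ y ∈ convexHull ℝ (C0 K 2), ∀ y' ∈ convexHull ℝ (C0 K 2),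
            y - y' = (1 + E K 1) * E K i → y = v ∧ y' = v' := by
      intro a b ha hb hab e
      obtain ⟨k1, k2⟩ := key i a ha (by omega)
      obtain ⟨k3, k4⟩ := key (i + K) b hb (by omega)
      rw [neg] at k3 k4
      refine ⟨E K a, ⟨a / 2, by dsimp only; congr 1; omega⟩, E K b,
        ⟨b / 2, by dsimp only; congr 1; omega⟩, e, ?_⟩
      rw [e]
      exact unique_of_hull k1 k3 k2 k4
    rcases Int.emod_two_eq_zero_or_one i with h | h
    · exact fin i (i + K + 1) h (by omega) (by omega) (by rw [E_add, E_add_K hK]; ring)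
    · exact fin (i + 1) (i + K) (by omega) (by omega) (by omega) (by rw [E_add, E_add_K hK]; ring)
  · rw [hμ]
    exact mul_ne_zero (by exact_mod_cast (by positivity : 2 * rho K ≠ 0)) (E_ne_zero _)

/-- Half the number of contact directions for the regular `k`-gon. -/
def KK (k : ℕ) : ℕ := if k % 2 = 0 then k / 2 else k

theorem two_le_KK {k : ℕ} (hk : 3 ≤ k) : 2 ≤ KK k := by unfold KK; split <;> omega

theorem mem_hull_affine {S : Set ℂ} {a : ℂ} (ha : a ≠ 0) (c x : ℂ) :
    x ∈ convexHull ℝ ((fun z => c + a * z) '' S) ↔ (x - c) / a ∈ convexHull ℝ S := by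
  let f : ℂ →ᵃ[ℝ] ℂ := AffineMap.const ℝ ℂ c + (LinearMap.mulLeft ℝ a).toAffineMap
  have : (fun z => c + a * z) = f := by ext z; simp [f]
  rw [this, ← AffineMap.image_convexHull, ← this]
  constructor
  · rintro ⟨y, hy, rfl⟩
    convert hy using 1
    field_simp
    ring
  · intro h
    exact ⟨_, h, by field_simp; ring⟩

theorem corners_eq {k : ℕ} {s : ℤ} (hk : 3 ≤ k) (hK : 2 ≤ K) (hs : s * k = 2 * K) (a c : ℂ) :
    corners k a c = (fun z => c + a * z) '' C0 K s := by
  have e : ∀ j : ℕ, Complex.exp (2 * π * Complex.I * j / k) = E K (s * j) := by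
    intro j
    unfold E
    congr 1
    have h1 : (k : ℂ) ≠ 0 := by exact_mod_cast (by omega : k ≠ 0)
    have h2 : (K : ℂ) ≠ 0 := by exact_mod_cast (by omega : K ≠ 0)
    have h3 : (s : ℂ) * k = 2 * K := by exact_mod_cast hs
    push_cast
    field_simp
    linear_combination -(j : ℂ) * h3
  ext z
  constructor
  · rintro ⟨j, -, rfl⟩
    exact ⟨_, ⟨j, rfl⟩, by rw [e]⟩
  · rintro ⟨_, ⟨i, rfl⟩, rfl⟩
    have k0 : (0 : ℤ) < k := by omega
    have h1 := Int.emod_nonneg i k0.ne'
    have h2 := Int.emod_lt_of_pos i k0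
    refine ⟨(i % k).toNat, by omega, ?_⟩
    rw [e, Int.toNat_of_nonneg h1, ← E_period hK (s * (i % k)) (i / k), ← hs]
    have := Int.emod_add_mul_ediv i k
    dsimp only
    congr 3
    linear_combination -s * this

/-- The three relations between two translates, in terms of the difference of the centres. -/
theorem polygon_rel {k : ℕ} (hk : 3 ≤ k) {a : ℂ} (ha : a ≠ 0) : ∃ lam : ℂ, lam ≠ 0 ∧ ∀ c c' z : ℂ,
    c - c' = lam * z →
    (Disjoint (interior (polygon k a c)) (interior (polygon k a c')) ↔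
      ∃ l, rho (KK k) ≤ Fn (KK k) l z) ∧
    (Disjoint (polygon k a c) (polygon k a c') ↔ ∃ l, rho (KK k) < Fn (KK k) l z) ∧
    ((∃ l, rho (KK k) ≤ Fn (KK k) l z) → (CornerTouch k a c c' ↔ Root (KK k) z)) := by
  have hK := two_le_KK hk
  obtain ⟨s, μ, hs, h⟩ : ∃ (s : ℤ) (μ : ℂ), s * k = 2 * KK k ∧
      Nice (KK k) (C0 (KK k) s) (convexHull ℝ (C0 (KK k) s)) μ := by
    rcases Nat.mod_two_eq_zero_or_one k with h | h
    · exact ⟨1, _, by unfold KK; rw [if_pos h]; omega, nice_even hK⟩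
    · have e : KK k = k := if_neg (by omega)
      exact ⟨2, _, by rw [e], nice_odd hK (by rw [e]; exact Nat.odd_iff.2 h)⟩
  generalize KK k = K at *
  have mem : ∀ c x, x ∈ polygon k a c ↔ (x - c) / a ∈ convexHull ℝ (C0 K s) := by
    intro c x
    rw [polygon, corners_eq hk hK hs, mem_hull_affine ha]
  have memi : ∀ c x, x ∈ interior (polygon k a c) ↔
      (x - c) / a ∈ interior (convexHull ℝ (C0 K s)) := by
    intro c x
    let f : ℂ ≃ₜ ℂ := (Homeomorph.subRight c).trans (Homeomorph.mulRight₀ a⁻¹ (inv_ne_zero ha))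
    have : polygon k a c = f ⁻¹' convexHull ℝ (C0 K s) := by
      ext y; rw [mem]; simp [f, div_eq_mul_inv]
    rw [this, ← f.preimage_interior]
    simp [f, div_eq_mul_inv]
  have memc : ∀ c x, x ∈ corners k a c ↔ (x - c) / a ∈ C0 K s := by
    intro c x
    rw [corners_eq hk hK hs]
    constructor
    · rintro ⟨y, hy, rfl⟩
      convert hy using 1
      field_simp
      ring
    · intro h
      exact ⟨_, h, by field_simp; ring⟩
  refine ⟨a * μ, mul_ne_zero ha h.ne, fun c c' z e => ?_⟩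
  have pair : ∀ (Q : ℂ → Set ℂ) (P : Set ℂ), (∀ c x, x ∈ Q c ↔ (x - c) / a ∈ P) →
      (Disjoint (Q c) (Q c') ↔ ¬ ∃ y ∈ P, ∃ y' ∈ P, y - y' = μ * z) := by
    intro Q P hQ
    rw [Set.disjoint_left]
    constructor
    · rintro hd ⟨y, hy, y', hy', e'⟩
      refine hd (a := c + a * y') ((hQ _ _).2 ?_) ((hQ _ _).2 ?_)
      · convert hy' using 1
        field_simp
        ring
      · convert hy using 1
        field_simp
        linear_combination e - a * e'
    · intro hn x h1 h2
      refine hn ⟨_, (hQ _ _).1 h2, _, (hQ _ _).1 h1, ?_⟩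
      field_simp
      linear_combination e
  refine ⟨?_, ?_, fun ho => ?_⟩
  · rw [pair _ _ memi, h.meet_interior hK]
    simp
  · rw [pair _ _ mem, h.meet hK]
    simp
  · rw [← h.touch hK ho]
    constructor
    · rintro ⟨x, h1, h2, h3⟩
      refine ⟨_, (memc _ _).1 h2, _, (memc _ _).1 h1, by field_simp; linear_combination e,
        fun y hy y' hy' e' => ?_⟩
      have : c' + a * y ∈ polygon k a c ∩ polygon k a c' := by
        refine ⟨(mem _ _).2 ?_, (mem _ _).2 ?_⟩
        · convert hy' using 1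
          field_simp
          linear_combination a * e' - e
        · convert hy using 1
          field_simp
          ring
      rw [h3, Set.mem_singleton_iff] at this
      rw [← this]
      field_simp
      ring
    · rintro ⟨v, hv, v', hv', e', u⟩
      have e1 : (c' + a * v - c) / a = v' := by
        field_simp
        linear_combination a * e' - e
      have e2 : (c' + a * v - c') / a = v := by
        field_simp
        ring
      refine ⟨c' + a * v, (memc _ _).2 (e1 ▸ hv'), (memc _ _).2 (e2.symm ▸ hv), ?_⟩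
      rw [Set.eq_singleton_iff_unique_mem]
      refine ⟨⟨(mem _ _).2 (e1 ▸ h.sub hv'), (mem _ _).2 (e2.symm ▸ h.sub hv)⟩, fun x hx => ?_⟩
      rw [← u _ ((mem _ _).1 hx.2) _ ((mem _ _).1 hx.1) (by field_simp; linear_combination e)]
      field_simp
      ring

/-- The arithmetic form of a representation. -/
def Model (K : ℕ) (strict : Bool) {V : Type} (G : SimpleGraph V) (p : V → ℂ) : Prop :=
  ∀ u v, u ≠ v → (∃ l, rho K ≤ Fn K l (p u - p v)) ∧ (G.Adj u v ↔ Root K (p u - p v)) ∧
    (strict = true → ¬ G.Adj u v → ∃ l, rho K < Fn K l (p u - p v))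

theorem polyCoin_iff {k : ℕ} (hk : 3 ≤ k) {a : ℂ} (ha : a ≠ 0) (strict : Bool) {V : Type}
    (G : SimpleGraph V) : PolyCoin k a strict G ↔ ∃ p, Model (KK k) strict G p := by
  obtain ⟨lam, h0, h⟩ := polygon_rel hk ha
  constructor
  · rintro ⟨c, hc⟩
    refine ⟨fun v => c v / lam, fun u v huv => ?_⟩
    obtain ⟨h1, h2, h3⟩ := h (c u) (c v) (c u / lam - c v / lam) (by field_simp)
    obtain ⟨g1, g2, g3⟩ := hc u v huv
    exact ⟨h1.1 g1, g2.trans (h3 (h1.1 g1)), fun a b => h2.1 (g3 a b)⟩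
  · rintro ⟨p, hp⟩
    refine ⟨fun v => lam * p v, fun u v huv => ?_⟩
    obtain ⟨h1, h2, h3⟩ := h (lam * p u) (lam * p v) (p u - p v) (by ring)
    obtain ⟨g1, g2, g3⟩ := hp u v huv
    exact ⟨h1.2 g1, g2.trans (h3 g1).symm, fun a b => h2.2 (g3 a b)⟩

theorem exists_Fn_of_root (i : ℤ) : ∃ l, rho K ≤ Fn K l (E K i) :=
  ⟨i, by rw [Fn_E, rho_eq, E_re, show 2 * i - (2 * i + 1) = -1 by ring]; simp⟩

theorem exists_Fn_of_norm (hK : 2 ≤ K) {z : ℂ} (h : 1 < ‖z‖) : ∃ l, rho K < Fn K l z := by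
  by_contra hc
  push Not at hc
  exact absurd (norm_le_of_Fn hK hc) (not_le.2 h)

/-- A placement with unit edges and all other distances larger than one is a model. -/
theorem model_of_far (hK : 2 ≤ K) (strict : Bool) {V : Type} (G : SimpleGraph V) (p : V → ℂ)
    (h : ∀ u v, u ≠ v → (G.Adj u v → Root K (p u - p v)) ∧ (¬ G.Adj u v → 1 < ‖p u - p v‖)) :
    Model K strict G p := by
  intro u v huv
  obtain ⟨h1, h2⟩ := h u v huv
  refine ⟨?_, ⟨h1, fun r => ?_⟩, fun _ n => exists_Fn_of_norm hK (h2 n)⟩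
  · by_cases a : G.Adj u v
    · obtain ⟨i, e⟩ := h1 a
      rw [e]
      exact exists_Fn_of_root i
    · obtain ⟨l, hl⟩ := exists_Fn_of_norm hK (h2 a)
      exact ⟨l, hl.le⟩
  · by_contra a
    have := h2 a
    rw [r.norm] at this
    exact lt_irrefl _ this

theorem Model.weak {strict : Bool} {V : Type} {G : SimpleGraph V} {p : V → ℂ}
    (h : Model K strict G p) (u v : V) (huv : u ≠ v) :
    (G.Adj u v → Root K (p u - p v)) ∧ (¬ G.Adj u v → Far K (p u - p v)) := by
  obtain ⟨⟨l, hl⟩, h2, -⟩ := h u v huv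
  exact ⟨h2.1, fun n => ⟨fun r => n (h2.2 r), hl.trans (Fn_le_norm l _)⟩⟩

end Pool.Agent.Lib.MP_0e6856_lc
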