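import Pool.Agent.Lib.MP_0e6856_lc.Complete
import Pool.Agent.Lib.MP_0e6856_lc.Polygon
import Pool.Agent.Shared.PolyTime.Extra
import Pool.Agent.Shared.PolyTime.BaseProblems

/-!
The reduction from monotone not-all-equal 3-SAT.
-/

namespace Pool.Agent.Lib.MP_0e6856_lc

open N68a2faeb Pool.Agent.Shared.PolyTime N487b59b3

variable {K : ℕ}

abbrev Inst : Type := List (ℕ × ℕ × ℕ)

def vars (φ : Inst) : List ℕ := φ.flatMap fun c => [c.1, c.2.1, c.2.2]

def idx (φ : Inst) (x : ℕ) : ℤ := ((vars φ).idxOf x : ℕ) + 1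

def wN (K : ℕ) : ℕ := (WW K).toNat

def nN (φ : Inst) : ℕ := (vars φ).length + 1

def yN (K : ℕ) (φ : Inst) : ℕ := 2 + φ.length * (10 * wN K + 25) + 4 * (nN φ + 1)

def uN (K : ℕ) (φ : Inst) : ℕ := 2 * wN K * yN K φ + 2 * wN K + 8

def zN (K : ℕ) (φ : Inst) : ℕ := (nN φ + 2) * uN K φ + 2 * nN φ * (2 * wN K + 4)

def bN (K : ℕ) (φ : Inst) : ℕ := zN K φ + 2 * wN K + yN K φ + nN φ + 8

/-- The engine of a formula. -/
def geom (K : ℕ) (φ : Inst) : Geom where
  n := nN φ
  M := φ.length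
  Y := fun j => yN K φ - 4 * j
  R := fun j => (j + 1) * uN K φ - 4
  xt := fun j => if j = 0 then zN K φ else if j ≤ nN φ then zN K φ - (2 * j - 1) * FF K
    else zN K φ - 2 * nN φ * FF K
  L := fun j y => j * uN K φ + 2 * WW K * y
  b := fun i => 2 + i * (10 * WW K + 25)
  occ := fun j i => j = idx φ (φ.getD i (0, 0, 0)).1 ∨ j = idx φ (φ.getD i (0, 0, 0)).2.1 ∨
    j = idx φ (φ.getD i (0, 0, 0)).2.2

theorem geom_good (hK : 2 ≤ K) (φ : Inst) : (geom K φ).Good K := by
  have hW := WW_nonneg hK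
  have hw : (wN K : ℤ) = WW K := Int.toNat_of_nonneg hW
  have hy : (yN K φ : ℤ) = 2 + φ.length * (10 * WW K + 25) + 4 * (nN φ + 1) := by
    unfold yN; push_cast; rw [hw]
  have hu : (uN K φ : ℤ) = 2 * WW K * yN K φ + 2 * WW K + 8 := by unfold uN; push_cast; rw [hw]
  have hz : (zN K φ : ℤ) = (nN φ + 2) * uN K φ + 2 * nN φ * FF K := by
    unfold zN FF; push_cast; rw [hw]
  have hu0 : (0 : ℤ) ≤ uN K φ := by positivity
  refine ⟨?_, ?_, ?_, ?_, ?_, ?_, ?_, ?_, ?_, ?_, ?_, ?_⟩ <;> simp only [geom, Geom.Fw]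
  · unfold nN; omega
  · intro j y; ring
  · intro j h0 h1
    nlinarith [mul_nonneg hW h0]
  · simp
  · intro j j' h0 h1
    nlinarith [mul_nonneg hu0 (show 0 ≤ j' - j - 1 by omega)]
  · intro j j' h; omega
  · rw [if_neg (by omega), if_neg (by omega), hz]
    nlinarith
  · intro j h0 h1
    have : 1 ≤ nN φ := by unfold nN; omega
    rcases (by omega : j = 0 ∨ (1 ≤ j ∧ j < nN φ) ∨ (1 ≤ j ∧ j = nN φ)) with rfl | h | ⟨h, rfl⟩
    · rw [if_neg (by omega), if_pos (by omega), if_neg (by omega), if_pos (by omega), if_pos rfl]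
      ring
    · rw [if_neg (by omega), if_pos (by omega), if_pos (by omega), if_pos (by omega),
        if_neg (by omega), if_pos (by omega)]
      ring
    · rw [if_neg (by omega), if_neg (by omega), if_pos (by omega), if_neg (by omega),
        if_neg (by omega), if_pos (by omega)]
      ring
  · intro i; have : (0 : ℤ) ≤ i * (10 * WW K + 25) := by positivity
    omega
  · intro i i' h
    have : (0 : ℤ) ≤ i' - i - 1 := by omega
    unfold HH FF
    nlinarith [mul_nonneg this (show 0 ≤ 10 * WW K + 25 by omega)]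
  · intro i h
    have : (0 : ℤ) ≤ φ.length - i - 1 := by omega
    unfold HH FF
    nlinarith [mul_nonneg this (show 0 ≤ 10 * WW K + 25 by omega)]
  · have : (0 : ℤ) ≤ φ.length * (10 * WW K + 25) := by positivity
    omega

theorem nae_iff (φ : Inst) : MonoNAE3 φ ↔ ∃ ν : ℤ → Bool, ∀ i < (geom K φ).M, ∀ σ,
    ∃ j, 1 ≤ j ∧ j ≤ (geom K φ).n ∧ (geom K φ).occ j i ∧ ν j = σ := by
  have mem : ∀ c ∈ φ, c.1 ∈ vars φ ∧ c.2.1 ∈ vars φ ∧ c.2.2 ∈ vars φ := fun c hc =>
    ⟨List.mem_flatMap.2 ⟨c, hc, by simp⟩, List.mem_flatMap.2 ⟨c, hc, by simp⟩,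
      List.mem_flatMap.2 ⟨c, hc, by simp⟩⟩
  simp only [geom]
  constructor
  · rintro ⟨ν, hν⟩
    refine ⟨fun j => ν ((vars φ).getD (j - 1).toNat 0), fun i hi σ => ?_⟩
    have hc : φ.getD i (0, 0, 0) ∈ φ := by
      rw [List.getD_eq_getElem _ _ hi]; exact List.getElem_mem hi
    generalize φ.getD i (0, 0, 0) = c at hc
    have key : ∀ x ∈ vars φ, 1 ≤ idx φ x ∧ idx φ x ≤ nN φ ∧
        ν ((vars φ).getD (idx φ x - 1).toNat 0) = ν x := by
      intro x hx
      have := List.idxOf_lt_length_iff.2 hx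
      refine ⟨by unfold idx; omega, by unfold idx nN; omega, ?_⟩
      simp [idx, List.getElem?_eq_getElem this]
    obtain ⟨m1, m2, m3⟩ := mem c hc
    have := hν c hc
    by_cases h1 : ν c.1 = σ
    · exact ⟨_, (key _ m1).1, (key _ m1).2.1, Or.inl rfl, (key _ m1).2.2.trans h1⟩
    by_cases h2 : ν c.2.1 = σ
    · exact ⟨_, (key _ m2).1, (key _ m2).2.1, Or.inr (Or.inl rfl), (key _ m2).2.2.trans h2⟩
    refine ⟨_, (key _ m3).1, (key _ m3).2.1, Or.inr (Or.inr rfl), (key _ m3).2.2.trans ?_⟩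
    revert this h1 h2
    cases ν c.1 <;> cases ν c.2.1 <;> cases ν c.2.2 <;> cases σ <;> simp
  · rintro ⟨ν, hν⟩
    refine ⟨fun x => ν (idx φ x), fun c hc h => ?_⟩
    obtain ⟨i, hi, rfl⟩ := List.getElem_of_mem hc
    obtain ⟨j, -, -, o, e⟩ := hν i hi (!ν (idx φ φ[i].1))
    rw [List.getD_eq_getElem _ _ hi] at o
    obtain ⟨h1, h2⟩ := h
    dsimp only at h1 h2
    rcases o with rfl | rfl | rfl
    · simp at e
    · rw [← h1] at e; simp at e
    · rw [← h2, ← h1] at e; simp at e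

def ints (K : ℕ) (φ : Inst) : List ℤ := (List.range (2 * bN K φ + 1)).map fun i : ℕ => (i : ℤ) - bN K φ

open Classical in
/-- The vertices of the engine. -/
noncomputable def verts (K : ℕ) (φ : Inst) : List Vx :=
  (ints K φ ×ˢ [true, false] ×ˢ ints K φ ×ˢ ints K φ ×ˢ ints K φ).filter
    fun v => decide ((geom K φ).IsV K v)

open Classical in
/-- The graph of the engine. -/
noncomputable def engine (K : ℕ) (φ : Inst) : List ℕ × List (ℕ × ℕ) :=
  ((verts K φ).map numberOf, ((verts K φ ×ˢ verts K φ).filter fun e => decide (VAdj K e.1 e.2)).map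
    fun e => (numberOf e.1, numberOf e.2))

theorem mem_ints {φ : Inst} {z : ℤ} (h1 : -bN K φ ≤ z) (h2 : z ≤ bN K φ) : z ∈ ints K φ :=
  List.mem_map.2 ⟨(z + bN K φ).toNat, List.mem_range.2 (by omega), by omega⟩

theorem mem_verts (hK : 2 ≤ K) {φ : Inst} {v : Vx} : v ∈ verts K φ ↔ (geom K φ).IsV K v := by
  simp only [verts, List.mem_filter, decide_eq_true_eq, and_iff_right_iff_imp]
  intro hv
  have g := geom_good hK φ
  have hW := WW_nonneg hK
  have hb : (bN K φ : ℤ) = (geom K φ).xt 0 + 2 * WW K + (geom K φ).Y 0 + (geom K φ).n + 8 := by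
    have hw : (wN K : ℤ) = WW K := Int.toNat_of_nonneg hW
    simp [geom, bN, hw]
  have n0 := g.n_pos
  have left := g.left
  have rods := g.rods
  obtain ⟨a1, a2, a3, a4, a5, a6⟩ := g.facts hK (j := 0) le_rfl (by omega)
  have := g.wide 0 le_rfl (by omega)
  obtain ⟨j, s, x, y, k⟩ := v
  have : -bN K φ ≤ j ∧ j ≤ bN K φ ∧ -bN K φ ≤ x ∧ x ≤ bN K φ ∧ -bN K φ ≤ y ∧ y ≤ bN K φ ∧
      -bN K φ ≤ k ∧ k ≤ bN K φ := by
    rcases hv with hv | ⟨a, b, c⟩ | ⟨a, b, c, d, e, i, hi, u, v, -⟩ <;> dsimp only at *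
    · omega
    · have := g.box hK a b c
      have := g.facts hK a b
      have : (geom K φ).Y j ≤ (geom K φ).Y 0 := by simp only [geom]; omega
      omega
    · have := g.facts hK (j := j) (by omega) (by omega)
      have := g.top i hi
      have := g.base i
      have := g.Y_le (j := 0) (by omega)
      unfold FF HH at *
      omega
  simp only [List.mem_product]
  exact ⟨mem_ints (by omega) (by omega), by cases s <;> simp, mem_ints (by omega) (by omega),
    mem_ints (by omega) (by omega), mem_ints (by omega) (by omega)⟩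

theorem VAdj.symm {u v : Vx} (h : VAdj K u v) : VAdj K v u :=
  ⟨by have := h.1; tauto, h.2.symm⟩

theorem engine_adj (hK : 2 ≤ K) {φ : Inst} {u v : Vx} (hu : (geom K φ).IsV K u)
    (hv : (geom K φ).IsV K v) (huv : u ≠ v) (a b : {x : ℕ // x ∈ (engine K φ).1})
    (ha : a.1 = numberOf u) (hb : b.1 = numberOf v) :
    (listGraph (engine K φ)).Adj a b ↔ VAdj K u v := by
  have key : ∀ u v : Vx, (numberOf u, numberOf v) ∈ (engine K φ).2 ↔
      (geom K φ).IsV K u ∧ (geom K φ).IsV K v ∧ VAdj K u v := by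
    intro u v
    simp only [engine, List.mem_map, List.mem_filter, decide_eq_true_eq, Prod.mk.injEq,
      numberOf_injective.eq_iff]
    constructor
    · rintro ⟨⟨u', v'⟩, ⟨h1, h2⟩, rfl, rfl⟩
      rw [List.mem_product, mem_verts hK, mem_verts hK] at h1
      exact ⟨h1.1, h1.2, h2⟩
    · rintro ⟨h1, h2, h3⟩
      exact ⟨(u, v), ⟨List.mem_product.2 ⟨(mem_verts hK).2 h1, (mem_verts hK).2 h2⟩, h3⟩, rfl, rfl⟩
  have : a ≠ b := fun h => huv (numberOf_injective (by rw [← ha, ← hb, h]))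
  simp only [listGraph, SimpleGraph.fromRel_adj, ha, hb, key]
  exact ⟨fun h => h.2.elim (fun h => h.2.2) (fun h => h.2.2.symm),
    fun h => ⟨this, Or.inl ⟨hu, hv, h⟩⟩⟩

theorem engine_correct (hK : 2 ≤ K) (strict : Bool) (φ : Inst) :
    MonoNAE3 φ ↔ ∃ p, Model K strict (listGraph (engine K φ)) p := by
  rw [nae_iff (K := K)]
  constructor
  · rintro ⟨ν, hν⟩
    obtain ⟨p, hp⟩ := engine_complete hK (geom_good hK φ) ν hν
    have : ∀ a : {x : ℕ // x ∈ (engine K φ).1}, ∃ v, (geom K φ).IsV K v ∧ a.1 = numberOf v := by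
      rintro ⟨a, ha⟩
      obtain ⟨v, hv, rfl⟩ := List.mem_map.1 ha
      exact ⟨v, (mem_verts hK).1 hv, rfl⟩
    choose f hf hf' using this
    refine ⟨fun a => p (f a), model_of_far hK strict _ _ (fun a b hab => ?_)⟩
    have ne : f a ≠ f b := fun h => hab (Subtype.ext (by rw [hf', hf', h]))
    rw [engine_adj hK (hf a) (hf b) ne a b (hf' a) (hf' b)]
    exact hp _ _ (hf a) (hf b) ne
  · rintro ⟨p, hp⟩
    classical
    have m : ∀ v, (geom K φ).IsV K v → numberOf v ∈ (engine K φ).1 := fun v hv =>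
      List.mem_map.2 ⟨v, (mem_verts hK).2 hv, rfl⟩
    refine engine_sound hK (geom_good hK φ)
      (fun v => if h : (geom K φ).IsV K v then p ⟨_, m v h⟩ else 0) (fun u v hu hv huv => ?_)
    simp only [dif_pos hu, dif_pos hv]
    rw [← engine_adj hK hu hv huv ⟨_, m u hu⟩ ⟨_, m v hv⟩ rfl rfl]
    exact hp.weak _ _ (fun h => huv (numberOf_injective (congrArg Subtype.val h)))

theorem engine_polyTime (K : ℕ) : IsPolyTime (engine K) := by
  classical
  have h1 : IsPolyTime vars := by unfold vars; fun_prop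
  have h2 : IsPolyTime (fun z : Inst × ℕ => idx z.1 z.2) := by unfold idx; fun_prop
  have h3 : IsPolyTime nN := by unfold nN; fun_prop
  have h4 : IsPolyTime (yN K) := by unfold yN; fun_prop
  have h5 : IsPolyTime (uN K) := by unfold uN; fun_prop
  have h6 : IsPolyTime (zN K) := by unfold zN; fun_prop
  have h7 : IsPolyTime (bN K) := by unfold bN; fun_prop
  have h8 : PolyBdd (bN K) := by unfold bN zN uN yN nN; fun_prop
  have h9 : IsPolyTime (ints K) := by unfold ints; fun_prop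
  have h10 : IsPolyTime (fun z : Inst × Vx => decide ((geom K z.1).IsV K z.2)) := by
    simp only [Geom.IsV, Body, geom]
    fun_prop
  have h11 : IsPolyTime (verts K) := by unfold verts; fun_prop
  have h12 : IsPolyTime (fun z : Vx × Vx => decide (VAdj K z.1 z.2)) := by
    simp only [VAdj, Adjc]
    fun_prop
  have h13 := isPolyTime_numberOf (V := Vx)
  unfold engine
  fun_prop

theorem npHard_polyCoin {k : ℕ} (hk : 3 ≤ k) {a : ℂ} (ha : a ≠ 0) (strict : Bool) :
    NPHard (fun x => PolyCoin k a strict (listGraph x)) :=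
  npHardOn_monoNAE3.npHard_of_reduce (engine (KK k)) (engine_polyTime _) (fun φ _ => by
    rw [polyCoin_iff hk ha]
    exact engine_correct (two_le_KK hk) strict φ)

end Pool.Agent.Lib.MP_0e6856_lc
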