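import Pool.Agent.Lib.MP_0e6856_lc.Local

/-!
Rigidity of an armature of the logic engine.
-/

namespace Pool.Agent.Lib.MP_0e6856_lc

variable {K : ℕ}

/-- The adjacency rule between cells `(x, y, k)`.  A cell with `k = 0` is a lattice point; a cell
with `k > 0` is the end of a leg that stands on `(x, y - 1, 0)`; a cell with `k < 0` is the end of
a leg that hangs from `(x, y + 1, 0)`. -/
def Adjc (K : ℕ) (x y k x' y' k' : ℤ) : Prop :=
  (y = y' ∧ k = k' ∧ (x' = x + 1 ∨ x = x' + 1)) ∨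
  (x = x' ∧ y' = y + 1 ∧ ((k = 0 ∧ 0 ≤ k') ∨ (k' = 0 ∧ k ≤ 0))) ∨
  (x = x' ∧ y = y' + 1 ∧ ((k' = 0 ∧ 0 ≤ k) ∨ (k = 0 ∧ k' ≤ 0))) ∨
  (K = 3 ∧ k = 0 ∧ k' = 0 ∧ ((x' = x + 1 ∧ y = y' + 1) ∨ (x = x' + 1 ∧ y' = y + 1)))

/-- A placement `q` of the cells in `T` that respects the adjacency rule. -/
structure Frame (K : ℕ) (T : ℤ → ℤ → ℤ → Prop) (q : ℤ → ℤ → ℤ → ℂ) : Prop where
  root : ∀ x y k x' y' k', T x y k → T x' y' k' → Adjc K x y k x' y' k' →
    Root K (q x y k - q x' y' k')
  far : ∀ x y k x' y' k', T x y k → T x' y' k' → ¬ (x = x' ∧ y = y' ∧ k = k') →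
    ¬ Adjc K x y k x' y' k' → Far K (q x y k - q x' y' k')

variable {T : ℤ → ℤ → ℤ → Prop} {q : ℤ → ℤ → ℤ → ℂ}

theorem Frame.diag (h : Frame K T q) {x y k : ℤ} (h1 : T x (y + 1) k) (h2 : T (x + 1) y 0)
    (h3 : K = 3 → k = 0) : Diag K (q x (y + 1) k - q (x + 1) y 0) := by
  unfold Diag
  split
  · exact h.root _ _ _ _ _ _ h1 h2 (by unfold Adjc; omega)
  · exact h.far _ _ _ _ _ _ h1 h2 (by omega) (by unfold Adjc; omega)

theorem Frame.cellUp (hK : 2 ≤ K) (h : Frame K T q) {x y k : ℤ} (h0 : T x y 0) (h1 : T (x + 1) y 0)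
    (h2 : T x (y + 1) k) (h3 : T (x + 1) (y + 1) k) (hk : 0 ≤ k) (hk3 : K = 3 → k = 0) :
    q (x + 1) (y + 1) k - q (x + 1) y 0 = q x (y + 1) k - q x y 0 ∧
      ∃ ε, Sg ε ∧ Ang K (q (x + 1) y 0 - q x y 0) (q x (y + 1) k - q x y 0) ε :=
  cell hK (h.root _ _ _ _ _ _ h1 h0 (by unfold Adjc; omega))
    (h.root _ _ _ _ _ _ h2 h0 (by unfold Adjc; omega))
    (h.root _ _ _ _ _ _ h3 h1 (by unfold Adjc; omega))
    (h.root _ _ _ _ _ _ h3 h2 (by unfold Adjc; omega))
    (h.far _ _ _ _ _ _ h3 h0 (by omega) (by unfold Adjc; omega)) (h.diag h2 h1 hk3)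

/-- Along a horizontal strip the rungs are parallel and the orientation is constant. -/
theorem Frame.strip (hK : 2 ≤ K) (h : Frame K T q) {a b y k : ℤ} (hab : a + 1 ≤ b)
    (hT : ∀ x, a ≤ x → x ≤ b → T x y 0 ∧ T x (y + 1) k) (hk : 0 ≤ k) (hk3 : K = 3 → k = 0) :
    ∃ ε, Sg ε ∧ (∀ x, a ≤ x → x ≤ b → q x (y + 1) k - q x y 0 = q a (y + 1) k - q a y 0) ∧
      ∀ x, a ≤ x → x < b → Ang K (q (x + 1) y 0 - q x y 0) (q a (y + 1) k - q a y 0) ε := by
  induction b, hab using Int.leInduction with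
  | base =>
    obtain ⟨e, ε, s, A⟩ := h.cellUp hK (hT a le_rfl (by omega)).1 (hT (a + 1) (by omega) le_rfl).1
      (hT a le_rfl (by omega)).2 (hT (a + 1) (by omega) le_rfl).2 hk hk3
    refine ⟨ε, s, fun x h1 h2 => ?_, fun x h1 h2 => ?_⟩
    · rcases (by omega : x = a ∨ x = a + 1) with rfl | rfl
      · rfl
      · exact e
    · obtain rfl : x = a := by omega
      exact A
  | succ b hab ih =>
    obtain ⟨ε, s, e, A⟩ := ih (fun x h1 h2 => hT x h1 (by omega))
    obtain ⟨e', ε', s', A'⟩ := h.cellUp hK (hT b (by omega) (by omega)).1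
      (hT (b + 1) (by omega) le_rfl).1 (hT b (by omega) (by omega)).2
      (hT (b + 1) (by omega) le_rfl).2 hk hk3
    have eb := e b (by omega) le_rfl
    have eb1 := e (b - 1) (by omega) (by omega)
    rw [eb] at A' e'
    have A1 := A (b - 1) (by omega) (by omega)
    rw [sub_add_cancel] at A1
    have hr : Root K (q a (y + 1) k - q a y 0) :=
      h.root _ _ _ _ _ _ (hT a le_rfl (by omega)).2 (hT a le_rfl (by omega)).1
        (by unfold Adjc; omega)
    have hε : -ε = -ε' := by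
      refine consist hK hr s.neg s'.neg A1.symm A'.symm ?_ ?_
      · exact (h.far (b + 1) y 0 (b - 1) y 0 (hT _ (by omega) le_rfl).1
          (hT _ (by omega) (by omega)).1 (by omega) (by unfold Adjc; omega)).congr (by ring)
      · exact (h.far (b + 1) y 0 (b - 1) (y + 1) k (hT _ (by omega) le_rfl).1
          (hT _ (by omega) (by omega)).2 (by omega) (by unfold Adjc; omega)).congr
          (by linear_combination -eb1)
    obtain rfl : ε = ε' := by omega
    refine ⟨ε, s, fun x h1 h2 => ?_, fun x h1 h2 => ?_⟩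
    · rcases (by omega : x ≤ b ∨ x = b + 1) with h3 | rfl
      · exact e x h1 h3
      · exact e'
    · rcases (by omega : x < b ∨ x = b) with h3 | rfl
      · exact A x h1 h3
      · exact A'

/-- A chain of crosses separated by pairs of open cells. -/
theorem chain (hK : 2 ≤ K) (h3 : K ≠ 3) (L U D : ℤ → ℂ) (x0 : ℤ) (n : ℕ)
    (hc : ∀ i : ℤ, 0 ≤ i → i ≤ n → ∀ x, x = x0 + 2 * i → Root K (L (x + 1) - L x) ∧
      U (x + 1) - L (x + 1) = U x - L x ∧ D (x + 1) - L (x + 1) = D x - L x ∧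
      ∃ A, Cross K (L (x + 1) - L x) (U x - L x) (D x - L x) A)
    (hs : ∀ i : ℤ, 0 ≤ i → i < n → ∀ x, x = x0 + 2 * i → Root K (L (x + 2) - L (x + 1)) ∧
      Far K (L (x + 2) - L x) ∧ Far K (L (x + 2) - U (x + 1)) ∧ Far K (L (x + 2) - D (x + 1)) ∧
      Far K (L (x + 2 + 1) - L (x + 1)) ∧ Far K (U (x + 2) - L (x + 1)) ∧
      Far K (D (x + 2) - L (x + 1)) ∧ Far K (U (x + 2) - U (x + 1)) ∧
      Far K (U (x + 2) - D (x + 1)) ∧ Far K (D (x + 2) - U (x + 1)) ∧
      Far K (D (x + 2) - D (x + 1)))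
    {A : ℤ} (hA : Cross K (L (x0 + 1) - L x0) (U x0 - L x0) (D x0 - L x0) A) :
    ∃ A', A' + 2 * n ≤ A ∧ ∀ x, x = x0 + 2 * n →
      Cross K (L (x + 1) - L x) (U x - L x) (D x - L x) A' := by
  induction n with
  | zero => exact ⟨A, by simp, fun x hx => by simp at hx; subst hx; exact hA⟩
  | succ n ih =>
    obtain ⟨A', h1, h2⟩ := ih (fun i a b => hc i a (by push_cast; omega))
      (fun i a b => hs i a (by push_cast; omega))
    obtain ⟨x, hx⟩ : ∃ x, x = x0 + 2 * n := ⟨_, rfl⟩
    have X := h2 x hx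
    obtain ⟨r1, e1, e2, -⟩ := hc n (by omega) (by push_cast; omega) x hx
    obtain ⟨r2, -, -, A'', X'⟩ := hc (n + 1) (by omega) (by push_cast; omega) (x + 2) (by omega)
    obtain ⟨r3, f1, f2, f3, f4, f5, f6, f7, f8, f9, f10⟩ := hs n (by omega) (by push_cast; omega) x hx
    have := cross_step hK h3 r1 r3 r2 X X' (f1.congr (by ring)) (f2.congr (by linear_combination -e1))
      (f3.congr (by linear_combination -e2)) (f4.congr (by ring)) (f5.congr (by ring))
      (f6.congr (by ring)) (f7.congr (by linear_combination -e1))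
      (f8.congr (by linear_combination -e2)) (f9.congr (by linear_combination -e1))
      (f10.congr (by linear_combination -e2))
    refine ⟨A'', by push_cast; omega, fun x' hx' => ?_⟩
    obtain rfl : x' = x + 2 := by push_cast at hx'; omega
    exact X'

/-- The cells of one half of an armature: a block with a staircase on its left whose steps carry
legs, an arm on top that ends in a chain of crosses, and a rod hanging from the tip of the arm. -/
def Body (W : ℤ) (L : ℤ → ℤ) (R Y xt : ℤ) (x y k : ℤ) : Prop :=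
  (k = 0 ∧ 1 ≤ y ∧ y ≤ Y + 1 ∧ L y ≤ x ∧
    (x ≤ R ∨ (y = Y ∧ x ≤ xt) ∨ (y = Y + 1 ∧ x ≤ xt + 2 * W))) ∨
  (1 ≤ k ∧ k ≤ W ∧ 1 ≤ y ∧ y ≤ Y + 1 ∧ 2 * k - 1 ≤ L y - x ∧ L y - x ≤ 2 * k) ∨
  (y = Y + 2 ∧ k = W ∧ L (Y + 1) ≤ x ∧ x ≤ xt) ∨
  (y = Y + 2 ∧ 0 ≤ k ∧ k < W ∧ 2 * (W - k) - 1 ≤ x - xt ∧ x - xt ≤ 2 * (W - k)) ∨
  (y = Y ∧ -W ≤ k ∧ k ≤ -1 ∧ -2 * k - 1 ≤ x - xt ∧ x - xt ≤ -2 * k) ∨
  (k = 0 ∧ x = xt ∧ 1 ≤ y ∧ y < Y)

theorem stair_mono {W : ℤ} (hW : 0 ≤ W) {L : ℤ → ℤ} (hL : ∀ y, L (y + 1) = L y + 2 * W) {y y' : ℤ}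
    (h : y ≤ y') : L y ≤ L y' := by
  induction y', h using Int.leInduction with
  | base => exact le_rfl
  | succ n _ ih => rw [hL]; omega

theorem ang_cancel (hK : 2 ≤ K) {c : ℂ} (hc : Root K c) {ε ε' g g' : ℤ} (s : Sg ε) (s' : Sg ε')
    (h1 : tt K ≤ g) (h2 : g ≤ tt K + WW K) (h1' : tt K ≤ g') (h2' : g' ≤ tt K + WW K)
    (h : c * E K (ε * g) = c * E K (ε' * g')) : ε = ε' ∧ g = g' := by
  have hc0 : c ≠ 0 := by rintro rfl; simpa using hc.norm
  have h3 := mul_left_cancel₀ hc0 h
  have := tt_WW_le (K := K)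
  have := tt_pos (K := K)
  have := WW_nonneg hK
  have := E_inj' hK h3
  rcases s with rfl | rfl <;> rcases s' with rfl | rfl <;> omega

/-- Two rungs at known angles determine the edge between them. -/
theorem pin (hK : 2 ≤ K) {c a : ℂ} (ha : Root K a) {ε u v g g' : ℤ} (s : Sg ε)
    (h : c * E K (ε * u) = a * E K (ε * g)) (h' : c * E K (ε * v) = a * E K (ε * g'))
    (h1 : u - v < g - g' + 2 * K) (h2 : g - g' < u - v + 2 * K) : u - v = g - g' := by
  have ha0 : a ≠ 0 := by rintro rfl; simpa using ha.norm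
  have h3 : E K (ε * g + ε * v) = E K (ε * g' + ε * u) := by
    rw [E_add, E_add]
    apply mul_left_cancel₀ ha0
    linear_combination E K (ε * u) * h' - E K (ε * v) * h
  have := E_inj' hK h3
  rcases s with rfl | rfl <;> omega

theorem line_of_steps {p : ℤ → ℂ} {c : ℂ} {a b : ℤ} (h : ∀ x, a ≤ x → x < b → p (x + 1) - p x = c)
    {x : ℤ} (h1 : a ≤ x) (h2 : x ≤ b) : p x = p a + c * (x - a) := by
  induction x, h1 using Int.leInduction with
  | base => simp
  | succ n hn ih =>
    have := h n hn (by omega)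
    push_cast
    linear_combination this + ih (by omega)

section half

variable {L : ℤ → ℤ} {R Y xt : ℤ}

/-- The rows of the block above the first are pinned by the legs on the staircase. -/
theorem block (hK : 2 ≤ K) (h : Frame K T q) (hL : ∀ y, L (y + 1) = L y + 2 * WW K)
    (hR : L (Y + 1) + 1 ≤ R) (hB : ∀ x y k, Body (WW K) L R Y xt x y k → T x y k)
    (hS : ∀ x, L 1 ≤ x → x ≤ R → T x 0 0) {O c : ℂ} (hc : Root K c) {ε : ℤ} (s : Sg ε)
    (h0 : ∀ x, L 1 ≤ x → x ≤ R → q x 0 0 = O + c * x)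
    (h1 : ∀ x, L 1 ≤ x → x ≤ R → q x 1 0 = O + c * (x + E K (ε * tt K)))
    {y : ℤ} (hy : 0 ≤ y) (hy' : y ≤ Y) :
    (∀ x, L (y + 1) ≤ x → x ≤ R → q x y 0 = O + c * (x + y * E K (ε * tt K))) ∧
      ∀ x, L (y + 1) ≤ x → x ≤ R → q x (y + 1) 0 = O + c * (x + (y + 1) * E K (ε * tt K)) := by
  have hW := WW_nonneg hK
  have h3 : K = 3 → WW K = 0 := by rintro rfl; rfl
  induction y, hy using Int.leInduction with
  | base => exact ⟨by simpa using h0, by simpa using h1⟩
  | succ y hy ih =>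
    obtain ⟨i0, i1⟩ := ih (by omega)
    have l1 := hL (y + 1)
    have l2 := stair_mono hW hL (show y + 1 + 1 ≤ Y + 1 by omega)
    have l0 := stair_mono hW hL (show y ≤ y + 1 by omega)
    have T0 : ∀ x, L (y + 1) ≤ x → x ≤ R → T x y 0 := fun x a b => by
      rcases eq_or_lt_of_le hy with rfl | hy0
      · exact hS x (by simpa using a) b
      · exact hB _ _ _ (by unfold Body; omega)
    have T1 : ∀ x, L (y + 1) ≤ x → x ≤ R → T x (y + 1) 0 := fun x a b =>
      hB _ _ _ (by unfold Body; omega)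
    have T2 : ∀ i, 0 ≤ i → i ≤ WW K → ∀ x, x = L (y + 1 + 1) - 2 * i ∨ x = L (y + 1 + 1) - 2 * i + 1 →
        T x (y + 1 + 1) i := fun i a b x hx => hB _ _ _ (by unfold Body; omega)
    have col : ∀ x, L (y + 1) ≤ x → x < R → q (x + 1) (y + 1) 0 - q x (y + 1) 0 = c := fun x a b => by
      rw [i1 x a b.le, i1 (x + 1) (by omega) (by omega)]; push_cast; ring
    have leg : ∀ i, 0 ≤ i → i ≤ WW K → ∀ x, x = L (y + 1 + 1) - 2 * i → ∃ g, tt K ≤ g ∧
        g ≤ tt K + WW K ∧ q x (y + 1 + 1) i - q x (y + 1) 0 = c * E K (ε * g) ∧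
        q (x + 1) (y + 1 + 1) i - q (x + 1) (y + 1) 0 = c * E K (ε * g) := fun i a b x hx => by
      obtain ⟨e, ε', s', A⟩ := h.cellUp hK (T1 x (by omega) (by omega))
        (T1 (x + 1) (by omega) (by omega)) (T2 i a b x (Or.inl hx)) (T2 i a b (x + 1) (by omega)) a
        (by omega)
      rw [col x (by omega) (by omega)] at A
      have e0 := i0 x (by omega) (by omega)
      have e0' := i0 (x + 1) (by omega) (by omega)
      have e1 := i1 x (by omega) (by omega)
      have hε : ε = ε' := by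
        refine consist hK hc s s' ⟨tt K, le_rfl, by omega, rfl⟩ A ?_ ?_
        · exact (h.far x (y + 1 + 1) i x y 0 (T2 i a b x (Or.inl hx)) (T0 x (by omega) (by omega))
            (by omega) (by unfold Adjc; omega)).congr (by linear_combination e1 - e0)
        · exact (h.far x (y + 1 + 1) i (x + 1) y 0 (T2 i a b x (Or.inl hx))
            (T0 (x + 1) (by omega) (by omega)) (by omega) (by unfold Adjc; omega)).congr
            (by push_cast at e0'; linear_combination e1 - e0')
      subst hε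
      obtain ⟨g, g1, g2, g3⟩ := A
      exact ⟨g, g1, g2, g3, e.trans g3⟩
    obtain ⟨g0, a0, b0, c0, -⟩ := leg 0 le_rfl hW (L (y + 1 + 1)) (by omega)
    have grow : ∀ i, 0 ≤ i → i ≤ WW K → ∀ x, x = L (y + 1 + 1) - 2 * i → ∃ g, g0 + i ≤ g ∧
        g ≤ tt K + WW K ∧ q x (y + 1 + 1) i - q x (y + 1) 0 = c * E K (ε * g) := fun i a => by
      induction i, a using Int.leInduction with
      | base =>
        intro _ x hx
        obtain rfl : x = L (y + 1 + 1) := by omega
        exact ⟨g0, by omega, b0, c0⟩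
      | succ i a ih =>
        intro b x hx
        obtain ⟨g, g1, g2, g3⟩ := ih (by omega) (x + 1 + 1) (by omega)
        obtain ⟨g', g1', g2', g3', g4'⟩ := leg (i + 1) (by omega) b x hx
        have hcol := col (x + 1) (by omega) (by omega)
        have := bay hK hc s g1' g2 ((h.far (x + 1 + 1) (y + 1 + 1) i (x + 1) (y + 1 + 1) (i + 1)
          (T2 i a (by omega) _ (by omega)) (T2 (i + 1) (by omega) b _ (by omega)) (by omega)
          (by unfold Adjc; omega)).congr (by linear_combination g3 - g4' + hcol))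
        exact ⟨g', by omega, g2', g3'⟩
    obtain ⟨g, g1, g2, -⟩ := grow (WW K) hW le_rfl _ rfl
    obtain rfl : g0 = tt K := by omega
    obtain ⟨-, -, e, -⟩ := h.strip hK (a := L (y + 1 + 1)) (b := R) (y := y + 1) (k := 0) (by omega)
      (fun x a b => ⟨T1 x (by omega) b, hB _ _ _ (by unfold Body; omega)⟩) le_rfl (fun _ => rfl)
    refine ⟨fun x a b => by simpa using i1 x (by omega) b, fun x a b => ?_⟩
    have := e x a b
    have := i1 x (by omega) b
    push_cast
    linear_combination e x a b + c0 + i1 x (by omega) b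

/-- The edges of the arm are pinned by the chain of crosses at its end. -/
theorem arm (hK : 2 ≤ K) (h : Frame K T q) (hL : ∀ y, L (y + 1) = L y + 2 * WW K) (hY : 1 ≤ Y)
    (hR : L (Y + 1) + 1 ≤ R) (hx : R ≤ xt) (hB : ∀ x y k, Body (WW K) L R Y xt x y k → T x y k)
    {O c : ℂ} (hc : Root K c) {ε : ℤ} (s : Sg ε)
    (h0 : ∀ x, L (Y + 1) ≤ x → x ≤ R → q x Y 0 = O + c * (x + Y * E K (ε * tt K)))
    (h1 : ∀ x, L (Y + 1) ≤ x → x ≤ R → q x (Y + 1) 0 = O + c * (x + (Y + 1) * E K (ε * tt K))) :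
    q xt Y 0 = O + c * (xt + Y * E K (ε * tt K)) := by
  have hW := WW_nonneg hK
  have h3 : K = 3 → WW K = 0 := by rintro rfl; rfl
  have l1 := hL Y
  have T0 : ∀ x, L (Y + 1) ≤ x → x ≤ xt → T x Y 0 := fun x a b => hB _ _ _ (by unfold Body; omega)
  have T1 : ∀ x, L (Y + 1) ≤ x → x ≤ xt + 2 * WW K → T x (Y + 1) 0 := fun x a b =>
    hB _ _ _ (by unfold Body; omega)
  have T2 : ∀ x, L (Y + 1) ≤ x → x ≤ xt → T x (Y + 1 + 1) (WW K) := fun x a b =>
    hB _ _ _ (by unfold Body; omega)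
  obtain ⟨a, ha⟩ : ∃ a, a = L (Y + 1) := ⟨_, rfl⟩
  rw [← ha] at h0 h1 T0 T1 T2 hR
  obtain ⟨ε1, s1, e1, A1⟩ := h.strip hK (a := a) (b := xt) (y := Y) (k := 0) (by omega)
    (fun x u v => ⟨T0 x u v, T1 x u (by omega)⟩) le_rfl (fun _ => rfl)
  have r1 : q a (Y + 1) 0 - q a Y 0 = c * E K (ε * tt K) := by
    rw [h0 a le_rfl (by omega), h1 a le_rfl (by omega)]; ring
  have c1 : q (a + 1) Y 0 - q a Y 0 = c := by
    rw [h0 a le_rfl (by omega), h0 (a + 1) (by omega) (by omega)]; push_cast; ring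
  rw [r1] at e1 A1
  have hε : ε = ε1 := by
    obtain ⟨g, g1, g2, g3⟩ := A1 a le_rfl (by omega)
    rw [c1] at g3
    exact (ang_cancel hK hc s s1 le_rfl (by omega) g1 g2 g3).1
  subst hε
  have cancel : ∀ z : ℂ, c * E K (ε * tt K) = z * E K (ε * tt K) → z = c := fun z hz =>
    (mul_right_cancel₀ (E_ne_zero _) hz).symm
  have cols : ∀ x, a ≤ x → x < xt → q (x + 1) Y 0 - q x Y 0 = c := by
    rcases eq_or_lt_of_le hW with hW0 | hW0
    · intro x u v
      obtain ⟨g, g1, g2, g3⟩ := A1 x u v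
      obtain rfl : g = tt K := by omega
      exact cancel _ g3
    have hK3 := ne_three_of_WW hW0
    have htw := tt_WW hK3
    have htp := tt_pos (K := K)
    obtain ⟨ε2, s2, e2, A2⟩ := h.strip hK (a := a) (b := xt) (y := Y + 1) (k := WW K) (by omega)
      (fun x u v => ⟨T1 x u (by omega), T2 x u v⟩) hW h3
    have up : ∀ x, a ≤ x → x < xt → q (x + 1) (Y + 1) 0 - q x (Y + 1) 0 = q (x + 1) Y 0 - q x Y 0 :=
      fun x u v => by linear_combination e1 (x + 1) (by omega) (by omega) - e1 x u v.le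
    have hε : ε = ε2 := by
      have A := A2 a le_rfl (by omega)
      rw [up a le_rfl (by omega), c1] at A
      refine consist hK hc s s2 ⟨tt K, le_rfl, by omega, rfl⟩ A ?_ ?_
      · exact (h.far a (Y + 1 + 1) (WW K) a Y 0 (T2 a le_rfl (by omega)) (T0 a le_rfl (by omega))
          (by omega) (by unfold Adjc; omega)).congr (by linear_combination r1)
      · exact (h.far a (Y + 1 + 1) (WW K) (a + 1) Y 0 (T2 a le_rfl (by omega))
          (T0 (a + 1) (by omega) (by omega)) (by omega) (by unfold Adjc; omega)).congr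
          (by linear_combination r1 - c1)
    subst hε
    obtain ⟨g1, u1, v1, w1⟩ := A1 (xt - 1) (by omega) (by omega)
    obtain ⟨g2, u2, v2, w2⟩ := A2 (xt - 1) (by omega) (by omega)
    rw [← up (xt - 1) (by omega) (by omega)] at w1
    have TU : ∀ x, xt - 1 ≤ x → x ≤ xt + 2 * WW K → T x (Y + 1 + 1) (WW K - (x - xt + 1) / 2) :=
      fun x u v => hB _ _ _ (by unfold Body; omega)
    have TD : ∀ x, xt - 1 ≤ x → x ≤ xt + 2 * WW K → T x Y (-((x - xt + 1) / 2)) :=
      fun x u v => hB _ _ _ (by unfold Body; omega)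
    have X : Cross K (q (xt - 1 + 1) (Y + 1) 0 - q (xt - 1) (Y + 1) 0)
        (q (xt - 1) (Y + 1 + 1) (WW K - (xt - 1 - xt + 1) / 2) - q (xt - 1) (Y + 1) 0)
        (q (xt - 1) Y (-((xt - 1 - xt + 1) / 2)) - q (xt - 1) (Y + 1) 0) (g2 + (K - g1)) := by
      have z : (xt - 1 - xt + 1) / 2 = 0 := by omega
      rw [z, sub_zero, neg_zero]
      refine ⟨ε, g2, K - g1, s, u2, v2, by omega, by omega,
        (e2 _ (by omega) (by omega)).trans w2, ?_, rfl⟩
      have : E K (-ε * (K - g1)) = -E K (ε * g1) := by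
        rcases s with rfl | rfl
        · rw [← E_sub_K hK]; congr 1; ring
        · rw [← E_add_K hK]; congr 1; ring
      rw [this]
      linear_combination -w1 - e1 (xt - 1) (by omega) (by omega)
    have hn : ((WW K).toNat : ℤ) = WW K := Int.toNat_of_nonneg hW
    obtain ⟨A', hA', X'⟩ := chain hK hK3 (fun x => q x (Y + 1) 0)
      (fun x => q x (Y + 1 + 1) (WW K - (x - xt + 1) / 2)) (fun x => q x Y (-((x - xt + 1) / 2)))
      (xt - 1) (WW K).toNat (fun i u v x hx => by
        have t0 := T1 x (by omega) (by omega)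
        have t1 := T1 (x + 1) (by omega) (by omega)
        have u0 := TU x (by omega) (by omega)
        have u1 := TU (x + 1) (by omega) (by omega)
        have d0 := TD x (by omega) (by omega)
        have d1 := TD (x + 1) (by omega) (by omega)
        have r := h.root _ _ _ _ _ _ t1 t0 (by unfold Adjc; omega)
        refine ⟨r, mkCross hK r ?_ ?_ ?_ ?_ ?_ ?_ ?_ ?_ ?_ ?_ ?_⟩
        all_goals first
          | (apply h.root <;> first | assumption | (unfold Adjc; omega))
          | (apply h.far <;> first | assumption | omega | (unfold Adjc; omega))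
          | (unfold Diag; rw [if_neg hK3]; apply h.far <;>
              first | assumption | omega | (unfold Adjc; omega)))
      (fun i u v x hx => by
        have t0 := T1 x (by omega) (by omega)
        have t1 := T1 (x + 1) (by omega) (by omega)
        have t2 := T1 (x + 2) (by omega) (by omega)
        have t3 := T1 (x + 2 + 1) (by omega) (by omega)
        have u1 := TU (x + 1) (by omega) (by omega)
        have u2 := TU (x + 2) (by omega) (by omega)
        have d1 := TD (x + 1) (by omega) (by omega)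
        have d2 := TD (x + 2) (by omega) (by omega)
        refine ⟨h.root _ _ _ _ _ _ t2 t1 (by unfold Adjc; omega), ?_, ?_, ?_, ?_, ?_, ?_, ?_, ?_, ?_,
          ?_⟩
        all_goals (apply h.far <;> first | assumption | omega | (unfold Adjc; omega))) X
    have := (X' _ rfl).bounds
    obtain rfl : g1 = tt K := by omega
    obtain rfl : g2 = tt K + WW K := by omega
    rw [cancel _ w1] at w2
    intro x u v
    obtain ⟨g, a1, b1, d1⟩ := A1 x u v
    obtain ⟨g', a2, b2, d2⟩ := A2 x u v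
    rw [up x u v, w2] at d2
    have := pin hK (h.root _ _ _ _ _ _ (T0 (x + 1) (by omega) (by omega)) (T0 x u (by omega))
      (by unfold Adjc; omega)) s d1 d2 (by omega) (by omega)
    obtain rfl : g = tt K := by omega
    exact cancel _ d1
  have := line_of_steps (p := fun x => q x Y 0) cols (x := xt) (by omega) le_rfl
  rw [this, h0 a le_rfl (by omega)]
  ring

end half

/-- The sign attached to a side. -/
def sg (s : Bool) : ℤ := if s then 1 else -1

theorem Sg.sg_mul {ε : ℤ} (h : Sg ε) (s : Bool) : Sg (sg s * ε) := by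
  unfold Sg sg at *
  split <;> omega

/-- Rigidity of an armature: the two tips are at their nominal positions, up to a reflection. -/
theorem armature (hK : 2 ≤ K) {T : Bool → ℤ → ℤ → ℤ → Prop} {q : Bool → ℤ → ℤ → ℤ → ℂ}
    (h : ∀ s, Frame K (T s) (q s))
    (cross : ∀ x k x' k', T true x 1 k → T false x' 1 k' → Far K (q true x 1 k - q false x' 1 k'))
    (axis : ∀ x, q false x 0 0 = q true x 0 0) {L : ℤ → ℤ} {R Y xt : ℤ}
    (hL : ∀ y, L (y + 1) = L y + 2 * WW K) (hY : 1 ≤ Y) (hR : L (Y + 1) + 1 ≤ R) (hx : R ≤ xt)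
    (hB : ∀ s x y k, Body (WW K) L R Y xt x y k → T s x y k)
    (hS : ∀ s x, L 0 ≤ x → x ≤ R → T s x 0 0) :
    ∃ ε, Sg ε ∧ ∀ s, q s xt Y 0 = q true (L 1) 0 0 +
      (q true (L 1 + 1) 0 0 - q true (L 1) 0 0) * (xt - L 1 + Y * E K (sg s * ε * tt K)) := by
  have hW := WW_nonneg hK
  have h3 : K = 3 → WW K = 0 := by rintro rfl; rfl
  have l0 : L 1 = L 0 + 2 * WW K := by simpa using hL 0
  have l1 := stair_mono hW hL (show 1 ≤ Y + 1 by omega)
  have ht := h true
  have hf := h false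
  have TU : ∀ s x, L 0 ≤ x → x ≤ L 1 + 1 → T s x 1 ((L 1 - x + 1) / 2) :=
    fun s x u v => hB _ _ _ _ (by unfold Body; omega)
  have T1 : ∀ s x, L 1 ≤ x → x ≤ R → T s x 1 0 :=
    fun s x u v => hB _ _ _ _ (by unfold Body; omega)
  have mk : ∀ x k, L 0 ≤ x → x ≤ L 1 → k = (L 1 - x + 1) / 2 → k = (L 1 - (x + 1) + 1) / 2 →
      q true (x + 1) 1 k - q true (x + 1) 0 0 = q true x 1 k - q true x 0 0 ∧
      q false (x + 1) 1 k - q true (x + 1) 0 0 = q false x 1 k - q true x 0 0 ∧
      ∃ A, Cross K (q true (x + 1) 0 0 - q true x 0 0) (q true x 1 k - q true x 0 0)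
        (q false x 1 k - q true x 0 0) A := fun x k u v e e' => by
    have t0 := hS true x u (by omega)
    have t1 := hS true (x + 1) (by omega) (by omega)
    have f0 := hS false x u (by omega)
    have f1 := hS false (x + 1) (by omega) (by omega)
    have u0 := e ▸ TU true x u (by omega)
    have u1 := e' ▸ TU true (x + 1) (by omega) (by omega)
    have d0 := e ▸ TU false x u (by omega)
    have d1 := e' ▸ TU false (x + 1) (by omega) (by omega)
    refine mkCross hK (ht.root _ _ _ _ _ _ t1 t0 (by unfold Adjc; omega))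
      (ht.root _ _ _ _ _ _ u0 t0 (by unfold Adjc; omega))
      (ht.root _ _ _ _ _ _ u1 t1 (by unfold Adjc; omega))
      (ht.root _ _ _ _ _ _ u1 u0 (by unfold Adjc; omega))
      (ht.far _ _ _ _ _ _ u1 t0 (by omega) (by unfold Adjc; omega))
      (ht.diag (y := 0) u0 t1 (by omega)) ?_ ?_
      (hf.root _ _ _ _ _ _ d1 d0 (by unfold Adjc; omega)) ?_ ?_ (cross _ _ _ _ u0 d0)
    · rw [← axis]; exact hf.root _ _ _ _ _ _ d0 f0 (by unfold Adjc; omega)
    · rw [← axis]; exact hf.root _ _ _ _ _ _ d1 f1 (by unfold Adjc; omega)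
    · rw [← axis]; exact hf.far _ _ _ _ _ _ d1 f0 (by omega) (by unfold Adjc; omega)
    · rw [← axis]; exact hf.diag (y := 0) d0 f1 (by omega)
  have X : ∃ A, A ≤ 2 * tt K ∧ Cross K (q true (L 1 + 1) 0 0 - q true (L 1) 0 0)
      (q true (L 1) 1 0 - q true (L 1) 0 0) (q false (L 1) 1 0 - q true (L 1) 0 0) A := by
    rcases eq_or_lt_of_le hW with hW0 | hW0
    · obtain ⟨-, -, A, X⟩ := mk (L 1) 0 (by omega) le_rfl (by omega) (by omega)
      exact ⟨A, by have := X.bounds; omega, X⟩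
    have hK3 := ne_three_of_WW hW0
    have hn : ((WW K).toNat : ℤ) = WW K := Int.toNat_of_nonneg hW
    obtain ⟨-, -, A, X⟩ := mk (L 0) ((L 1 - L 0 + 1) / 2) le_rfl (by omega) rfl (by omega)
    obtain ⟨A', hA', X'⟩ := chain hK hK3 (fun x => q true x 0 0)
      (fun x => q true x 1 ((L 1 - x + 1) / 2)) (fun x => q false x 1 ((L 1 - x + 1) / 2))
      (L 0) (WW K).toNat (fun i u v x hx => by
        have e : (L 1 - (x + 1) + 1) / 2 = (L 1 - x + 1) / 2 := by omega
        simp only [e]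
        exact ⟨ht.root _ _ _ _ _ _ (hS true _ (by omega) (by omega))
          (hS true _ (by omega) (by omega)) (by unfold Adjc; omega),
          mk x _ (by omega) (by omega) rfl e.symm⟩)
      (fun i u v x hx => by
        have t0 := hS true x (by omega) (by omega)
        have t1 := hS true (x + 1) (by omega) (by omega)
        have t2 := hS true (x + 2) (by omega) (by omega)
        have t3 := hS true (x + 2 + 1) (by omega) (by omega)
        have f1 := hS false (x + 1) (by omega) (by omega)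
        have f2 := hS false (x + 2) (by omega) (by omega)
        have u1 := TU true (x + 1) (by omega) (by omega)
        have u2 := TU true (x + 2) (by omega) (by omega)
        have d1 := TU false (x + 1) (by omega) (by omega)
        have d2 := TU false (x + 2) (by omega) (by omega)
        refine ⟨ht.root _ _ _ _ _ _ t2 t1 (by unfold Adjc; omega), ?_, ?_, ?_, ?_, ?_, ?_, ?_,
          cross _ _ _ _ u2 d1, ((cross _ _ _ _ u1 d2).neg hK).congr (by ring), ?_⟩
        all_goals first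
          | (apply ht.far <;> first | assumption | omega | (unfold Adjc; omega))
          | (apply hf.far <;> first | assumption | omega | (unfold Adjc; omega))
          | (simp only [← axis]; apply hf.far <;>
              first | assumption | omega | (unfold Adjc; omega))) X
    have X'' := X' (L 1) (by omega)
    have z : (L 1 - L 1 + 1) / 2 = 0 := by omega
    simp only [z] at X''
    exact ⟨A', by have := X.bounds; omega, X''⟩
  obtain ⟨A, hA, ε, g1, g2, s, u1, v1, u2, v2, w1, w2, rfl⟩ := X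
  obtain rfl : g1 = tt K := by omega
  obtain rfl : g2 = tt K := by omega
  obtain ⟨c, hc⟩ : ∃ c, c = q true (L 1 + 1) 0 0 - q true (L 1) 0 0 := ⟨_, rfl⟩
  have hcr : Root K c := hc ▸ ht.root _ _ _ _ _ _ (hS true _ (by omega) (by omega))
    (hS true _ (by omega) (by omega)) (by unfold Adjc; omega)
  rw [← hc] at w1 w2 ⊢
  have w : ∀ s, q s (L 1) (0 + 1) 0 - q s (L 1) 0 0 = c * E K (sg s * ε * tt K) := by
    intro s
    cases s
    · simpa [sg, axis] using w2
    · simpa [sg] using w1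
  have st : ∀ s, (∀ x, L 1 ≤ x → x ≤ R → q s x 1 0 - q s x 0 0 = c * E K (sg s * ε * tt K)) ∧
      ∀ x, L 1 ≤ x → x < R →
        Ang K (q true (x + 1) 0 0 - q true x 0 0) (c * E K (sg s * ε * tt K)) (sg s * ε) := by
    intro s'
    obtain ⟨ε1, s1, e1, A1⟩ := (h s').strip hK (a := L 1) (b := R) (y := 0) (k := 0) (by omega)
      (fun x u v => ⟨hS s' x (by omega) v, T1 s' x u v⟩) le_rfl (fun _ => rfl)
    rw [w s'] at e1 A1
    have ax : ∀ x, q s' x 0 0 = q true x 0 0 := by
      cases s'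
      · exact axis
      · exact fun _ => rfl
    simp only [ax] at A1
    obtain ⟨g, g1, g2, g3⟩ := A1 (L 1) le_rfl (by omega)
    rw [← hc] at g3
    obtain ⟨rfl, -⟩ := ang_cancel hK hcr (s.sg_mul s') s1 le_rfl (by omega) g1 g2 g3
    exact ⟨e1, A1⟩
  have cols : ∀ x, L 1 ≤ x → x < R → q true (x + 1) 0 0 - q true x 0 0 = c := by
    intro x u v
    obtain ⟨g, a1, b1, d1⟩ := (st true).2 x u v
    obtain ⟨g', a2, b2, d2⟩ := (st false).2 x u v
    simp only [sg, if_true, one_mul] at d1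
    simp only [sg, Bool.false_eq_true, if_false] at d2
    have htw := tt_WW_le (K := K)
    have htp := tt_pos (K := K)
    have := pin hK (ht.root _ _ _ _ _ _ (hS true (x + 1) (by omega) (by omega))
      (hS true x (by omega) (by omega)) (by unfold Adjc; omega)) s (v := -tt K) (g' := -g') d1
      (by simpa using d2) (by omega) (by omega)
    obtain rfl : g = tt K := by omega
    exact (mul_right_cancel₀ (E_ne_zero _) d1).symm
  refine ⟨ε, s, fun s' => ?_⟩
  have ax : ∀ x, q s' x 0 0 = q true x 0 0 := by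
    cases s'
    · exact axis
    · exact fun _ => rfl
  have h0 : ∀ x, L 1 ≤ x → x ≤ R → q s' x 0 0 = (q true (L 1) 0 0 - c * L 1) + c * x := by
    intro x u v
    rw [ax, line_of_steps (p := fun x => q true x 0 0) cols u v]
    ring
  have h1 : ∀ x, L 1 ≤ x → x ≤ R →
      q s' x 1 0 = (q true (L 1) 0 0 - c * L 1) + c * (x + E K (sg s' * ε * tt K)) := by
    intro x u v
    linear_combination (st s').1 x u v + h0 x u v
  obtain ⟨b0, b1⟩ := block hK (h s') hL hR (hB s') (fun x u v => hS s' x (by omega) v) hcr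
    (s.sg_mul s') h0 h1 (y := Y) (by omega) le_rfl
  rw [arm hK (h s') hL hY hR hx (hB s') hcr (s.sg_mul s') b0 b1]
  ring

end Pool.Agent.Lib.MP_0e6856_lc
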