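import Pool.Agent.Lib.MP_0e6856_lc.Arm

/-!
The nominal positions of cells: adjacent cells differ by a root of unity, and other cells in safe
relative position are at distance more than one.
-/

namespace Pool.Agent.Lib.MP_0e6856_lc

open Real

variable {K : ℕ}

/-- The displacement of the end of a leg from the lattice point of its cell. -/
noncomputable def pert (K : ℕ) (k : ℤ) : ℂ :=
  if 0 ≤ k then E K (tt K + k) - E K (tt K) else E K (tt K) - E K (tt K - k)

/-- The nominal position of a cell. -/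
noncomputable def Phi (K : ℕ) (x y k : ℤ) : ℂ := x + y * E K (tt K) + pert K k

theorem pert_of_nonneg {k : ℤ} (h : 0 ≤ k) : pert K k = E K (tt K + k) - E K (tt K) := if_pos h

theorem pert_of_nonpos {k : ℤ} (h : k ≤ 0) : pert K k = E K (tt K) - E K (tt K - k) := by
  rcases eq_or_lt_of_le h with rfl | h
  · simp [pert]
  · exact if_neg (by omega)

@[simp] theorem pert_zero : pert K 0 = 0 := by simp [pert]

theorem Adjc.symm {x y k x' y' k' : ℤ} (h : Adjc K x y k x' y' k') : Adjc K x' y' k' x y k := by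
  unfold Adjc at *; omega

theorem root_of_adjc (hK : 2 ≤ K) {x y k x' y' k' : ℤ} (h : Adjc K x y k x' y' k') :
    Root K (Phi K x y k - Phi K x' y' k') := by
  have one : Root K 1 := ⟨0, by simp⟩
  have d : E 3 (tt 3) - 1 = E 3 2 := by
    have e2 : cos (2 * (π / 3)) = -1 / 2 := by rw [cos_two_mul, cos_pi_div_three]; norm_num
    have e3 : sin (2 * (π / 3)) = sin (π / 3) := by rw [← sin_pi_sub]; congr 1; ring
    apply Complex.ext
    · simp [E_re, tt_three, e2]; norm_num
    · simp [E_im, tt_three, e3]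
  unfold Phi
  rcases h with ⟨rfl, rfl, rfl | rfl⟩ | ⟨rfl, rfl, ⟨rfl, h⟩ | ⟨rfl, h⟩⟩ |
    ⟨rfl, rfl, ⟨rfl, h⟩ | ⟨rfl, h⟩⟩ | ⟨rfl, rfl, rfl, ⟨rfl, rfl⟩ | ⟨rfl, rfl⟩⟩
  · exact (one.neg hK).congr (by push_cast; ring)
  · exact one.congr (by push_cast; ring)
  · exact ((root_E (tt K + k')).neg hK).congr (by rw [pert_of_nonneg h]; simp; ring)
  · exact ((root_E (tt K - k)).neg hK).congr (by rw [pert_of_nonpos h]; simp; ring)
  · exact (root_E (tt K + k)).congr (by rw [pert_of_nonneg h]; simp; ring)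
  · exact (root_E (tt K - k')).congr (by rw [pert_of_nonpos h]; simp; ring)
  · exact (root_E 2).congr (by rw [← d]; simp; ring)
  · exact ((root_E 2).neg hK).congr (by rw [← d]; simp; ring)

theorem pert_im (hK : 2 ≤ K) {k : ℤ} (h1 : -WW K ≤ k) (h2 : k ≤ WW K) :
    |(pert K k).im| ≤ 1 - sin (tt K * (π / K)) ∧ (0 ≤ k → 0 ≤ (pert K k).im) := by
  rcases le_total 0 k with h | h
  · have := win_sin_ge hK (g := tt K + k) (by omega) (by omega)
    have := sin_le_one ((tt K + k : ℤ) * (π / K))
    rw [pert_of_nonneg h, Complex.sub_im, E_im, E_im, abs_le]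
    exact ⟨⟨by linarith, by linarith⟩, fun _ => by linarith⟩
  · have := win_sin_ge hK (g := tt K - k) (by omega) (by omega)
    have := sin_le_one ((tt K - k : ℤ) * (π / K))
    refine ⟨?_, fun h' => by obtain rfl : k = 0 := by omega
                             simp⟩
    rw [pert_of_nonpos h, Complex.sub_im, E_im, E_im, abs_le]
    exact ⟨by linarith, by linarith⟩

theorem pert_perp (k : ℤ) : |(E K (-tt K) * pert K k).im| ≤ 1 := by
  unfold pert
  split
  · rw [mul_sub, E_neg_mul, ← E_add, Complex.sub_im, E_im]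
    simpa using abs_sin_le_one _
  · rw [mul_sub, E_neg_mul, ← E_add, Complex.sub_im, E_im]
    simpa using abs_sin_le_one _

theorem pert_re_lt (hK : 2 ≤ K) {k k' : ℤ} (h1 : -WW K ≤ k) (h : k < k') (h2 : k' ≤ WW K) :
    (pert K k').re < (pert K k).re := by
  rcases le_total 0 k with a | a
  · rw [pert_of_nonneg a, pert_of_nonneg (by omega : 0 ≤ k')]
    simp only [Complex.sub_re, E_re]
    have := win_cos_lt hK (g := tt K + k) (g' := tt K + k') (by omega) (by omega) (by omega)
    linarith
  · rcases le_total k' 0 with b | b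
    · rw [pert_of_nonpos a, pert_of_nonpos b]
      simp only [Complex.sub_re, E_re]
      have := win_cos_lt hK (g := tt K - k') (g' := tt K - k) (by omega) (by omega) (by omega)
      linarith
    · rw [pert_of_nonpos a, pert_of_nonneg b]
      simp only [Complex.sub_re, E_re]
      have := win_cos_le hK (g := tt K - k) (by omega) (by omega)
      have := win_cos_le hK (g := tt K + k') (by omega) (by omega)
      rcases eq_or_lt_of_le a with rfl | a
      · have := win_cos_lt hK (g := tt K) (g' := tt K + k') (by omega) (by omega) (by omega)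
        linarith
      · have := win_cos_lt hK (g := tt K) (g' := tt K - k) (by omega) (by omega) (by omega)
        linarith

theorem one_lt_norm_add (hK : 2 ≤ K) {n g : ℤ} (h1 : tt K ≤ g) (h2 : g ≤ tt K + WW K) (h0 : n ≠ 0)
    (h3 : K = 3 → n ≠ -1) : 1 < ‖(n : ℂ) + E K g‖ := by
  have e : ‖(n : ℂ) + E K g‖ ^ 2 = n ^ 2 + 2 * n * cos (g * (π / K)) + 1 := by
    rw [Complex.sq_norm, Complex.normSq_apply]
    simp only [Complex.add_re, Complex.add_im, Complex.intCast_re, Complex.intCast_im, E_re, E_im]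
    linear_combination sin_sq_add_cos_sq (g * (π / K))
  have a := win_cos_le hK h1 h2
  have b := cos_theta_le hK
  have c : -(1 / 2) < cos (g * (π / K)) := by
    have := win_cos_ge hK h1 h2
    by_cases hK3 : K = 3
    · subst hK3
      obtain rfl : g = tt 3 := by rw [WW_three] at h2; omega
      have := cos_theta_nonneg hK
      linarith
    · have := cos_theta_lt hK hK3
      linarith
  have : 0 < (n : ℝ) ^ 2 + 2 * n * cos (g * (π / K)) := by
    rcases (by omega : 1 ≤ n ∨ n = -1 ∨ n ≤ -2) with h | rfl | h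
    · have : (1 : ℝ) ≤ n := by exact_mod_cast h
      nlinarith
    · have := cos_theta_lt hK (fun h => h3 h rfl)
      push_cast
      linarith
    · have : (n : ℝ) ≤ -2 := by exact_mod_cast h
      nlinarith
  have := norm_nonneg ((n : ℂ) + E K g)
  nlinarith

theorem one_lt_norm_add' (hK : 2 ≤ K) {n g g' : ℤ} (h1 : tt K ≤ g) (h2 : g ≤ tt K + WW K)
    (h1' : tt K ≤ g') (h2' : g' ≤ tt K + WW K) (h0 : 1 ≤ n) :
    1 < ‖(n : ℂ) + E K g' + (E K (tt K) - E K g)‖ := by
  obtain ⟨A, hA⟩ : ∃ A : ℝ, A = ((tt K + WW K : ℤ) : ℝ) * (π / K) / 2 := ⟨_, rfl⟩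
  have hp := pi_pos
  have t1 := theta_ge hK
  have t2 := theta_le hK
  have hA1 : A < π / 3 := by
    have : tt K + WW K + (tt K + WW K) + (tt K + WW K) < K + K := by unfold WW tt; split <;> omega
    have := ang_lt hK this
    have e := ang_K hK
    push_cast at this e hA
    nlinarith
  have hA2 : A ≤ tt K * (π / K) := by
    have := ang_le hK (show tt K + WW K ≤ tt K + tt K by have := WW_lt (K := K); omega)
    push_cast at this hA
    nlinarith
  have a1 := ang_le hK h1
  have a2 := ang_le hK h2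
  have a1' := ang_le hK h1'
  have a2' := ang_le hK h2'
  have c1 : 1 / 2 < cos A := by
    rw [← cos_pi_div_three]
    exact cos_lt_cos_of_nonneg_of_le_pi (by linarith) (by linarith) hA1
  have c2 : cos A ≤ cos (g' * (π / K) - A) :=
    cos_le_cos_of_nonneg_of_le_pi (by linarith) (by linarith) (by linarith)
  have c3 : cos (g * (π / K) - A) ≤ cos (tt K * (π / K) - A) :=
    cos_le_cos_of_nonneg_of_le_pi (by linarith) (by linarith) (by linarith)
  have hn : (1 : ℝ) ≤ n := by exact_mod_cast h0
  have hu : ‖Complex.exp (((-A : ℝ) : ℂ) * Complex.I)‖ = 1 := Complex.norm_exp_ofReal_mul_I _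
  rw [← one_mul ‖_‖, ← hu, ← norm_mul]
  rw [hu]
  refine lt_of_lt_of_le ?_ (Complex.re_le_norm _)
  simp only [Complex.mul_re, Complex.exp_ofReal_mul_I_re, Complex.exp_ofReal_mul_I_im,
    Complex.add_re, Complex.add_im, Complex.sub_re, Complex.sub_im, Complex.intCast_re,
    Complex.intCast_im, E_re, E_im, cos_neg, sin_neg]
  rw [cos_sub] at c2 c3
  rw [cos_sub] at c3
  nlinarith

/-- The second cell is one row above the first, in a harmless position. -/
def Up (x y k x' y' k' : ℤ) : Prop :=
  y' = y + 1 ∧ ((k = 0 ∧ 0 ≤ k') ∨ (k' = 0 ∧ k ≤ 0) ∨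
    (x < x' ∧ ((0 ≤ k ∧ 0 ≤ k') ∨ (k ≤ 0 ∧ k' ≤ 0))))

/-- Two cells in harmless relative position. -/
def Safe (x y k x' y' k' : ℤ) : Prop :=
  y + 2 ≤ y' ∨ y' + 2 ≤ y ∨ x + 4 ≤ x' ∨ x' + 4 ≤ x ∨ (y = y' ∧ x < x' ∧ k' ≤ k) ∨
    (y = y' ∧ x' < x ∧ k ≤ k') ∨ Up x y k x' y' k' ∨ Up x' y' k' x y k

theorem far_of_safe (hK : 2 ≤ K) {x y k x' y' k' : ℤ} (a : -WW K ≤ k) (b : k ≤ WW K)
    (a' : -WW K ≤ k') (b' : k' ≤ WW K) (h : Safe x y k x' y' k') (hn : ¬ Adjc K x y k x' y' k') :
    1 < ‖Phi K x y k - Phi K x' y' k'‖ := by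
  have hS := sin_theta_ge hK
  have h3 : K = 3 → WW K = 0 := by rintro rfl; rfl
  have key : ∀ {x y k x' y' k' : ℤ}, -WW K ≤ k → k ≤ WW K → -WW K ≤ k' → k' ≤ WW K →
      ¬ Adjc K x y k x' y' k' →
      (y + 2 ≤ y' ∨ x' + 4 ≤ x ∨ (y = y' ∧ x < x' ∧ k' ≤ k) ∨ Up x y k x' y' k') →
      1 < ‖Phi K x' y' k' - Phi K x y k‖ := by
    intro x y k x' y' k' a b a' b' hn h
    rcases h with h | h | ⟨rfl, h, h'⟩ | ⟨rfl, h⟩
    · refine lt_of_lt_of_le ?_ (Complex.im_le_norm _)
      have p := (pert_im hK a b).1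
      have p' := (pert_im hK a' b').1
      rw [abs_le] at p p'
      have : (y : ℝ) + 2 ≤ y' := by exact_mod_cast h
      simp only [Phi, Complex.sub_im, Complex.add_im, Complex.mul_im, Complex.intCast_re,
        Complex.intCast_im, E_im]
      nlinarith [p.1, p.2, p'.1, p'.2]
    · rw [← one_mul ‖_‖, ← norm_E (K := K) (-tt K), ← norm_mul, norm_E]
      refine lt_of_lt_of_le ?_ (Complex.im_le_norm _)
      have p := pert_perp (K := K) k
      have p' := pert_perp (K := K) k'
      rw [abs_le] at p p'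
      have : (x' : ℝ) + 4 ≤ x := by exact_mod_cast h
      have e : E K (-tt K) * (Phi K x' y' k' - Phi K x y k) = (x' - x) * E K (-tt K) + (y' - y) +
          (E K (-tt K) * pert K k' - E K (-tt K) * pert K k) := by
        unfold Phi
        linear_combination ((y' : ℂ) - y) * E_neg_mul (K := K) (tt K)
      rw [e]
      simp only [Complex.sub_im, Complex.add_im, Complex.mul_im (x' - x : ℂ), Complex.sub_re,
        Complex.intCast_re, Complex.intCast_im, E_im]
      push_cast
      simp only [neg_mul, sin_neg]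
      nlinarith [p.1, p.2, p'.1, p'.2]
    · refine lt_of_lt_of_le ?_ (Complex.re_le_norm _)
      simp only [Phi, Complex.sub_re, Complex.add_re, Complex.intCast_re]
      rcases eq_or_lt_of_le h' with rfl | h'
      · have : (x : ℝ) + 2 ≤ x' := by
          exact_mod_cast (by unfold Adjc at hn; omega : x + 2 ≤ x')
        linarith
      · have : (x : ℝ) + 1 ≤ x' := by exact_mod_cast h
        have := pert_re_lt hK a' h' b
        linarith
    · unfold Adjc at hn
      rcases h with ⟨rfl, h⟩ | ⟨rfl, h⟩ | ⟨h, ⟨u, v⟩ | ⟨u, v⟩⟩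
      · have := one_lt_norm_add hK (n := x' - x) (g := tt K + k') (by omega) (by omega) (by omega)
          (by omega)
        convert this using 2
        simp [Phi, pert_of_nonneg h]; ring
      · have := one_lt_norm_add hK (n := x' - x) (g := tt K - k) (by omega) (by omega) (by omega)
          (by omega)
        convert this using 2
        simp [Phi, pert_of_nonpos h]; ring
      · have := one_lt_norm_add' hK (n := x' - x) (g := tt K + k) (g' := tt K + k') (by omega)
          (by omega) (by omega) (by omega) (by omega)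
        convert this using 2
        simp [Phi, pert_of_nonneg u, pert_of_nonneg v]; ring
      · have := one_lt_norm_add' hK (n := x' - x) (g := tt K - k') (g' := tt K - k) (by omega)
          (by omega) (by omega) (by omega) (by omega)
        convert this using 2
        simp [Phi, pert_of_nonpos u, pert_of_nonpos v]; ring
  rcases h with h | h | h | h | h | h | h | h
  · rw [norm_sub_rev]; exact key a b a' b' hn (Or.inl h)
  · exact key a' b' a b (fun h => hn h.symm) (Or.inl h)
  · exact key a' b' a b (fun h => hn h.symm) (Or.inr (Or.inl h))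
  · rw [norm_sub_rev]; exact key a b a' b' hn (Or.inr (Or.inl h))
  · rw [norm_sub_rev]; exact key a b a' b' hn (Or.inr (Or.inr (Or.inl h)))
  · exact key a' b' a b (fun h => hn h.symm) (Or.inr (Or.inr (Or.inl ⟨h.1.symm, h.2⟩)))
  · rw [norm_sub_rev]; exact key a b a' b' hn (Or.inr (Or.inr (Or.inr h)))
  · exact key a' b' a b (fun h => hn h.symm) (Or.inr (Or.inr (Or.inr h)))

theorem Phi_im (hK : 2 ≤ K) {x y k : ℤ} (a : -WW K ≤ k) (b : k ≤ WW K)
    (h : (1 ≤ y ∧ 0 ≤ k) ∨ 2 ≤ y) : 0.86 ≤ (Phi K x y k).im := by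
  have hS := sin_theta_ge hK
  obtain ⟨p, p'⟩ := pert_im hK a b
  rw [abs_le] at p
  simp only [Phi, Complex.add_im, Complex.mul_im, Complex.intCast_re, Complex.intCast_im, E_im]
  rcases h with ⟨h, h'⟩ | h
  · have : (1 : ℝ) ≤ y := by exact_mod_cast h
    nlinarith [p' h']
  · have : (2 : ℝ) ≤ y := by exact_mod_cast h
    nlinarith [p.1]

end Pool.Agent.Lib.MP_0e6856_lc
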