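import Pool.Agent.Lib.MP_0e6856_lc.Engine
import Pool.Agent.Lib.MP_0e6856_lc.Place

/-!
The placement of the engine that belongs to an assignment splitting every clause.
-/

namespace Pool.Agent.Lib.MP_0e6856_lc

variable {K : ℕ} {G : Geom}

/-- Cells that are far apart. -/
def Apart (x y x' y' : ℤ) : Prop := y + 2 ≤ y' ∨ y' + 2 ≤ y ∨ x + 4 ≤ x' ∨ x' + 4 ≤ x

theorem Apart.symm {x y x' y' : ℤ} (h : Apart x y x' y') : Apart x' y' x y := by
  unfold Apart at *; omega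

theorem Apart.safe {x y x' y' : ℤ} (h : Apart x y x' y') (k k' : ℤ) : Safe x y k x' y' k' := by
  unfold Apart at h; unfold Safe; omega

theorem Apart.not_adjc {x y x' y' : ℤ} (h : Apart x y x' y') (k k' : ℤ) :
    ¬ Adjc K x y k x' y' k' := by
  unfold Apart at h; unfold Adjc; omega

theorem Safe.symm {x y k x' y' k' : ℤ} (h : Safe x y k x' y' k') : Safe x' y' k' x y k := by
  unfold Safe Up at *; omega

theorem body_safe {W : ℤ} {L : ℤ → ℤ} {R Y xt : ℤ} (hW : 0 ≤ W) (hL : ∀ y, L (y + 1) = L y + 2 * W)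
    (hR : L (Y + 1) + 4 ≤ R) (hx : R + 4 ≤ xt) {x y k x' y' k' : ℤ} (h : Body W L R Y xt x y k)
    (h' : Body W L R Y xt x' y' k') (hne : ¬ (x = x' ∧ y = y' ∧ k = k')) : Safe x y k x' y' k' := by
  have key : ∀ {x y k x' k' : ℤ}, Body W L R Y xt x y k → Body W L R Y xt x' (y + 1) k' →
      Safe x y k x' (y + 1) k' := by
    intro x y k x' k' h h'
    have l1 := hL y
    have l2 : y ≤ Y → L (y + 1) ≤ L (Y + 1) := fun h => stair_mono hW hL (by omega)
    have l3 : y = Y + 1 → L y = L (Y + 1) := by rintro rfl; rfl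
    have : x + 4 ≤ x' ∨ x' + 4 ≤ x ∨ (k = 0 ∧ 0 ≤ k') ∨ (k' = 0 ∧ k ≤ 0) ∨
        (x < x' ∧ ((0 ≤ k ∧ 0 ≤ k') ∨ (k ≤ 0 ∧ k' ≤ 0))) := by
      rcases h with h | h | h | h | h | h <;> rcases h' with h' | h' | h' | h' | h' | h' <;> omega
    clear h h'
    unfold Safe Up
    omega
  rcases (by omega : y + 2 ≤ y' ∨ y' + 2 ≤ y ∨ y' = y + 1 ∨ y = y' + 1 ∨ y = y') with
    e | e | rfl | rfl | rfl
  · exact Or.inl e
  · exact Or.inr (Or.inl e)
  · exact key h h'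
  · exact (key h' h).symm
  · have l2 : y ≤ Y + 1 → L y ≤ L (Y + 1) := fun h => stair_mono hW hL h
    have : x + 4 ≤ x' ∨ x' + 4 ≤ x ∨ (x < x' ∧ k' ≤ k) ∨ (x' < x ∧ k ≤ k') := by
      rcases h with h | h | h | h | h | h <;> rcases h' with h' | h' | h' | h' | h' | h' <;> omega
    clear h h'
    unfold Safe Up
    omega

theorem body_box {W : ℤ} {L : ℤ → ℤ} {R Y xt : ℤ} (hW : 0 ≤ W) (hL : ∀ y, L (y + 1) = L y + 2 * W)
    (hY : 2 ≤ Y) (hR : L (Y + 1) + 4 ≤ R) (hx : R + 4 ≤ xt) {x y k : ℤ}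
    (h : Body W L R Y xt x y k) :
    L 0 ≤ x ∧ x ≤ xt + 2 * W ∧ y ≤ Y + 2 ∧ -W ≤ k ∧ k ≤ W ∧ ((1 ≤ y ∧ 0 ≤ k) ∨ 2 ≤ y) ∧
      (x ≤ R ∨ Y ≤ y ∨ (x = xt ∧ k = 0)) := by
  have l0 := hL (y - 1)
  rw [sub_add_cancel] at l0
  have l1 : 1 ≤ y → L 0 ≤ L (y - 1) := fun h => stair_mono hW hL (by omega)
  have l2 : y ≤ Y + 1 → L y ≤ L (Y + 1) := fun h => stair_mono hW hL h
  have l3 : L 0 ≤ L (Y + 1) := stair_mono hW hL (by omega)
  rcases h with h | h | h | h | h | h <;> omega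

/-- The shear of a flag that points to the left. -/
def dd (K : ℕ) : ℤ := if K = 3 then 1 else 0

/-- The cell `(gx, gy)` at which a vertex is placed; `piv i` is the armature towards which the
flags of row `i` point. -/
def Geom.Shape (G : Geom) (K : ℕ) (piv : ℕ → ℤ) (j x y k gx gy : ℤ) : Prop :=
  (y = 0 ∧ k = 0 ∧ gx = x ∧ gy = y) ∨
  (0 ≤ j ∧ j ≤ G.n + 1 ∧ Body (WW K) (G.L j) (G.R j) (G.Y j) (G.xt j) x y k ∧ gx = x ∧ gy = y) ∨
  (1 ≤ j ∧ j ≤ G.n ∧ k = 0 ∧ G.xt j < x ∧ x ≤ G.xt j + FF K ∧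
    ∃ i < G.M, G.b i ≤ y ∧ y ≤ G.b i + HH K ∧ ((piv i < j ∧ gx = x ∧ gy = y) ∨
      (j < piv i ∧ gx = 2 * G.xt j - x ∧ gy = y + dd K * (x - G.xt j))))

theorem Geom.Good.box (h : G.Good K) (hK : 2 ≤ K) {j x y k : ℤ} (h0 : 0 ≤ j) (h1 : j ≤ G.n + 1)
    (b : Body (WW K) (G.L j) (G.R j) (G.Y j) (G.xt j) x y k) :
    G.L j 0 ≤ x ∧ x ≤ G.xt j + 2 * WW K ∧ y ≤ G.Y j + 2 ∧ -WW K ≤ k ∧ k ≤ WW K ∧
      ((1 ≤ y ∧ 0 ≤ k) ∨ 2 ≤ y) ∧ (x ≤ G.R j ∨ G.Y j ≤ y ∨ (x = G.xt j ∧ k = 0)) := by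
  obtain ⟨f1, f2, f3, f4, f5, f6⟩ := h.facts hK h0 h1
  have := h.rods
  exact body_box (WW_nonneg hK) (h.stair j) f1 (h.wide j h0 h1) (by omega) b

theorem dd_cases (K : ℕ) : (K = 3 ∧ dd K = 1) ∨ (K ≠ 3 ∧ dd K = 0) := by
  unfold dd; split <;> simp [*]

theorem Geom.Good.shape_bounds (h : G.Good K) (hK : 2 ≤ K) {piv : ℕ → ℤ} {j x y k gx gy : ℤ}
    (s : G.Shape K piv j x y k gx gy) : -WW K ≤ k ∧ k ≤ WW K ∧ (y = 0 → k = 0 ∧ gx = x ∧ gy = 0) ∧
      (y ≠ 0 → ((1 ≤ gy ∧ 0 ≤ k) ∨ 2 ≤ gy) ∧ ((gx = x ∧ gy = y) ∨ (2 ≤ y ∧ 2 ≤ gy))) := by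
  have hW := WW_nonneg hK
  rcases s with s | ⟨a, b, c, d⟩ | ⟨a, b, c, d, e, i, hi, u, v, w⟩
  · omega
  · have := h.box hK a b c
    omega
  · have := h.base i
    rcases dd_cases K with ⟨-, e⟩ | ⟨-, e⟩ <;> rw [e] at w <;> omega

theorem Geom.Good.apart (h : G.Good K) (hK : 2 ≤ K) {piv : ℕ → ℤ}
    (hp : ∀ i < G.M, 1 ≤ piv i ∧ piv i ≤ G.n) {j x y k gx gy j' x' y' k' gx' gy' : ℤ}
    (s : G.Shape K piv j x y k gx gy) (s' : G.Shape K piv j' x' y' k' gx' gy') (hy : y ≠ 0)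
    (hy' : y' ≠ 0) (hj : j < j') : Apart gx gy gx' gy' := by
  have hW := WW_nonneg hK
  have rods := h.rods
  have hF : FF K = 2 * WW K + 4 := rfl
  have hH : HH K = 8 * WW K + 18 := rfl
  have hn := h.n_pos
  have Fw : ∀ j, (1 ≤ j ∧ j ≤ G.n ∧ G.Fw K j = FF K) ∨ (¬ (1 ≤ j ∧ j ≤ G.n) ∧ G.Fw K j = 0) := by
    intro j; unfold Geom.Fw; split <;> simp [*]
  have Fj := Fw j
  have Fj' := Fw j'
  have hY := h.heights j j' hj
  unfold Apart
  rcases s with s | ⟨a, b, c, d⟩ | ⟨a, b, c, d, e, i, hi, u, v, w⟩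
  · omega
  · have := h.box hK a b c
    obtain ⟨f1, f2, f3, f4, f5, f6⟩ := h.facts hK a b
    rcases s' with s' | ⟨a', b', c', d'⟩ | ⟨a', b', c', d', e', i', hi', u', v', w'⟩
    · omega
    · have := h.box hK a' b' c'
      have := h.blocks j j' a hj
      have := h.xt_gap hK a hj b'
      omega
    · have := h.xt_gap hK a hj (by omega)
      have := (h.xt_gap hK (j := j') (j' := G.n + 1) (by omega) (by omega) le_rfl).1
      have := Fw (G.n + 1)
      have := h.top i' hi'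
      have := h.Y_le b
      have := hp i' hi'
      rcases dd_cases K with ⟨-, z⟩ | ⟨-, z⟩ <;> rw [z] at w' <;> omega
  · have := hp i hi
    have := h.top i hi
    rcases s' with s' | ⟨a', b', c', d'⟩ | ⟨a', b', c', d', e', i', hi', u', v', w'⟩
    · omega
    · have := h.box hK a' b' c'
      obtain ⟨f1, f2, f3, f4, f5, f6⟩ := h.facts hK a' b'
      have := h.xt_gap hK (by omega) hj b'
      have := (h.xt_gap hK (j := j) (j' := G.n + 1) (by omega) (by omega) le_rfl).1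
      have := Fw (G.n + 1)
      have := h.Y_le b'
      rcases dd_cases K with ⟨-, z⟩ | ⟨-, z⟩ <;> rw [z] at w <;> omega
    · have := h.xt_gap hK (by omega) hj (by omega)
      rcases lt_trichotomy i i' with l | rfl | l
      · have := h.rows i i' l
        rcases dd_cases K with ⟨-, z⟩ | ⟨-, z⟩ <;> rw [z] at w w' <;> omega
      · rcases dd_cases K with ⟨-, z⟩ | ⟨-, z⟩ <;> rw [z] at w w' <;> omega
      · have := h.rows i' i l
        rcases dd_cases K with ⟨-, z⟩ | ⟨-, z⟩ <;> rw [z] at w w' <;> omega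

theorem lattice_safe {x y x' y' : ℤ} (h : ¬ (x = x' ∧ y = y')) : Safe x y 0 x' y' 0 := by
  unfold Safe Up; omega

theorem shear (j x y x' y' : ℤ) : Adjc K x y 0 x' y' 0 ↔
    Adjc K (2 * j - x) (y + dd K * (x - j)) 0 (2 * j - x') (y' + dd K * (x' - j)) 0 := by
  unfold Adjc
  rcases dd_cases K with ⟨z', z⟩ | ⟨z', z⟩ <;> rw [z] <;> omega

theorem Geom.Good.same (h : G.Good K) (hK : 2 ≤ K) {piv : ℕ → ℤ}
    {j x y k gx gy x' y' k' gx' gy' : ℤ}
    (s : G.Shape K piv j x y k gx gy) (s' : G.Shape K piv j x' y' k' gx' gy') (hy : y ≠ 0)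
    (hy' : y' ≠ 0) (hne : ¬ (x = x' ∧ y = y' ∧ k = k')) :
    (Adjc K x y k x' y' k' ↔ Adjc K gx gy k gx' gy' k') ∧ Safe gx gy k gx' gy' k' := by
  have hW := WW_nonneg hK
  have rods := h.rods
  have hF : FF K = 2 * WW K + 4 := rfl
  have hH : HH K = 8 * WW K + 18 := rfl
  have ap : ∀ {x y k gx gy x' y' k' gx' gy' : ℤ}, Apart x y x' y' → Apart gx gy gx' gy' →
      (Adjc K x y k x' y' k' ↔ Adjc K gx gy k gx' gy' k') ∧ Safe gx gy k gx' gy' k' :=
    fun a b => ⟨iff_of_false (a.not_adjc _ _) (b.not_adjc _ _), b.safe _ _⟩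
  have bf : ∀ {x y k gx gy x' y' gx' gy' : ℤ} {i : ℕ}, 1 ≤ j → j ≤ G.n →
      Body (WW K) (G.L j) (G.R j) (G.Y j) (G.xt j) x y k → gx = x ∧ gy = y → G.xt j < x' →
      x' ≤ G.xt j + FF K → i < G.M → G.b i ≤ y' → y' ≤ G.b i + HH K →
      ((piv i < j ∧ gx' = x' ∧ gy' = y') ∨
        (j < piv i ∧ gx' = 2 * G.xt j - x' ∧ gy' = y' + dd K * (x' - G.xt j))) →
      (Adjc K x y k x' y' 0 ↔ Adjc K gx gy k gx' gy' 0) ∧ Safe gx gy k gx' gy' 0 := by
    rintro x y k gx gy x' y' gx' gy' i a b c ⟨rfl, rfl⟩ d' e' hi u v w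
    obtain ⟨-, -, -, -, -, -, t⟩ := h.box hK (by omega) (by omega) c
    obtain ⟨f1, f2, f3, f4, f5, f6⟩ := h.facts hK (j := j) (by omega) (by omega)
    have := (h.xt_gap hK (j := j) (j' := G.n + 1) (by omega) (by omega) le_rfl).1
    have : G.Fw K j = FF K := if_pos ⟨a, b⟩
    have : G.Fw K (G.n + 1) = 0 := if_neg (by omega)
    have := h.top i hi
    have := h.Y_le (j := j) (by omega)
    rcases t with t | t | ⟨rfl, rfl⟩
    · apply ap <;> unfold Apart <;> omega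
    · apply ap <;> unfold Apart
      · omega
      · rcases dd_cases K with ⟨-, z⟩ | ⟨-, z⟩ <;> rw [z] at w <;> omega
    · refine ⟨?_, lattice_safe (by omega)⟩
      rcases w with ⟨-, rfl, rfl⟩ | ⟨-, rfl, rfl⟩
      · rfl
      · rw [shear (G.xt j)]
        simp [two_mul]
  rcases s with s | ⟨a, b, c, d⟩ | ⟨a, b, rfl, d, e, i, hi, u, v, w⟩
  · omega
  · rcases s' with s' | ⟨a', b', c', d'⟩ | ⟨a', b', rfl, d', e', i', hi', u', v', w'⟩
    · omega
    · obtain ⟨rfl, rfl⟩ := d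
      obtain ⟨rfl, rfl⟩ := d'
      obtain ⟨f1, f2, f3, f4, f5, f6⟩ := h.facts hK a b
      exact ⟨Iff.rfl, body_safe hW (h.stair j) (h.wide j a b) (by omega) c c' hne⟩
    · exact bf a' b' c d d' e' hi' u' v' w'
  · rcases s' with s' | ⟨a', b', c', d'⟩ | ⟨a', b', rfl, d', e', i', hi', u', v', w'⟩
    · omega
    · obtain ⟨r1, r2⟩ := bf a b c' d' d e hi u v w
      exact ⟨⟨fun t => (r1.1 t.symm).symm, fun t => (r1.2 t.symm).symm⟩, r2.symm⟩
    · rcases lt_trichotomy i i' with l | rfl | l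
      · have := h.rows i i' l
        apply ap <;> unfold Apart
        · omega
        · rcases dd_cases K with ⟨-, z⟩ | ⟨-, z⟩ <;> rw [z] at w w' <;> omega
      · rcases w with ⟨p, rfl, rfl⟩ | ⟨p, rfl, rfl⟩ <;> rcases w' with ⟨p', rfl, rfl⟩ | ⟨p', rfl, rfl⟩
        · exact ⟨Iff.rfl, lattice_safe (by omega)⟩
        · omega
        · omega
        · refine ⟨shear _ _ _ _ _, lattice_safe ?_⟩
          rcases dd_cases K with ⟨-, z⟩ | ⟨-, z⟩ <;> rw [z] <;> omega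
      · have := h.rows i' i l
        apply ap <;> unfold Apart
        · omega
        · rcases dd_cases K with ⟨-, z⟩ | ⟨-, z⟩ <;> rw [z] at w w' <;> omega

/-- An assignment that splits every clause gives a placement of the engine. -/
theorem engine_complete (hK : 2 ≤ K) (h : G.Good K) (ν : ℤ → Bool)
    (hν : ∀ i < G.M, ∀ σ, ∃ j, 1 ≤ j ∧ j ≤ G.n ∧ G.occ j i ∧ ν j = σ) :
    ∃ p : Vx → ℂ, ∀ u v, G.IsV K u → G.IsV K v → u ≠ v →
      (VAdj K u v → Root K (p u - p v)) ∧ (¬ VAdj K u v → 1 < ‖p u - p v‖) := by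
  classical
  have hν' : ∀ σ i, ∃ j, i < G.M → 1 ≤ j ∧ j ≤ G.n ∧ G.occ j i ∧ ν j = σ := by
    intro σ i
    by_cases hi : i < G.M
    · obtain ⟨j, hj⟩ := hν i hi σ
      exact ⟨j, fun _ => hj⟩
    · exact ⟨0, fun h => absurd h hi⟩
  choose piv hpiv using hν'
  let side : Vx → Bool := fun v => v.2.1 == ν v.1
  have sh : ∀ v : Vx, ∃ g : ℤ × ℤ, G.IsV K v →
      G.Shape K (piv (side v)) v.1 v.2.2.1 v.2.2.2.1 v.2.2.2.2 g.1 g.2 := by
    rintro ⟨j, s, x, y, k⟩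
    by_cases hv : G.IsV K (j, s, x, y, k)
    · rcases hv with hv | hv | ⟨a, b, c, d, e, i, hi, u, v, w⟩
      · exact ⟨(x, y), fun _ => Or.inl ⟨hv.2.2.1, hv.2.2.2.1, rfl, rfl⟩⟩
      · exact ⟨(x, y), fun _ => Or.inr (Or.inl ⟨hv.1, hv.2.1, hv.2.2, rfl, rfl⟩)⟩
      · dsimp only at *
        rcases lt_trichotomy (piv (side (j, s, x, y, k)) i) j with l | l | l
        · exact ⟨(x, y), fun _ => Or.inr (Or.inr ⟨a, b, c, d, e, i, hi, u, v, Or.inl ⟨l, rfl, rfl⟩⟩)⟩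
        · exfalso
          obtain ⟨-, -, t1, t2⟩ := hpiv (side (j, s, x, y, k)) i hi
          rw [l] at t1 t2
          refine w ⟨?_, t1⟩
          simp only [side] at t2
          revert t2
          cases s <;> cases ν j <;> simp
        · exact ⟨(2 * G.xt j - x, y + dd K * (x - G.xt j)),
            fun _ => Or.inr (Or.inr ⟨a, b, c, d, e, i, hi, u, v, Or.inr ⟨l, rfl, rfl⟩⟩)⟩
    · exact ⟨(0, 0), fun h => absurd h hv⟩
  choose g hg using sh
  let Φ : Vx → ℂ := fun v => Phi K (g v).1 (g v).2 v.2.2.2.2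
  let flip : Bool → ℂ → ℂ := fun σ z => if σ then z else (starRingEnd ℂ) z
  have fl : ∀ σ z u, flip σ z - flip σ u = flip σ (z - u) := by
    intro σ z u; cases σ <;> simp [flip]
  have fr : ∀ σ z, Root K z → Root K (flip σ z) := by
    intro σ z hz; cases σ
    · exact hz.conj
    · exact hz
  have fn : ∀ σ z, ‖flip σ z‖ = ‖z‖ := by
    intro σ z; cases σ <;> simp [flip]
  refine ⟨fun v => flip (side v) (Φ v), fun u v hu hv huv => ?_⟩
  have su := hg u hu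
  have sv := hg v hv
  obtain ⟨a1, a2, a3, a4⟩ := h.shape_bounds hK su
  obtain ⟨b1, b2, b3, b4⟩ := h.shape_bounds hK sv
  have real : ∀ w, G.IsV K w → w.2.2.2.1 = 0 → ∀ σ σ', flip σ (Φ w) = flip σ' (Φ w) := by
    intro w hw h0 σ σ'
    obtain ⟨e1, e2, e3⟩ := (h.shape_bounds hK (hg w hw)).2.2.1 h0
    have : (starRingEnd ℂ) (Φ w) = Φ w := by simp [Φ, Phi, e1, e3]
    cases σ <;> cases σ' <;> simp [flip, this]
  have fin : ∀ σ, flip (side u) (Φ u) = flip σ (Φ u) → flip (side v) (Φ v) = flip σ (Φ v) →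
      (VAdj K u v ↔ Adjc K (g u).1 (g u).2 u.2.2.2.2 (g v).1 (g v).2 v.2.2.2.2) →
      Safe (g u).1 (g u).2 u.2.2.2.2 (g v).1 (g v).2 v.2.2.2.2 →
      (VAdj K u v → Root K (flip (side u) (Φ u) - flip (side v) (Φ v))) ∧
        (¬ VAdj K u v → 1 < ‖flip (side u) (Φ u) - flip (side v) (Φ v)‖) := by
    intro σ e1 e2 i s
    rw [e1, e2, fl, fn, i]
    exact ⟨fun t => fr _ _ (root_of_adjc hK t), fun t => far_of_safe hK a1 a2 b1 b2 s t⟩
  have name : ∀ w, G.IsV K w → w.2.2.2.1 = 0 → w.1 = 0 ∧ w.2.1 = false := by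
    rintro w (hw | ⟨a, b, c⟩ | ⟨a, b, c, d, e, i, hi, t, -⟩) h0
    · exact ⟨hw.1, hw.2.1⟩
    · have := h.box hK a b c; omega
    · have := h.base i; omega
  by_cases hu0 : u.2.2.2.1 = 0
  · obtain ⟨e1, e2, e3⟩ := a3 hu0
    by_cases hv0 : v.2.2.2.1 = 0
    · obtain ⟨e4, e5, e6⟩ := b3 hv0
      refine fin _ (real u hu hu0 _ _) rfl ?_ ?_
      · simp only [VAdj, hu0, hv0, e1, e2, e3, e4, e5, e6, true_or, true_and]
      · rw [e1, e4]
        refine lattice_safe (fun t => huv ?_)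
        obtain ⟨n1, n2⟩ := name u hu hu0
        obtain ⟨n3, n4⟩ := name v hv hv0
        exact Prod.ext (by omega) (Prod.ext (n2.trans n4.symm)
          (Prod.ext (by omega) (Prod.ext (by omega) (by omega))))
    · obtain ⟨c1, c2⟩ := b4 hv0
      refine fin _ (real u hu hu0 _ _) rfl ?_ ?_
      · simp only [VAdj, hu0, e1, e2, e3, true_or, true_and]
        rcases c2 with ⟨t1, t2⟩ | t
        · rw [t1, t2]
        · unfold Adjc; omega
      · unfold Safe Up; omega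
  · obtain ⟨c1, c2⟩ := a4 hu0
    by_cases hv0 : v.2.2.2.1 = 0
    · obtain ⟨e1, e2, e3⟩ := b3 hv0
      refine fin _ rfl (real v hv hv0 _ _) ?_ ?_
      · simp only [VAdj, hv0, e1, e2, e3, true_or, or_true, true_and]
        rcases c2 with ⟨t1, t2⟩ | t
        · rw [t1, t2]
        · unfold Adjc; omega
      · unfold Safe Up; omega
    · obtain ⟨d1, d2⟩ := b4 hv0
      by_cases hs : side u = side v
      · have hp : ∀ i < G.M, 1 ≤ piv (side v) i ∧ piv (side v) i ≤ G.n := fun i hi =>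
          ⟨(hpiv _ i hi).1, (hpiv _ i hi).2.1⟩
        rw [hs] at su
        rcases lt_trichotomy u.1 v.1 with l | l | l
        · have t := h.apart hK hp su sv hu0 hv0 l
          refine fin _ (by rw [hs]) rfl (iff_of_false ?_ (t.not_adjc _ _)) (t.safe _ _)
          unfold VAdj; omega
        · have e : u.2.1 = v.2.1 := by
            simp only [side, l] at hs
            revert hs
            cases u.2.1 <;> cases v.2.1 <;> cases ν v.1 <;> simp
          rw [l] at su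
          obtain ⟨r1, r2⟩ := h.same hK su sv hu0 hv0 (fun t => huv (Prod.ext l (Prod.ext e
            (Prod.ext t.1 (Prod.ext t.2.1 t.2.2)))))
          refine fin _ (by rw [hs]) rfl ?_ r2
          rw [← r1]
          simp [VAdj, l, e]
        · have t := (h.apart hK hp sv su hv0 hu0 l).symm
          refine fin _ (by rw [hs]) rfl (iff_of_false ?_ (t.not_adjc _ _)) (t.safe _ _)
          unfold VAdj; omega
      · have na : ¬ VAdj K u v := by
          rintro ⟨t | t | ⟨t1, t2⟩, -⟩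
          · exact hu0 t
          · exact hv0 t
          · exact hs (by simp only [side, t1, t2])
        refine ⟨fun t => absurd t na, fun _ => lt_of_lt_of_le ?_ (Complex.abs_im_le_norm _)⟩
        have i1 : 0.86 ≤ (Φ u).im := Phi_im hK a1 a2 c1
        have i2 : 0.86 ≤ (Φ v).im := Phi_im hK b1 b2 d1
        have key : ∀ a b : Bool, a ≠ b → 1 < |(flip a (Φ u) - flip b (Φ v)).im| := by
          intro a b hab
          rw [lt_abs]
          cases a <;> cases b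
          · exact absurd rfl hab
          · right; simp [flip]; linarith
          · left; simp [flip]; linarith
          · exact absurd rfl hab
        exact key _ _ hs

end Pool.Agent.Lib.MP_0e6856_lc
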