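import Pool.Agent.Lib.MP_0e6856_lc.Flags

/-!
The logic engine: its vertices and edges, and the assignment read off from a placement.
-/

namespace Pool.Agent.Lib.MP_0e6856_lc

variable {K : ℕ}

/-- The dimensions of an engine with armatures `0, …, n + 1` and `M` rows of flags. -/
structure Geom where
  n : ℤ
  M : ℕ
  Y : ℤ → ℤ
  R : ℤ → ℤ
  xt : ℤ → ℤ
  L : ℤ → ℤ → ℤ
  b : ℕ → ℤ
  occ : ℤ → ℕ → Prop

/-- The width of a flag. -/
def FF (K : ℕ) : ℤ := 2 * WW K + 4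

/-- The height of a flag. -/
def HH (K : ℕ) : ℤ := 8 * WW K + 18

/-- The width of the flags of armature `j`. -/
def Geom.Fw (G : Geom) (K : ℕ) (j : ℤ) : ℤ := if 1 ≤ j ∧ j ≤ G.n then FF K else 0

structure Geom.Good (G : Geom) (K : ℕ) : Prop where
  n_pos : 1 ≤ G.n
  stair : ∀ j y, G.L j (y + 1) = G.L j y + 2 * WW K
  wide : ∀ j, 0 ≤ j → j ≤ G.n + 1 → G.L j (G.Y j + 1) + 4 ≤ G.R j
  left : 0 ≤ G.L 0 0
  blocks : ∀ j j', 0 ≤ j → j < j' → G.R j + 4 ≤ G.L j' 0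
  heights : ∀ j j', j < j' → G.Y j' + 4 ≤ G.Y j
  rods : G.R (G.n + 1) + 4 ≤ G.xt (G.n + 1)
  step : ∀ j, 0 ≤ j → j ≤ G.n → G.xt (j + 1) + G.Fw K j + G.Fw K (j + 1) = G.xt j
  base : ∀ i, 2 ≤ G.b i
  rows : ∀ i i', i < i' → G.b i + HH K + FF K + 3 ≤ G.b i'
  top : ∀ i, i < G.M → G.b i + HH K + FF K + 3 ≤ G.Y (G.n + 1)
  low : 2 ≤ G.Y (G.n + 1)

/-- Vertex names: armature, side, cell. -/
abbrev Vx : Type := ℤ × Bool × ℤ × ℤ × ℤ

def Geom.IsV (G : Geom) (K : ℕ) (v : Vx) : Prop :=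
  (v.1 = 0 ∧ v.2.1 = false ∧ v.2.2.2.1 = 0 ∧ v.2.2.2.2 = 0 ∧ 0 ≤ v.2.2.1 ∧ v.2.2.1 ≤ G.xt 0) ∨
  (0 ≤ v.1 ∧ v.1 ≤ G.n + 1 ∧
    Body (WW K) (G.L v.1) (G.R v.1) (G.Y v.1) (G.xt v.1) v.2.2.1 v.2.2.2.1 v.2.2.2.2) ∨
  (1 ≤ v.1 ∧ v.1 ≤ G.n ∧ v.2.2.2.2 = 0 ∧ G.xt v.1 < v.2.2.1 ∧ v.2.2.1 ≤ G.xt v.1 + FF K ∧
    ∃ i < G.M, G.b i ≤ v.2.2.2.1 ∧ v.2.2.2.1 ≤ G.b i + HH K ∧ ¬ (v.2.1 = true ∧ G.occ v.1 i))

def VAdj (K : ℕ) (u v : Vx) : Prop :=
  (u.2.2.2.1 = 0 ∨ v.2.2.2.1 = 0 ∨ (u.1 = v.1 ∧ u.2.1 = v.2.1)) ∧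
    Adjc K u.2.2.1 u.2.2.2.1 u.2.2.2.2 v.2.2.1 v.2.2.2.1 v.2.2.2.2

/-- The name of a cell in the frame of armature `j`, side `s`. -/
def nm (j : ℤ) (s : Bool) (x y k : ℤ) : Vx := if y = 0 then (0, false, x, y, k) else (j, s, x, y, k)

variable {G : Geom}

theorem Geom.Good.xt_gap (h : G.Good K) (hK : 2 ≤ K) {j j' : ℤ} (h0 : 0 ≤ j) (h1 : j < j')
    (h2 : j' ≤ G.n + 1) : G.xt j' + G.Fw K j + G.Fw K j' ≤ G.xt j ∧
      (j + 2 ≤ j' → G.xt j' + G.Fw K j + G.Fw K j' + 2 * FF K ≤ G.xt j) := by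
  have hW := WW_nonneg hK
  induction j', h1 using Int.leInduction with
  | base => exact ⟨(h.step j h0 (by omega)).le, by omega⟩
  | succ i hi ih =>
    have := ih (by omega)
    have := h.step i (by omega) (by omega)
    have : G.Fw K i = FF K := if_pos (by omega)
    unfold FF at *
    omega

theorem Geom.Good.Y_le (h : G.Good K) {j : ℤ} (h2 : j ≤ G.n + 1) : G.Y (G.n + 1) ≤ G.Y j := by
  rcases eq_or_lt_of_le h2 with rfl | h2
  · exact le_rfl
  · have := h.heights _ _ h2; omega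

theorem Geom.Good.facts (h : G.Good K) (hK : 2 ≤ K) {j : ℤ} (h0 : 0 ≤ j) (h2 : j ≤ G.n + 1) :
    2 ≤ G.Y j ∧ G.L 0 0 ≤ G.L j 0 ∧ G.L j 0 ≤ G.L j (G.Y j + 1) ∧ G.R j ≤ G.R (G.n + 1) ∧
      G.xt (G.n + 1) ≤ G.xt j ∧ G.xt j ≤ G.xt 0 := by
  have hW := WW_nonneg hK
  have hF : ∀ j, 0 ≤ G.Fw K j := fun j => by unfold Geom.Fw FF; split <;> omega
  have low := h.low
  have hY : ∀ j, j ≤ G.n + 1 → 2 ≤ G.Y j := fun j hj => by have := h.Y_le hj; omega
  have hL : ∀ j, j ≤ G.n + 1 → G.L j 0 ≤ G.L j (G.Y j + 1) := fun j hj =>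
    stair_mono hW (h.stair j) (by have := hY j hj; omega)
  have := h.n_pos
  refine ⟨hY j h2, ?_, hL j h2, ?_, ?_, ?_⟩
  · rcases eq_or_lt_of_le h0 with rfl | h0
    · exact le_rfl
    · have := h.blocks 0 j le_rfl h0
      have := h.wide 0 le_rfl (by omega)
      have := hL 0 (by omega)
      omega
  · rcases eq_or_lt_of_le h2 with rfl | h2
    · exact le_rfl
    · have := h.blocks j _ h0 h2
      have := h.wide (G.n + 1) (by omega) le_rfl
      have := hL (G.n + 1) le_rfl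
      omega
  · rcases eq_or_lt_of_le h2 with rfl | h2
    · exact le_rfl
    · have := (h.xt_gap hK h0 h2 le_rfl).1
      have := hF j
      have := hF (G.n + 1)
      omega
  · rcases eq_or_lt_of_le h0 with rfl | h0
    · exact le_rfl
    · have := (h.xt_gap hK le_rfl h0 h2).1
      have := hF j
      have := hF 0
      omega

theorem sign_change {φ : ℤ → ℤ} {η n : ℤ} (hn : 0 ≤ n) (h0 : φ 0 ≠ η) (h1 : φ n = η) :
    ∃ j, 0 ≤ j ∧ j < n ∧ φ j ≠ η ∧ φ (j + 1) = η := by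
  induction n, hn using Int.leInduction with
  | base => exact absurd h1 h0
  | succ n hn ih =>
    by_cases h : φ n = η
    · obtain ⟨j, a, b, c⟩ := ih h
      exact ⟨j, a, by omega, c⟩
    · exact ⟨n, hn, by omega, h, h1⟩

/-- A placement of the engine gives an assignment that splits every clause. -/
theorem engine_sound (hK : 2 ≤ K) (h : G.Good K) (p : Vx → ℂ)
    (hp : ∀ u v, G.IsV K u → G.IsV K v → u ≠ v →
      (VAdj K u v → Root K (p u - p v)) ∧ (¬ VAdj K u v → Far K (p u - p v))) :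
    ∃ ν : ℤ → Bool, ∀ i < G.M, ∀ σ, ∃ j, 1 ≤ j ∧ j ≤ G.n ∧ G.occ j i ∧ ν j = σ := by
  have hW := WW_nonneg hK
  have hn := h.n_pos
  let T : ℤ → Bool → ℤ → ℤ → ℤ → Prop := fun j s x y k => G.IsV K (nm j s x y k)
  let q : ℤ → Bool → ℤ → ℤ → ℤ → ℂ := fun j s x y k => p (nm j s x y k)
  have ne : ∀ j s x y k j' s' x' y' k', ¬ (x = x' ∧ y = y' ∧ k = k') →
      nm j s x y k ≠ nm j' s' x' y' k' := by
    intro j s x y k j' s' x' y' k' h1 h2
    unfold nm at h2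
    split at h2 <;> split at h2 <;> simp only [Prod.mk.injEq] at h2 <;> omega
  have adj : ∀ j s x y k x' y' k', VAdj K (nm j s x y k) (nm j s x' y' k') ↔ Adjc K x y k x' y' k' := by
    intro j s x y k x' y' k'
    unfold nm VAdj
    split <;> split <;> simp [*]
  have fr : ∀ j s, Frame K (T j s) (q j s) := fun j s =>
    ⟨fun x y k x' y' k' a b c => (hp _ _ a b (ne _ _ _ _ _ _ _ _ _ _ (by unfold Adjc at c; omega))).1
        ((adj _ _ _ _ _ _ _ _).2 c),
      fun x y k x' y' k' a b c d => (hp _ _ a b (ne _ _ _ _ _ _ _ _ _ _ c)).2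
        (fun e => d ((adj _ _ _ _ _ _ _ _).1 e))⟩
  have other : ∀ j s x y k j' s' x' y' k', T j s x y k → T j' s' x' y' k' → y ≠ 0 → y' ≠ 0 →
      ¬ (j = j' ∧ s = s') → Far K (q j s x y k - q j' s' x' y' k') := by
    intro j s x y k j' s' x' y' k' a b c d e
    refine (hp _ _ a b ?_).2 ?_
    · simp only [nm, if_neg c, if_neg d, Ne, Prod.mk.injEq]; tauto
    · simp only [nm, if_neg c, if_neg d, VAdj]; tauto
  have hB : ∀ j, 0 ≤ j → j ≤ G.n + 1 → ∀ s x y k,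
      Body (WW K) (G.L j) (G.R j) (G.Y j) (G.xt j) x y k → T j s x y k := by
    intro j a b s x y k c
    have : y ≠ 0 := by have := (h.facts hK a b).1; unfold Body at c; omega
    simp only [T, nm, if_neg this]
    exact Or.inr (Or.inl ⟨a, b, c⟩)
  have hS : ∀ j s x, 0 ≤ x → x ≤ G.xt 0 → T j s x 0 0 := fun j s x a b =>
    Or.inl ⟨rfl, rfl, rfl, rfl, a, b⟩
  have ax : ∀ j s x, q j s x 0 0 = q 0 true x 0 0 := fun j s x => rfl
  have left := h.left
  have rods := h.rods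
  have arms : ∀ j, ∃ ε, Sg ε ∧ (0 ≤ j → j ≤ G.n + 1 → ∀ s, q j s (G.xt j) (G.Y j) 0 =
      q 0 true (G.L j 1) 0 0 + (q 0 true (G.L j 1 + 1) 0 0 - q 0 true (G.L j 1) 0 0) *
        (G.xt j - G.L j 1 + G.Y j * E K (sg s * ε * tt K))) := by
    intro j
    by_cases hj : 0 ≤ j ∧ j ≤ G.n + 1
    · obtain ⟨f1, f2, f3, f4, f5, f6⟩ := h.facts hK hj.1 hj.2
      have w := h.wide j hj.1 hj.2
      obtain ⟨ε, s, e⟩ := armature hK (fr j)
        (fun x k x' k' a b => other _ _ _ _ _ _ _ _ _ _ a b (by omega) (by omega) (by simp))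
        (fun x => rfl) (h.stair j) (by omega) (by omega) (by omega) (hB j hj.1 hj.2)
        (fun s x a b => hS j s x (by omega) (by omega))
      exact ⟨ε, s, fun _ _ => e⟩
    · exact ⟨1, Or.inl rfl, fun a b => absurd ⟨a, b⟩ hj⟩
  choose ε hε harm using arms
  have rodT : ∀ j, 0 ≤ j → j ≤ G.n + 1 → ∀ s y, 0 ≤ y → y ≤ G.Y j → T j s (G.xt j) y 0 := by
    intro j a b s y u v
    obtain ⟨f1, f2, f3, f4, f5, f6⟩ := h.facts hK a b
    have w := h.wide j a b
    rcases eq_or_lt_of_le u with rfl | u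
    · exact hS j s _ (by omega) f6
    · have := h.stair j (G.Y j)
      refine hB j a b s _ _ _ ?_
      rcases eq_or_lt_of_le v with rfl | v
      · exact Or.inl (by omega)
      · unfold Body; omega
  have rodR : ∀ j, 0 ≤ j → j ≤ G.n + 1 → ∀ s y, 0 ≤ y → y < G.Y j →
      Root K (q j s (G.xt j) (y + 1) 0 - q j s (G.xt j) y 0) := fun j a b s y u v =>
    (fr j s).root _ _ _ _ _ _ (rodT j a b s _ (by omega) (by omega)) (rodT j a b s _ u v.le)
      (by unfold Adjc; omega)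
  have L1 : ∀ j, 0 ≤ j → j ≤ G.n + 1 → G.L 0 1 ≤ G.L j 1 ∧ G.L j 1 + 1 ≤ G.xt j ∧ 0 ≤ G.L 0 1 := by
    intro j a b
    obtain ⟨f1, f2, f3, f4, f5, f6⟩ := h.facts hK a b
    have w := h.wide j a b
    have s0 := h.stair 0 0
    have sj := h.stair j 0
    have := stair_mono hW (h.stair j) (show 1 ≤ G.Y j + 1 by omega)
    simp only [zero_add] at s0 sj
    omega
  have shR : ∀ x, G.L 0 1 ≤ x → x < G.xt 0 → Root K (q 0 true (x + 1) 0 0 - q 0 true x 0 0) := by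
    intro x a b
    have := L1 0 le_rfl (by omega)
    exact (fr 0 true).root _ _ _ _ _ _ (hS _ _ _ (by omega) (by omega)) (hS _ _ _ (by omega) (by omega))
      (by unfold Adjc; omega)
  obtain ⟨c, hc⟩ : ∃ c, c = q 0 true (G.L 0 1 + 1) 0 0 - q 0 true (G.L 0 1) 0 0 := ⟨_, rfl⟩
  have hcr : Root K c := hc ▸ shR _ le_rfl (by have := L1 0 le_rfl (by omega); omega)
  have shaft : ∀ x, G.L 0 1 ≤ x → x ≤ G.xt 0 →
      q 0 true x 0 0 = q 0 true (G.L 0 1) 0 0 + c * (x - G.L 0 1) := fun x a b =>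
    tension hK (p := fun x => q 0 true x 0 0) (ρ := fun s y => q 0 s (G.xt 0) y 0) hcr (hε 0)
      (a.trans b) (Y := G.Y 0) (by have := (h.facts hK le_rfl (by omega)).1; omega) shR
      (rodR 0 le_rfl (by omega)) (fun s => rfl)
      (fun s => by rw [hc]; exact harm 0 le_rfl (by omega) s) a b
  obtain ⟨O, hO⟩ : ∃ O, O = q 0 true (G.L 0 1) 0 0 - c * G.L 0 1 := ⟨_, rfl⟩
  have rod : ∀ j, 0 ≤ j → j ≤ G.n + 1 → ∀ s y, 0 ≤ y → y ≤ G.Y j →
      q j s (G.xt j) y 0 = O + c * G.xt j + c * E K (sg s * ε j * tt K) * y := by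
    intro j a b s y u v
    obtain ⟨f1, f2, f3, f4, f5, f6⟩ := h.facts hK a b
    obtain ⟨l1, l2, l3⟩ := L1 j a b
    have e0 := shaft (G.xt j) (by omega) f6
    have e1 := harm j a b s
    rw [shaft (G.L j 1) l1 (by omega), shaft (G.L j 1 + 1) (by omega) (by omega)] at e1
    have hr := hcr.mul (root_E (K := K) (sg s * ε j * tt K))
    have := straight (p := fun y => q j s (G.xt j) y 0) hr (a := 0) (b := G.Y j) (by omega)
      (rodR j a b s) (by
        have : q j s (G.xt j) (G.Y j) 0 - q j s (G.xt j) 0 0 =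
            c * E K (sg s * ε j * tt K) * ((G.Y j - 0 : ℤ) : ℝ) := by
          rw [ax, e0, e1]; push_cast; ring
        rw [this, ← mul_assoc, hr.conj_mul, one_mul, Complex.ofReal_re]) u v
    rw [this, ax, e0, hO]
    push_cast
    ring
  refine ⟨fun j => decide (ε j = 1), fun i hi σ => ?_⟩
  by_contra hcon
  push Not at hcon
  obtain ⟨η, hη⟩ : ∃ η, η = sg σ := ⟨_, rfl⟩
  have sη : Sg η := by subst hη; cases σ <;> simp [Sg, sg]
  let sd : ℤ → Bool := fun j => decide (ε j = η)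
  have hsd : ∀ j, sg (sd j) * ε j = η := by
    intro j
    have := hε j
    unfold Sg at this sη
    by_cases e : ε j = η <;> simp [sd, sg, e] <;> omega
  have hb := h.base i
  have ht := h.top i hi
  have hr := hcr.mul (root_E (K := K) (η * tt K))
  have flags : ∀ j, ∃ φ P, Sg φ ∧ Fan K φ (G.Fw K j).toNat P ∧ (j = 0 → φ = -η) ∧
      (j = G.n + 1 → φ = η) ∧ (0 ≤ j → j ≤ G.n + 1 → ∀ (f : ℕ) y, f ≤ (G.Fw K j).toNat →
        G.b i ≤ y → y ≤ G.b i + HH K → T j (sd j) (G.xt j + f) y 0 ∧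
        q j (sd j) (G.xt j + f) y 0 = O + c * G.xt j + c * E K (η * tt K) * (y + P f)) := by
    intro j
    by_cases hj : 1 ≤ j ∧ j ≤ G.n
    · have hF : G.Fw K j = FF K := if_pos hj
      have hY := h.Y_le (j := j) (by omega)
      have hT : ∀ x y, G.xt j ≤ x → x ≤ G.xt j + (G.Fw K j).toNat → G.b i ≤ y →
          y ≤ G.b i + HH K → T j (sd j) x y 0 := by
        intro x y a b u v
        unfold HH FF at *
        rcases eq_or_lt_of_le a with rfl | a
        · exact rodT j (by omega) (by omega) _ _ (by omega) (by omega)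
        · simp only [T, nm, if_neg (show y ≠ 0 by omega)]
          refine Or.inr (Or.inr ⟨hj.1, hj.2, rfl, a, by unfold FF; dsimp only; omega, i, hi, u, v, ?_⟩)
          rintro ⟨s1, s2⟩
          refine hcon j hj.1 hj.2 s2 ?_
          have e : ε j = η := by simpa [sd] using s1
          rw [e, hη]
          cases σ <;> simp [sg]
      obtain ⟨φ, P, s, fan, e⟩ := (fr j (sd j)).flag hK (xt := G.xt j) (h0 := G.b i)
        (h1 := G.b i + HH K) (F := (G.Fw K j).toNat) (by unfold FF at hF; omega)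
        (by unfold HH; omega) hT (B := O + c * G.xt j) hr (fun y u v => by
          rw [rod j (by omega) (by omega) _ y (by omega) (by unfold HH FF at *; omega), hsd])
      exact ⟨φ, P, s, fan, by omega, by omega, fun _ _ f y a u v =>
        ⟨hT _ _ (by omega) (by omega) u v, e f y a u v⟩⟩
    · have hF : G.Fw K j = 0 := if_neg hj
      refine ⟨if j = 0 then -η else η, fun _ => 0, by split <;> [exact sη.neg; exact sη],
        ⟨rfl, by rw [hF]; simp⟩, fun e => if_pos e, fun e => if_neg (by omega),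
        fun a b f y hf u v => ?_⟩
      obtain rfl : f = 0 := by rw [hF] at hf; simpa using hf
      have hY := h.Y_le b
      unfold HH FF at *
      simp only [Nat.cast_zero, add_zero]
      exact ⟨rodT j a b _ _ (by omega) (by omega), by
        rw [rod j a b _ y (by omega) (by omega), hsd]⟩
  choose φ P sφ fan φ0 φ1 pos using flags
  obtain ⟨j, a, b, d1, d2⟩ := sign_change (φ := φ) (η := η) (n := G.n + 1) (by omega)
    (by rw [φ0 0 rfl]; unfold Sg at sη; omega) (φ1 _ rfl)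
  have d1' : φ j = -η := by have := sφ j; unfold Sg at this sη; omega
  obtain ⟨f1, u1, f2, u2, z, hz, hfar⟩ := collide hK sη (d2 ▸ fan (j + 1)) (d1' ▸ fan j)
  have hF : ∀ j, 0 ≤ G.Fw K j ∧ G.Fw K j ≤ FF K := fun j => by
    unfold Geom.Fw FF; split <;> omega
  have F1 := hF j
  have F2 := hF (j + 1)
  rw [abs_le] at hz
  obtain ⟨t1, p1⟩ := pos (j + 1) (by omega) (by omega) f1 (G.b i + max (-z) 0) u1 (by omega)
    (by unfold HH FF at *; omega)
  obtain ⟨t2, p2⟩ := pos j a (by omega) f2 (G.b i + max z 0) u2 (by omega)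
    (by unfold HH FF at *; omega)
  have far := other _ _ _ _ _ _ _ _ _ _ t2 t1 (by omega) (by omega) (by omega)
  obtain ⟨a0, ha0⟩ := hr
  refine hfar (Far.of_mul (a := a0) (far.congr ?_))
  have st : ((G.xt j : ℤ) : ℂ) = G.xt (j + 1) + ((G.Fw K (j + 1)).toNat + (G.Fw K j).toNat) := by
    have := h.step j a (by omega)
    have e : G.xt j = G.xt (j + 1) + (((G.Fw K (j + 1)).toNat : ℤ) + (G.Fw K j).toNat) := by omega
    exact_mod_cast e
  have mz : ((max z 0 : ℤ) : ℂ) = (max (-z) 0 : ℤ) + z := by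
    exact_mod_cast (by omega : max z 0 = max (-z) 0 + z)
  rw [p1, p2, ← ha0, st]
  push_cast at mz ⊢
  rw [mz, neg_mul]
  linear_combination -(c * (((G.Fw K (j + 1)).toNat : ℂ) + (G.Fw K j).toNat)) *
    E_mul_neg (K := K) (η * tt K)

end Pool.Agent.Lib.MP_0e6856_lc
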