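import Pool.Agent.Lib.MP_0e6856_lc.Arm

/-!
Tension of the shaft and of the rods, and collisions of flags.
-/

namespace Pool.Agent.Lib.MP_0e6856_lc

open Real

variable {K : ℕ}

theorem Root.conj_mul {c : ℂ} (hc : Root K c) : (starRingEnd ℂ) c * c = 1 := by
  obtain ⟨i, rfl⟩ := hc
  rw [conj_E, E_neg_mul]

/-- A path whose ends are as far apart as its length is straight. -/
theorem straight {p : ℤ → ℂ} {r : ℂ} (hr : Root K r) {a b : ℤ} (hab : a ≤ b)
    (h : ∀ x, a ≤ x → x < b → Root K (p (x + 1) - p x))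
    (ht : ((b - a : ℤ) : ℝ) ≤ ((starRingEnd ℂ) r * (p b - p a)).re) {x : ℤ} (h1 : a ≤ x)
    (h2 : x ≤ b) : p x = p a + r * (x - a) := by
  obtain ⟨n, rfl⟩ : ∃ n : ℕ, b = a + n := ⟨(b - a).toNat, by omega⟩
  obtain ⟨i, rfl⟩ : ∃ i : ℕ, x = a + i := ⟨(x - a).toNat, by omega⟩
  have := path_tight (u := (starRingEnd ℂ) r) (by simpa using hr.norm) a n
    (fun x u v => (h x u v).norm) (by simpa using ht) i (by omega)
  have e := hr.conj_mul
  push_cast
  linear_combination r * this - (p (a + i) - p a) * e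

theorem path_le' {p : ℤ → ℂ} {r : ℂ} (hr : Root K r) {a b : ℤ} (hab : a ≤ b)
    (h : ∀ x, a ≤ x → x < b → Root K (p (x + 1) - p x)) :
    ((starRingEnd ℂ) r * (p b - p a)).re ≤ ((b - a : ℤ) : ℝ) := by
  obtain ⟨n, rfl⟩ : ∃ n : ℕ, b = a + n := ⟨(b - a).toNat, by omega⟩
  simpa using path_le (u := (starRingEnd ℂ) r) (by simpa using hr.norm) a n
    (fun x u v => (h x u v).norm)

/-- The outer frame makes the shaft straight. -/
theorem tension (hK : 2 ≤ K) {p : ℤ → ℂ} {ρ : Bool → ℤ → ℂ} {c : ℂ} (hc : Root K c) {ε : ℤ}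
    (s : Sg ε) {a b Y : ℤ} (hab : a ≤ b) (hY : 0 ≤ Y)
    (hp : ∀ x, a ≤ x → x < b → Root K (p (x + 1) - p x))
    (hρ : ∀ s y, 0 ≤ y → y < Y → Root K (ρ s (y + 1) - ρ s y)) (h0 : ∀ s, ρ s 0 = p b)
    (h1 : ∀ s, ρ s Y = p a + c * (b - a + Y * E K (sg s * ε * tt K))) {x : ℤ} (u : a ≤ x)
    (v : x ≤ b) : p x = p a + c * (x - a) := by
  have e := hc.conj_mul
  obtain ⟨z, hz⟩ : ∃ z, z = (b - a : ℂ) - (starRingEnd ℂ) c * (p b - p a) := ⟨_, rfl⟩
  have z0 : 0 ≤ z.re := by
    have := path_le' hc hab hp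
    rw [hz, Complex.sub_re]
    simp at this ⊢
    linarith
  have key : ∀ s, (starRingEnd ℂ) (c * E K (sg s * ε * tt K)) * (ρ s Y - ρ s 0) =
      E K (-(sg s * ε * tt K)) * z + Y := by
    intro s
    rw [map_mul, conj_E, h0, h1, hz]
    linear_combination (E K (-(sg s * ε * tt K)) * (b - a + Y * E K (sg s * ε * tt K))) * e +
      Y * E_neg_mul (K := K) (sg s * ε * tt K)
  have le : ∀ s, (E K (-(sg s * ε * tt K)) * z).re ≤ 0 := by
    intro s
    have := path_le' (hc.mul (root_E (sg s * ε * tt K))) hY (hρ s)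
    rw [key] at this
    simpa using this
  have sum : (E K (-(sg true * ε * tt K)) * z).re + (E K (-(sg false * ε * tt K)) * z).re =
      2 * cos (tt K * (π / K)) * z.re := by
    rcases s with rfl | rfl <;> simp [sg, E_re, E_im] <;> ring
  have := cos_theta_nonneg hK
  have l1 := le true
  have l2 := le false
  have t : 0 ≤ (E K (-(sg true * ε * tt K)) * z).re := by nlinarith [mul_nonneg this z0]
  have st := straight (hc.mul (root_E (sg true * ε * tt K))) hY (hρ true)
    (by rw [key]; simpa using t) hY le_rfl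
  rw [h0, h1] at st
  refine straight hc hab hp ?_ u v
  have : (starRingEnd ℂ) c * (p b - p a) = ((b - a : ℤ) : ℝ) := by
    push_cast at st ⊢
    linear_combination -(starRingEnd ℂ) c * st + (b - a) * e
  rw [this, Complex.ofReal_re]

/-- The partial sums of the edges of a flag, measured against the direction of the rod. -/
def Fan (K : ℕ) (ε : ℤ) (F : ℕ) (P : ℕ → ℂ) : Prop :=
  P 0 = 0 ∧ ∀ f < F, ∃ g, tt K ≤ g ∧ g ≤ tt K + WW K ∧ P (f + 1) - P f = E K (-ε * g)

theorem Frame.flag (hK : 2 ≤ K) {T : ℤ → ℤ → ℤ → Prop} {q : ℤ → ℤ → ℤ → ℂ} (h : Frame K T q)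
    {xt h0 h1 : ℤ} {F : ℕ} (hF : 1 ≤ F) (hh : h0 < h1)
    (hT : ∀ x y, xt ≤ x → x ≤ xt + F → h0 ≤ y → y ≤ h1 → T x y 0) {B r : ℂ} (hr : Root K r)
    (hrod : ∀ y, h0 ≤ y → y ≤ h1 → q xt y 0 = B + r * y) :
    ∃ ε P, Sg ε ∧ Fan K ε F P ∧
      ∀ (f : ℕ) y, f ≤ F → h0 ≤ y → y ≤ h1 → q (xt + f) y 0 = B + r * (y + P f) := by
  have rung : ∀ y, h0 ≤ y → y < h1 → q xt (y + 1) 0 - q xt y 0 = r := fun y u v => by
    rw [hrod y u v.le, hrod (y + 1) (by omega) (by omega)]; push_cast; ring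
  have st : ∀ y, h0 ≤ y → y < h1 → _ := fun y u v =>
    h.strip hK (a := xt) (b := xt + F) (y := y) (k := 0) (by omega)
      (fun x a b => ⟨hT x y a b u v.le, hT x (y + 1) a b (by omega) (by omega)⟩) le_rfl (fun _ => rfl)
  obtain ⟨ε, s, -, A⟩ := st h0 le_rfl hh
  have e := hr.conj_mul
  refine ⟨ε, fun f => (starRingEnd ℂ) r * (q (xt + f) h0 0 - q xt h0 0), s, ⟨by simp, fun f hf => ?_⟩,
    fun f y hf u v => ?_⟩
  · obtain ⟨g, g1, g2, g3⟩ := (A (xt + f) (by omega) (by omega)).symm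
    refine ⟨g, g1, g2, ?_⟩
    rw [rung h0 le_rfl hh] at g3
    push_cast
    rw [← add_assoc]
    linear_combination (starRingEnd ℂ) r * g3 + E K (-ε * g) * e
  · have := line_of_steps (p := fun y => q (xt + f) y 0) (c := r) (a := h0) (b := h1)
      (fun y a b => by
        obtain ⟨-, -, e, -⟩ := st y a b
        rw [e _ (by omega) (by omega), rung y a b]) u v
    linear_combination this + hrod h0 le_rfl hh.le - (q (xt + f) h0 0 - q xt h0 0) * e

theorem Fan.norm_le {ε : ℤ} {F : ℕ} {P : ℕ → ℂ} (h : Fan K ε F P) {f : ℕ} (hf : f ≤ F) :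
    ‖P f‖ ≤ f := by
  induction f with
  | zero => simp [h.1]
  | succ f ih =>
    obtain ⟨g, -, -, e⟩ := h.2 f (by omega)
    rw [show P (f + 1) = P f + E K (-ε * g) by linear_combination e]
    refine (norm_add_le _ _).trans ?_
    have := ih (by omega)
    simp
    linarith

theorem Fan.step (hK : 2 ≤ K) {ε : ℤ} (s : Sg ε) {F : ℕ} {P : ℕ → ℂ} (h : Fan K ε F P) {f : ℕ}
    (hf : f < F) : sin (tt K * (π / K)) ≤ -ε * (P (f + 1)).im - -ε * (P f).im ∧
      -ε * (P (f + 1)).im - -ε * (P f).im ≤ 1 := by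
  obtain ⟨g, g1, g2, e⟩ := h.2 f hf
  have e' := congrArg Complex.im e
  have := win_sin_ge hK g1 g2
  have := sin_le_one (g * (π / K))
  rcases s with rfl | rfl <;> simp [E_im] at e' ⊢ <;> constructor <;> linarith

theorem ivt {s : ℕ → ℝ} {n : ℕ} (h0 : s 0 ≤ 0) (hn : 0 ≤ s n) (h : ∀ i < n, s (i + 1) ≤ s i + 1) :
    ∃ i ≤ n, |s i| ≤ 1 / 2 := by
  induction n with
  | zero => exact ⟨0, le_rfl, by rw [abs_le]; constructor <;> linarith⟩
  | succ n ih =>
    rcases le_total 0 (s n) with h1 | h1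
    · obtain ⟨i, hi, hi'⟩ := ih h1 (fun i hi => h i (by omega))
      exact ⟨i, by omega, hi'⟩
    · have := h n (by omega)
      rcases le_total (s (n + 1)) (1 / 2) with h2 | h2
      · exact ⟨n + 1, le_rfl, by rw [abs_le]; constructor <;> linarith⟩
      · exact ⟨n, by omega, by rw [abs_le]; constructor <;> linarith⟩

/-- Two flags that face each other collide. -/
theorem collide (hK : 2 ≤ K) {η : ℤ} (s : Sg η) {F1 F2 : ℕ} {P1 P2 : ℕ → ℂ} (h1 : Fan K η F1 P1)
    (h2 : Fan K (-η) F2 P2) : ∃ f1 ≤ F1, ∃ f2 ≤ F2, ∃ j : ℤ, |j| ≤ 2 * (F1 + F2) + 1 ∧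
      ¬ Far K ((F1 + F2) * E K (-η * tt K) + (j + P2 f2) - P1 f1) := by
  let z : ℕ → ℂ := fun i => (F1 + F2) * E K (-η * tt K) + P2 (i - F1) - P1 (min i F1)
  let σ : ℕ → ℝ := fun i => η * (z i).im
  have hS := sin_theta_ge hK
  have step : ∀ i < F1 + F2, sin (tt K * (π / K)) ≤ σ (i + 1) - σ i ∧ σ (i + 1) - σ i ≤ 1 := by
    intro i hi
    rcases Nat.lt_or_ge i F1 with h | h
    · have := h1.step hK s h
      simp only [σ, z, show i + 1 - F1 = 0 by omega, show i - F1 = 0 by omega,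
        show min (i + 1) F1 = i + 1 by omega, show min i F1 = i by omega, Complex.sub_im,
        Complex.add_im]
      constructor <;> linarith [this.1, this.2]
    · have := h2.step hK s.neg (f := i - F1) (by omega)
      simp only [σ, z, show i + 1 - F1 = i - F1 + 1 by omega,
        show min (i + 1) F1 = F1 by omega, show min i F1 = F1 by omega, Complex.sub_im,
        Complex.add_im]
      push_cast at this
      constructor <;> linarith [this.1, this.2]
  have σ0 : σ 0 = -((F1 + F2 : ℕ) * sin (tt K * (π / K))) := by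
    simp only [σ, z, Nat.zero_sub, Nat.zero_min, h1.1, h2.1]
    rcases s with rfl | rfl <;> simp [E_im]
  have grow : ∀ i ≤ F1 + F2, σ 0 + i * sin (tt K * (π / K)) ≤ σ i ∧ σ i ≤ σ 0 + i := by
    intro i hi
    induction i with
    | zero => simp
    | succ i ih =>
      have := ih (by omega)
      have := step i (by omega)
      push_cast
      constructor <;> linarith [this.1, this.2]
  have g := grow _ le_rfl
  have hi : ∃ i ≤ F1 + F2, σ i ^ 2 + 1 / 4 < rho K ^ 2 := by
    rw [rho_sq]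
    rcases eq_or_lt_of_le hK with rfl | hK3
    · refine ⟨_, le_rfl, ?_⟩
      have e1 : sin (tt 2 * (π / (2 : ℕ))) = 1 := by simp [tt]
      have e2 : cos (π / (2 : ℕ)) = 0 := by simp
      rw [e1] at g σ0
      have : σ (F1 + F2) = 0 := by linarith [g.1, g.2]
      rw [this, e2]; norm_num
    · obtain ⟨i, hi, hi'⟩ := ivt (s := σ) (n := F1 + F2) (by rw [σ0]; simp; positivity)
        (by linarith [g.1]) (fun i hi => by linarith [(step i hi).2])
      refine ⟨i, hi, ?_⟩
      have hc : 1 / 2 ≤ cos (π / K) := by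
        rw [← cos_pi_div_three]
        have hK' : (3 : ℝ) ≤ K := by exact_mod_cast hK3
        have hp := pi_pos
        refine cos_le_cos_of_nonneg_of_le_pi (by positivity) (by linarith) ?_
        rw [div_le_div_iff₀ (by positivity) (by positivity)]
        nlinarith
      have := sq_abs (σ i)
      have := abs_nonneg (σ i)
      nlinarith
  obtain ⟨i, hi, hi'⟩ := hi
  have hz : |(z i).re| ≤ 2 * (F1 + F2) := by
    refine (Complex.abs_re_le_norm _).trans ((norm_sub_le _ _).trans ?_)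
    have a1 := h1.norm_le (min_le_right i F1)
    have a2 := h2.norm_le (f := i - F1) (by omega)
    have a3 : ((min i F1 : ℕ) : ℝ) ≤ F1 := by exact_mod_cast min_le_right i F1
    have a4 : ((i - F1 : ℕ) : ℝ) ≤ F2 := by exact_mod_cast (by omega : i - F1 ≤ F2)
    have a5 := norm_add_le ((F1 + F2) * E K (-η * tt K)) (P2 (i - F1))
    have a6 : ‖((F1 : ℂ) + F2) * E K (-η * tt K)‖ = F1 + F2 := by
      rw [norm_mul, norm_E, mul_one]; exact_mod_cast Complex.norm_natCast (F1 + F2)
    linarith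
  have hr := abs_sub_round (z i).re
  refine ⟨min i F1, min_le_right _ _, i - F1, by omega, -round (z i).re, ?_, ?_⟩
  · have : |((round (z i).re : ℤ) : ℝ)| ≤ 2 * (F1 + F2) + 1 := by
      rw [abs_le] at *
      constructor <;> linarith [hz.1, hz.2, hr.1, hr.2]
    rw [abs_neg]
    exact_mod_cast this
  · apply not_far_of_normSq_lt hK
    have e : ((F1 : ℂ) + F2) * E K (-η * tt K) + (((-round (z i).re : ℤ) : ℂ) + P2 (i - F1)) -
        P1 (min i F1) = z i - (round (z i).re : ℤ) := by simp only [z]; push_cast; ring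
    rw [e]
    have e2 : (z i).im ^ 2 = σ i ^ 2 := by rcases s with rfl | rfl <;> simp [σ]
    simp only [Complex.sub_re, Complex.sub_im, Complex.intCast_re, Complex.intCast_im, sub_zero, e2]
    have := sq_abs ((z i).re - round (z i).re)
    have := abs_nonneg ((z i).re - round (z i).re)
    nlinarith

end Pool.Agent.Lib.MP_0e6856_lc
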