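import Pool.Agent.Lib.MP_0e6856_lc.Roots

/-!
Local rigidity lemmas: unit cells, orientation, bays, crosses, taut paths.
-/

namespace Pool.Agent.Lib.MP_0e6856_lc

open Real

variable {K : ℕ}

/-! ### Trigonometry in the window -/

theorem ang_le (hK : 2 ≤ K) {a b : ℤ} (h : a ≤ b) : (a : ℝ) * (π / K) ≤ b * (π / K) := by
  have : (a : ℝ) ≤ b := by exact_mod_cast h
  have : 0 ≤ π / K := by have := pi_pos; positivity
  nlinarith

theorem ang_lt (hK : 2 ≤ K) {a b : ℤ} (h : a < b) : (a : ℝ) * (π / K) < b * (π / K) := by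
  have : (a : ℝ) < b := by exact_mod_cast h
  have hK' : (0 : ℝ) < K := by positivity
  have : 0 < π / K := by have := pi_pos; positivity
  nlinarith

theorem ang_K (hK : 2 ≤ K) : ((K : ℤ) : ℝ) * (π / K) = π := by
  have hK' : (0 : ℝ) < K := by positivity
  push_cast; field_simp

theorem theta_ge (hK : 2 ≤ K) : π / 3 ≤ (tt K : ℝ) * (π / K) := by
  have h := ang_le hK (le_tt (K := K))
  rw [ang_K hK] at h
  push_cast at h
  linarith

theorem theta_gt (hK : 2 ≤ K) (h3 : K ≠ 3) : π / 3 < (tt K : ℝ) * (π / K) := by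
  have h := ang_lt hK (lt_tt h3)
  rw [ang_K hK] at h
  push_cast at h
  linarith

theorem gamma_le (hK : 2 ≤ K) {g : ℤ} (h : g ≤ tt K + WW K) :
    (g : ℝ) * (π / K) ≤ π - tt K * (π / K) := by
  have h := ang_le hK (show g + tt K ≤ K by have := tt_WW_le (K := K); omega)
  rw [ang_K hK] at h
  push_cast at h
  linarith

theorem theta_le (hK : 2 ≤ K) : (tt K : ℝ) * (π / K) ≤ π / 2 := by
  have := gamma_le hK (g := tt K) (by have := WW_nonneg hK; omega)
  linarith

theorem cos_theta_nonneg (hK : 2 ≤ K) : 0 ≤ cos (tt K * (π / K)) :=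
  cos_nonneg_of_neg_pi_div_two_le_of_le (by have := theta_ge hK; have := pi_pos; linarith)
    (theta_le hK)

theorem cos_theta_le (hK : 2 ≤ K) : cos (tt K * (π / K)) ≤ 1 / 2 := by
  rw [← cos_pi_div_three]
  have := pi_pos
  exact cos_le_cos_of_nonneg_of_le_pi (by linarith) (by have := theta_le hK; linarith) (theta_ge hK)

theorem cos_theta_lt (hK : 2 ≤ K) (h3 : K ≠ 3) : cos (tt K * (π / K)) < 1 / 2 := by
  rw [← cos_pi_div_three]
  have := pi_pos
  exact cos_lt_cos_of_nonneg_of_le_pi (by linarith) (by have := theta_le hK; linarith)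
    (theta_gt hK h3)

theorem sin_ge_of_mem {y : ℝ} (h1 : π / 3 ≤ y) (h2 : y ≤ π - π / 3) : 0.86 ≤ sin y := by
  have hp := pi_pos
  have h3 : (0.86 : ℝ) ≤ sin (π / 3) := by
    rw [sin_pi_div_three]
    have : (1.72 : ℝ) < √3 := by rw [Real.lt_sqrt (by norm_num)]; norm_num
    linarith
  rcases le_total y (π / 2) with h | h
  · exact h3.trans (sin_le_sin_of_le_of_le_pi_div_two (by linarith) h h1)
  · rw [← sin_pi_sub]
    exact h3.trans (sin_le_sin_of_le_of_le_pi_div_two (by linarith) (by linarith) (by linarith))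

theorem sin_theta_ge (hK : 2 ≤ K) : 0.86 ≤ sin (tt K * (π / K)) :=
  sin_ge_of_mem (theta_ge hK) (by have := theta_le hK; have := pi_pos; linarith)

theorem win_cos_le (hK : 2 ≤ K) {g : ℤ} (h1 : tt K ≤ g) (h2 : g ≤ tt K + WW K) :
    cos (g * (π / K)) ≤ cos (tt K * (π / K)) := by
  have := theta_ge hK
  have := gamma_le hK h2
  have := pi_pos
  exact cos_le_cos_of_nonneg_of_le_pi (by linarith) (by linarith) (ang_le hK h1)

theorem win_cos_lt (hK : 2 ≤ K) {g g' : ℤ} (h1 : tt K ≤ g) (h : g < g') (h2 : g' ≤ tt K + WW K) :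
    cos (g' * (π / K)) < cos (g * (π / K)) := by
  have := theta_ge hK
  have := gamma_le hK h2
  have := ang_le hK h1
  have := pi_pos
  exact cos_lt_cos_of_nonneg_of_le_pi (by linarith) (by linarith) (ang_lt hK h)

theorem win_cos_ge (hK : 2 ≤ K) {g : ℤ} (h1 : tt K ≤ g) (h2 : g ≤ tt K + WW K) :
    -cos (tt K * (π / K)) ≤ cos (g * (π / K)) := by
  have := theta_ge hK
  have := gamma_le hK h2
  have := ang_le hK h1
  have := pi_pos
  rw [← cos_pi_sub]
  exact cos_le_cos_of_nonneg_of_le_pi (by linarith) (by linarith) (by linarith)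

theorem win_sin_ge (hK : 2 ≤ K) {g : ℤ} (h1 : tt K ≤ g) (h2 : g ≤ tt K + WW K) :
    sin (tt K * (π / K)) ≤ sin (g * (π / K)) := by
  have := theta_ge hK
  have := gamma_le hK h2
  have := ang_le hK h1
  have := pi_pos
  rcases le_total (g * (π / K)) (π / 2) with h | h
  · exact sin_le_sin_of_le_of_le_pi_div_two (by linarith) h (by linarith)
  · rw [← sin_pi_sub (g * (π / K))]
    exact sin_le_sin_of_le_of_le_pi_div_two (by linarith) (by linarith) (by linarith)

/-! ### Unit cells -/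

theorem para {a b c d : ℂ} (ha : ‖a‖ = 1) (hb : ‖b‖ = 1) (hc : ‖c‖ = 1) (hd : ‖d‖ = 1)
    (h : a + b = c + d) (h0 : a + b ≠ 0) : (a = c ∧ b = d) ∨ (a = d ∧ b = c) := by
  have f : ∀ z : ℂ, ‖z‖ = 1 → z * (starRingEnd ℂ) z = 1 := fun z hz => by
    rw [Complex.mul_conj, Complex.normSq_eq_norm_sq, hz]; simp
  have h' := congrArg (starRingEnd ℂ) h
  simp only [map_add] at h'
  have fa := f a ha
  have fb := f b hb
  have fc := f c hc
  have fd := f d hd
  have h1 : (a + b) * (c * d - a * b) = 0 := by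
    linear_combination (a * b * c * d) * h' - (b * c * d) * fa - (a * c * d) * fb + (a * b * d) * fc
      + (a * b * c) * fd - (a * b) * h
  have h2 : c * d = a * b := by
    rcases mul_eq_zero.1 h1 with h1 | h1
    · exact absurd h1 h0
    · linear_combination h1
  have h3 : (a - c) * (a - d) = 0 := by linear_combination a * h + h2
  rcases mul_eq_zero.1 h3 with h3 | h3
  · left; constructor
    · linear_combination h3
    · linear_combination h - h3
  · right; constructor
    · linear_combination h3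
    · linear_combination h - h3

/-- The condition on the short diagonal of a unit cell. -/
def Diag (K : ℕ) (z : ℂ) : Prop := if K = 3 then Root K z else Far K z

/-- A sign. -/
def Sg (ε : ℤ) : Prop := ε = 1 ∨ ε = -1

/-- `r` is `c` turned in direction `ε` by an angle in the window. -/
def Ang (K : ℕ) (c r : ℂ) (ε : ℤ) : Prop :=
  ∃ g, tt K ≤ g ∧ g ≤ tt K + WW K ∧ r = c * E K (ε * g)

theorem Sg.neg {ε : ℤ} (h : Sg ε) : Sg (-ε) := by unfold Sg at *; omega

theorem Ang.symm {c r : ℂ} {ε : ℤ} (h : Ang K c r ε) : Ang K r c (-ε) := by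
  obtain ⟨g, h1, h2, rfl⟩ := h
  refine ⟨g, h1, h2, ?_⟩
  rw [mul_assoc, ← E_add]
  simp

theorem cell_ang (hK : 2 ≤ K) {c r : ℂ} (hc : Root K c) (hr : Root K r) (h1 : Far K (c + r))
    (h2 : Diag K (r - c)) : ∃ ε, Sg ε ∧ Ang K c r ε := by
  obtain ⟨i, rfl⟩ := hc
  obtain ⟨j, rfl⟩ := hr
  obtain ⟨h, h3, h4, h5⟩ := exists_rep hK (j - i)
  have hj : E K j = E K i * E K h := by rw [← h5, ← E_add]; simp
  have key : (tt K ≤ h ∧ h ≤ tt K + WW K) ∨ (tt K ≤ -h ∧ -h ≤ tt K + WW K) := by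
    unfold Diag at h2
    split at h2
    · rename_i h3'
      subst h3'
      have hn : ‖E 3 h - 1‖ = 1 := by
        have := h2.norm
        rw [hj, ← mul_sub_one, norm_mul, norm_E, one_mul] at this
        exact this
      have hs : ‖E 3 h - 1‖ ^ 2 = (E 3 h - 1).re ^ 2 + (E 3 h - 1).im ^ 2 := by
        rw [Complex.sq_norm, Complex.normSq_apply]; ring
      simp only [hn, Complex.sub_re, Complex.sub_im, E_re, E_im, Complex.one_re, Complex.one_im,
        sub_zero] at hs
      have := sin_sq_add_cos_sq (h * (π / (3 : ℕ)))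
      have hcos : cos (h * (π / (3 : ℕ))) = 1 / 2 := by nlinarith
      rw [tt_three, WW_three]
      have e2 : cos (2 * (π / 3)) = -1 / 2 := by rw [cos_two_mul, cos_pi_div_three]; norm_num
      have e3 : (3 : ℝ) * (π / 3) = π := by ring
      push_cast at h3 h4 hcos
      interval_cases h
      · push_cast at hcos; rw [neg_mul, cos_neg, e2] at hcos; norm_num at hcos
      · simp
      · simp at hcos
      · simp
      · push_cast at hcos; rw [e2] at hcos; norm_num at hcos
      · push_cast at hcos; rw [e3, cos_pi] at hcos; norm_num at hcos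
    · rename_i h3'
      have a1 := angle hK (a := h) (b := 0) (Far.of_mul (a := i) (h2.congr (by rw [hj]; simp; ring))) 0
      have hf : Far K (E K h - E K K) :=
        Far.of_mul (a := i) (h1.congr (by rw [hj, E_K hK]; ring))
      have a2 := angle hK hf 0
      have a3 := angle hK hf 1
      have := tt_WW h3'
      have := tt_pos (K := K)
      omega
  rcases key with ⟨k1, k2⟩ | ⟨k1, k2⟩
  · exact ⟨1, Or.inl rfl, h, k1, k2, by rw [hj]; simp⟩
  · exact ⟨-1, Or.inr rfl, -h, k1, k2, by rw [hj]; simp⟩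

theorem Diag.ne_zero (hK : 2 ≤ K) {z : ℂ} (h : Diag K z) : z ≠ 0 := by
  unfold Diag at h
  split at h
  · rintro rfl
    simpa using h.norm
  · exact h.ne_zero hK

/-- A unit cell is a rhombus with angle in the window. -/
theorem cell (hK : 2 ≤ K) {P0 P1 P2 P3 : ℂ} (h01 : Root K (P1 - P0)) (h02 : Root K (P2 - P0))
    (h13 : Root K (P3 - P1)) (h23 : Root K (P3 - P2)) (h03 : Far K (P3 - P0))
    (h12 : Diag K (P2 - P1)) :
    P3 - P1 = P2 - P0 ∧ ∃ ε, Sg ε ∧ Ang K (P1 - P0) (P2 - P0) ε := by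
  have hp := para h01.norm h13.norm h02.norm h23.norm (by ring)
    (by have := h03.ne_zero hK; intro h; apply this; linear_combination h)
  rcases hp with ⟨h1, -⟩ | ⟨-, h2⟩
  · exact absurd (by linear_combination -h1) (h12.ne_zero hK)
  · exact ⟨h2, cell_ang hK h01 h02 (h03.congr (by linear_combination h2)) (by simpa using h12)⟩

theorem consist_aux (hK : 2 ≤ K) {b x1 x2 : ℂ} (hb : Root K b) (h1 : Ang K b x1 1)
    (h2 : Ang K b x2 (-1)) (f1 : Far K (x1 + x2)) (f2 : Far K (x1 + x2 - b)) : False := by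
  obtain ⟨i, rfl⟩ := hb
  obtain ⟨g1, a1, a2, rfl⟩ := h1
  obtain ⟨g2, b1, b2, rfl⟩ := h2
  by_cases h3 : K = 3
  · subst h3
    rw [tt_three, WW_three] at *
    obtain rfl : g1 = 1 := by omega
    obtain rfl : g2 = 1 := by omega
    refine f2.ne_zero hK ?_
    have : E 3 (1 * 1) + E 3 (-1 * 1) - 1 = 0 := by
      apply Complex.ext <;> simp [E_re, E_im]
      norm_num
    linear_combination E 3 i * this
  · have hf : Far K (E K g1 - E K (-g2 + K)) :=
      Far.of_mul (a := i) (f1.congr (by rw [E_add_K hK]; simp; ring))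
    have := angle hK hf 0
    have := tt_WW h3
    have := WW_lt (K := K)
    omega

/-- Two cells on opposite sides of an edge have the same orientation. -/
theorem consist (hK : 2 ≤ K) {b x1 x2 : ℂ} {ε1 ε2 : ℤ} (hb : Root K b) (s1 : Sg ε1) (s2 : Sg ε2)
    (h1 : Ang K b x1 ε1) (h2 : Ang K b x2 ε2) (f1 : Far K (x1 + x2)) (f2 : Far K (x1 + x2 - b)) :
    ε1 = ε2 := by
  rcases s1 with rfl | rfl <;> rcases s2 with rfl | rfl
  · rfl
  · exact (consist_aux hK hb h1 h2 f1 f2).elim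
  · exact (consist_aux hK hb h2 h1 (by rwa [add_comm]) (by rwa [add_comm])).elim
  · rfl

/-- Two legs at the same end of an edge turn in opposite directions. -/
theorem mirror (hK : 2 ≤ K) {c a b : ℂ} {ε1 ε2 : ℤ} (hc : Root K c) (s1 : Sg ε1) (s2 : Sg ε2)
    (h1 : Ang K c a ε1) (h2 : Ang K c b ε2) (f : Far K (a - b)) : ε2 = -ε1 := by
  obtain ⟨i, rfl⟩ := hc
  obtain ⟨g1, a1, a2, rfl⟩ := h1
  obtain ⟨g2, b1, b2, rfl⟩ := h2
  have hf : Far K (E K (ε1 * g1) - E K (ε2 * g2)) := Far.of_mul (a := i) (f.congr (by ring))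
  have := angle hK hf 0
  have := WW_lt (K := K)
  rcases s1 with rfl | rfl <;> rcases s2 with rfl | rfl <;> omega

/-- The two legs of an open cell diverge. -/
theorem bay (hK : 2 ≤ K) {e : ℂ} {ε α β : ℤ} (he : Root K e) (s : Sg ε) (a1 : tt K ≤ α)
    (b2 : β ≤ tt K + WW K) (f : Far K (e + e * E K (ε * β) - e * E K (ε * α))) : β < α := by
  obtain ⟨i, rfl⟩ := he
  have hf : Far K (1 + E K (ε * β) - E K (ε * α)) := Far.of_mul (a := i) (f.congr (by ring))
  by_contra hc
  push Not at hc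
  rcases eq_or_lt_of_le hc with rfl | hlt
  · exact hf.1 ⟨0, by simp⟩
  refine not_far_of_normSq_lt hK ?_ hf
  have hp := pi_pos
  have hA := (theta_ge hK).trans (ang_le hK a1)
  have hB := gamma_le hK b2
  have hθ := theta_ge hK
  have hAB := ang_le hK (show α + 1 ≤ β by omega)
  have hδ : 0 < π / K := by have : (0 : ℝ) < K := by positivity
                            positivity
  push_cast at hAB
  have hρ : rho K ^ 2 = 1 - sin (π / K / 2) ^ 2 := by
    unfold rho
    rw [show π / (2 * K) = π / K / 2 by ring, cos_sq']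
  set A := (α : ℝ) * (π / K) with hA'
  set B := (β : ℝ) * (π / K) with hB'
  have hAB' : A + π / K ≤ B := by linarith
  have e1 := cos_sub_cos B A
  have e2 := sin_sub_sin B A
  have hμ : 0.86 ≤ sin ((B + A) / 2) := sin_ge_of_mem (by linarith) (by linarith)
  have hν : sin ((B - A) / 2) ≤ 1 / 2 := by
    rw [← sin_pi_div_six]
    exact sin_le_sin_of_le_of_le_pi_div_two (by linarith) (by linarith) (by linarith)
  have hν' : sin (π / K / 2) ≤ sin ((B - A) / 2) :=
    sin_le_sin_of_le_of_le_pi_div_two (by linarith) (by linarith) (by linarith)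
  have hs0 : 0 < sin (π / K / 2) := sin_pos_of_pos_of_lt_pi (by linarith) (by linarith)
  have e3 := sin_sq_add_cos_sq ((B + A) / 2)
  have key : (1 + cos B - cos A) ^ 2 + (sin B - sin A) ^ 2 < 1 - sin (π / K / 2) ^ 2 := by
    rw [add_sub_assoc, e1, e2]
    generalize sin ((B + A) / 2) = S at *
    generalize cos ((B + A) / 2) = C at *
    generalize sin ((B - A) / 2) = s at *
    generalize sin (π / K / 2) = s0 at *
    have : (1 + -2 * S * s) ^ 2 + (2 * s * C) ^ 2 = 1 - 4 * s * (S - s) := by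
      linear_combination (4 * s ^ 2) * e3
    rw [this]
    nlinarith
  rw [hρ]
  rcases s with rfl | rfl
  · simpa [E_re, E_im, ← hA', ← hB'] using key
  · simp only [Complex.sub_re, Complex.add_re, Complex.sub_im, Complex.add_im, E_re, E_im]
    push_cast
    simp only [neg_mul, one_mul, cos_neg, sin_neg, Complex.one_re, Complex.one_im, ← hA', ← hB']
    nlinarith

/-! ### Crosses -/

/-- An edge `c` with a leg on each side; `A` is the angle between the legs. -/
def Cross (K : ℕ) (c a b : ℂ) (A : ℤ) : Prop :=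
  ∃ ε g1 g2 : ℤ, Sg ε ∧ tt K ≤ g1 ∧ g1 ≤ tt K + WW K ∧ tt K ≤ g2 ∧ g2 ≤ tt K + WW K ∧
    a = c * E K (ε * g1) ∧ b = c * E K (-ε * g2) ∧ A = g1 + g2

theorem Cross.norm {c a b : ℂ} {A : ℤ} (h : Cross K c a b A) :
    ∃ g1 g2 : ℤ, tt K ≤ g1 ∧ g1 ≤ tt K + WW K ∧ tt K ≤ g2 ∧ g2 ≤ tt K + WW K ∧ A = g1 + g2 ∧
      ((a = c * E K g1 ∧ b = c * E K (-g2)) ∨ (b = c * E K g1 ∧ a = c * E K (-g2))) := by
  obtain ⟨ε, g1, g2, s, h1, h2, h3, h4, h5, h6, h7⟩ := h
  rcases s with rfl | rfl
  · exact ⟨g1, g2, h1, h2, h3, h4, h7, Or.inl ⟨by simpa using h5, by simpa using h6⟩⟩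
  · exact ⟨g2, g1, h3, h4, h1, h2, by omega, Or.inr ⟨by simpa using h6, by simpa using h5⟩⟩

theorem cross_core (hK : 2 ≤ K) (h3 : K ≠ 3) {c e c' : ℂ} {g1 g2 g1' g2' : ℤ} (hc : Root K c)
    (he : Root K e) (hc' : Root K c') (a1 : tt K ≤ g1) (a2 : g1 ≤ tt K + WW K) (b1 : tt K ≤ g2)
    (_ : g2 ≤ tt K + WW K) (a1' : tt K ≤ g1') (a2' : g1' ≤ tt K + WW K) (b1' : tt K ≤ g2')
    (b2' : g2' ≤ tt K + WW K) (f1 : Far K (e + c)) (f2 : Far K (e - c * E K g1))
    (f3 : Far K (e - c * E K (-g2))) (f4 : Far K (c' + e)) (f5 : Far K (c' * E K g1' + e))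
    (f6 : Far K (c' * E K (-g2') + e)) (f7 : Far K (e + c' * E K g1' - c * E K g1))
    (f8 : Far K (e + c' * E K (-g2') - c * E K (-g2))) : g1' + g2' + 2 ≤ g1 + g2 := by
  have he' := he
  obtain ⟨i, rfl⟩ := hc
  obtain ⟨j, rfl⟩ := he
  obtain ⟨i', rfl⟩ := hc'
  obtain ⟨h, h1, h2, hh⟩ := exists_rep hK (j - i)
  obtain ⟨h', h1', h2', hh'⟩ := exists_rep hK (j - i')
  have hj : E K i = E K j * E K (-h) := by
    rw [← mul_one (E K i), ← E_mul_neg (K := K) h, ← mul_assoc, ← hh, ← E_add]; simp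
  have hj' : E K i' = E K j * E K (-h') := by
    rw [← mul_one (E K i'), ← E_mul_neg (K := K) h', ← mul_assoc, ← hh', ← E_add]; simp
  rw [hj] at f1 f2 f3 f7 f8
  rw [hj'] at f4 f5 f6 f7 f8
  have F1 : Far K (E K 0 - E K (-h + K)) :=
    Far.of_mul (a := j) (f1.congr (by rw [E_add_K hK]; simp; ring))
  have F2 : Far K (E K 0 - E K (-h + g1)) :=
    Far.of_mul (a := j) (f2.congr (by rw [E_add]; simp; ring))
  have F3 : Far K (E K 0 - E K (-h + -g2)) :=
    Far.of_mul (a := j) (f3.congr (by rw [E_add]; simp; ring))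
  have F4 : Far K (E K (-h') - E K K) :=
    Far.of_mul (a := j) (f4.congr (by rw [E_K hK]; ring))
  have F5 : Far K (E K (-h' + g1') - E K K) :=
    Far.of_mul (a := j) (f5.congr (by rw [E_K hK, E_add]; ring))
  have F6 : Far K (E K (-h' + -g2') - E K K) :=
    Far.of_mul (a := j) (f6.congr (by rw [E_K hK, E_add]; ring))
  have := angle hK F1 0
  have := angle hK F1 1
  have := angle hK F2 0
  have := angle hK F3 0
  have := angle hK F4 0
  have := angle hK F4 1
  have := angle hK F5 0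
  have := angle hK F5 1
  have := angle hK F6 0
  have := angle hK F6 1
  have := tt_WW h3
  have := WW_lt (K := K)
  have u : g1' - h' < g1 - h := by
    refine bay hK he' (ε := 1) (Or.inl rfl) (by omega) (by omega) (f7.congr ?_)
    rw [one_mul, one_mul, sub_eq_neg_add g1', sub_eq_neg_add g1, E_add, E_add]; ring
  have v : g2' + h' < g2 + h := by
    refine bay hK he' (ε := -1) (Or.inr rfl) (by omega) (by omega) (f8.congr ?_)
    rw [neg_one_mul, neg_one_mul, neg_add_rev, neg_add_rev, E_add, E_add]; ring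
  omega

/-- Passing a pair of open cells lowers the angle between the legs by at least two units. -/
theorem cross_step (hK : 2 ≤ K) (h3 : K ≠ 3) {c a b e c' a' b' : ℂ} {A A' : ℤ} (hc : Root K c)
    (he : Root K e) (hc' : Root K c') (X : Cross K c a b A) (X' : Cross K c' a' b' A')
    (f1 : Far K (e + c)) (f2 : Far K (e - a)) (f3 : Far K (e - b)) (f4 : Far K (c' + e))
    (f5 : Far K (a' + e)) (f6 : Far K (b' + e)) (f7 : Far K (e + a' - a))
    (f8 : Far K (e + a' - b)) (f9 : Far K (e + b' - a)) (f10 : Far K (e + b' - b)) :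
    A' + 2 ≤ A := by
  obtain ⟨g1, g2, a1, a2, b1, b2, rfl, h⟩ := X.norm
  obtain ⟨g1', g2', a1', a2', b1', b2', rfl, h'⟩ := X'.norm
  rcases h with ⟨rfl, rfl⟩ | ⟨rfl, rfl⟩ <;> rcases h' with ⟨rfl, rfl⟩ | ⟨rfl, rfl⟩ <;>
    apply cross_core hK h3 hc he hc' <;> assumption

theorem Cross.bounds {c a b : ℂ} {A : ℤ} (h : Cross K c a b A) :
    2 * tt K ≤ A ∧ A ≤ 2 * (tt K + WW K) := by
  obtain ⟨ε, g1, g2, s, h1, h2, h3, h4, h5, h6, h7⟩ := h
  omega

/-- Two cells on the two sides of an edge, both drawn from the same end, form a cross. -/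
theorem mkCross (hK : 2 ≤ K) {P Q Pa Qa Pb Qb : ℂ} (h1 : Root K (Q - P)) (h2 : Root K (Pa - P))
    (h3 : Root K (Qa - Q)) (h4 : Root K (Qa - Pa)) (h5 : Far K (Qa - P)) (h6 : Diag K (Pa - Q))
    (h2' : Root K (Pb - P)) (h3' : Root K (Qb - Q)) (h4' : Root K (Qb - Pb)) (h5' : Far K (Qb - P))
    (h6' : Diag K (Pb - Q)) (f : Far K (Pa - Pb)) :
    Qa - Q = Pa - P ∧ Qb - Q = Pb - P ∧ ∃ A, Cross K (Q - P) (Pa - P) (Pb - P) A := by
  obtain ⟨e1, ε1, s1, a1⟩ := cell hK h1 h2 h3 h4 h5 h6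
  obtain ⟨e2, ε2, s2, a2⟩ := cell hK h1 h2' h3' h4' h5' h6'
  obtain rfl := mirror hK h1 s1 s2 a1 a2 (f.congr (by ring))
  obtain ⟨g1, u1, u2, u3⟩ := a1
  obtain ⟨g2, v1, v2, v3⟩ := a2
  exact ⟨e1, e2, _, ε1, g1, g2, s1, u1, u2, v1, v2, u3, v3, rfl⟩

/-! ### Paths -/

theorem eq_one_of_re {z : ℂ} (h : ‖z‖ = 1) (h1 : 1 ≤ z.re) : z = 1 := by
  have h3 : ‖z‖ ^ 2 = z.re ^ 2 + z.im ^ 2 := by
    rw [Complex.sq_norm, Complex.normSq_apply]; ring
  rw [h] at h3
  have : z.im = 0 := by nlinarith [sq_nonneg z.im]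
  have : z.re = 1 := by nlinarith [sq_nonneg z.im]
  apply Complex.ext <;> simp [*]

theorem path_le {p : ℤ → ℂ} {u : ℂ} (hu : ‖u‖ = 1) (a : ℤ) (n : ℕ)
    (h : ∀ x, a ≤ x → x < a + n → ‖p (x + 1) - p x‖ = 1) : (u * (p (a + n) - p a)).re ≤ n := by
  induction n with
  | zero => simp
  | succ n ih =>
    have h1 := ih (fun x h1 h2 => h x h1 (by push_cast; omega))
    have h2 := h (a + n) (by omega) (by push_cast; omega)
    have h3 : (u * (p (a + n + 1) - p (a + n))).re ≤ 1 :=
      (Complex.re_le_norm _).trans (by rw [norm_mul, hu, h2]; simp)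
    have h4 : u * (p (a + (n + 1 : ℕ)) - p a) =
        u * (p (a + n) - p a) + u * (p (a + n + 1) - p (a + n)) := by
      push_cast; rw [← add_assoc]; ring
    rw [h4, Complex.add_re]
    push_cast
    linarith

/-- A taut path is straight. -/
theorem path_tight {p : ℤ → ℂ} {u : ℂ} (hu : ‖u‖ = 1) (a : ℤ) (n : ℕ)
    (h : ∀ x, a ≤ x → x < a + n → ‖p (x + 1) - p x‖ = 1) (ht : n ≤ (u * (p (a + n) - p a)).re) :
    ∀ i : ℕ, i ≤ n → u * (p (a + i) - p a) = i := by
  induction n with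
  | zero => intro i hi; obtain rfl : i = 0 := by omega
            simp
  | succ n ih =>
    have h0 : ∀ x, a ≤ x → x < a + n → ‖p (x + 1) - p x‖ = 1 :=
      fun x h1 h2 => h x h1 (by push_cast; omega)
    have h1 := path_le hu a n h0
    have h2 := h (a + n) (by omega) (by push_cast; omega)
    have h2' : ‖u * (p (a + n + 1) - p (a + n))‖ = 1 := by rw [norm_mul, hu, h2]; simp
    have h3 : (u * (p (a + n + 1) - p (a + n))).re ≤ 1 := (Complex.re_le_norm _).trans h2'.le
    have h4 : u * (p (a + (n + 1 : ℕ)) - p a) =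
        u * (p (a + n) - p a) + u * (p (a + n + 1) - p (a + n)) := by
      push_cast; rw [← add_assoc]; ring
    rw [h4, Complex.add_re] at ht
    push_cast at ht
    have ih' := ih h0 (by linarith)
    intro i hi
    rcases Nat.lt_or_ge n i with h5 | h5
    · obtain rfl : i = n + 1 := by omega
      rw [h4, ih' n le_rfl, eq_one_of_re h2' (by linarith)]
      simp
    · exact ih' i h5

end Pool.Agent.Lib.MP_0e6856_lc
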