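import Pool.Agent.Lib.MP_0e6856_lc.Sign
import Pool.Agent.Lib.MP_0e6856_lc.Polygon
import Pool.Agent.Shared.PolyTime.NPComplete

/-!
Membership in NP: a model can be given by sums of roots of unity.
-/

namespace Pool.Agent.Lib.MP_0e6856_lc

open N68a2faeb Pool.Agent.Shared.PolyTime N487b59b3 Real

variable {K : ℕ}

/-- The sum of the roots of unity with the given exponents. -/
noncomputable def pt (K : ℕ) (L : List ℤ) : ℂ := (L.map (E K)).sum

/-- The cosines whose sum is `Fn l (pt A - pt B) - rho`. -/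
def cosList (K : ℕ) (l : ℤ) (A B : List ℤ) : List ℤ :=
  (A.map fun e => 2 * e - (2 * l + 1)) ++ (B.map fun e => 2 * e - (2 * l + 1) + 2 * K) ++
    [1 + 2 * (K : ℤ)]

theorem Fn_pt (l : ℤ) (A : List ℤ) :
    Fn K l (pt K A) = SS (2 * K) (A.map fun e => 2 * e - (2 * l + 1)) := by
  induction A with
  | nil => simp [pt, SS, Fn]
  | cons e A ih =>
    simp only [pt, SS, List.map_cons, List.sum_cons, Fn_add, Fn_E] at *
    rw [ih]

theorem SS_cosList (hK : 2 ≤ K) (l : ℤ) (A B : List ℤ) :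
    SS (2 * K) (cosList K l A B) = Fn K l (pt K A - pt K B) - rho K := by
  have h1 := SS_neg (K := 2 * K) (by omega) (B.map fun e => 2 * e - (2 * l + 1))
  have h2 := E_add_K (K := 2 * K) (by omega) 1
  rw [Fn_sub, Fn_pt, Fn_pt, rho_eq, ← E_re, sub_eq_add_neg (SS _ _), ← h1]
  push_cast at h2
  simp [cosList, SS, h2, Function.comp_def]
  ring

theorem Fn_period (hK : 2 ≤ K) (l n : ℤ) (z : ℂ) : Fn K (l + 2 * K * n) z = Fn K l z := by
  unfold Fn
  rw [← E_period (K := 2 * K) (by omega) (-(2 * l + 1)) (-n)]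
  congr 3
  push_cast
  ring

theorem exists_int_iff (hK : 2 ≤ K) {P : ℤ → Prop} (h : ∀ l n, P l → P (l + 2 * K * n)) :
    (∃ l, P l) ↔ ∃ l < 2 * K, P (l : ℕ) := by
  refine ⟨fun ⟨l, hl⟩ => ?_, fun ⟨l, _, hl⟩ => ⟨_, hl⟩⟩
  have h1 := Int.emod_nonneg l (show (2 * K : ℤ) ≠ 0 by omega)
  have h3 := Int.emod_lt_of_pos l (show (0 : ℤ) < 2 * K by omega)
  refine ⟨(l % (2 * K)).toNat, by omega, ?_⟩
  rw [Int.toNat_of_nonneg h1]
  convert h l (-(l / (2 * K))) hl using 1
  have := Int.emod_add_mul_ediv l (2 * K)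
  linear_combination this

theorem root_iff (hK : 2 ≤ K) (z : ℂ) :
    Root K z ↔ ∃ l, Fn K l z = rho K ∧ Fn K (l - 1) z = rho K := by
  have e1 : ∀ i, Fn K i (E K i) = rho K := fun i => by
    rw [Fn_E, rho_eq, E_re, show 2 * i - (2 * i + 1) = -1 by ring]; simp
  have e2 : ∀ i, Fn K (i - 1) (E K i) = rho K := fun i => by
    rw [Fn_E, rho_eq, E_re, show 2 * i - (2 * (i - 1) + 1) = 1 by ring]
  constructor
  · rintro ⟨i, rfl⟩
    exact ⟨i, e1 i, e2 i⟩
  · rintro ⟨i, h1, h2⟩
    refine ⟨i, ?_⟩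
    obtain ⟨w, hw⟩ : ∃ w, w = (z - E K i) * E (2 * K) (-(2 * i)) := ⟨_, rfl⟩
    have a1 : (w * E (2 * K) (-1)).re = 0 := by
      rw [hw, mul_assoc, ← E_add, show -(2 * i) + -1 = -(2 * i + 1) by ring]
      have := Fn_sub (K := K) i z (E K i)
      rwa [h1, e1, sub_self] at this
    have a2 : (w * E (2 * K) 1).re = 0 := by
      rw [hw, mul_assoc, ← E_add, show -(2 * i) + 1 = -(2 * (i - 1) + 1) by ring]
      have := Fn_sub (K := K) (i - 1) z (E K i)
      rwa [h2, e2, sub_self] at this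
    have c0 := rho_pos hK
    rw [rho_eq] at c0
    have s0 : 0 < sin ((1 : ℤ) * (π / (2 * K : ℕ))) := by
      have t1 := ang_lt (K := 2 * K) (by omega) (show 0 < 1 by omega)
      have t2 := ang_lt (K := 2 * K) (by omega) (show 1 < ((2 * K : ℕ) : ℤ) by omega)
      rw [ang_K (by omega)] at t2
      exact sin_pos_of_pos_of_lt_pi (by simpa using t1) t2
    simp only [Complex.mul_re, E_re, E_im, Int.cast_neg, neg_mul, cos_neg, sin_neg] at a1 a2
    have w0 : w = 0 := by
      apply Complex.ext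
      · exact (mul_eq_zero.1 (by linarith : w.re * cos ((1 : ℤ) * (π / (2 * K : ℕ))) = 0)).resolve_right
          c0.ne'
      · exact (mul_eq_zero.1 (by linarith : w.im * sin ((1 : ℤ) * (π / (2 * K : ℕ))) = 0)).resolve_right
          s0.ne'
    rw [w0] at hw
    exact sub_eq_zero.1 ((mul_eq_zero.1 hw.symm).resolve_right (E_ne_zero _))

abbrev GI : Type := List ℕ × List (ℕ × ℕ)

/-- The exponents attached to a vertex. -/
def look (x : GI) (w : List (List ℤ)) (v : ℕ) : List ℤ := w.getD (x.1.idxOf v) []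

/-- The test made by the verifier. -/
def Chk (K : ℕ) (strict : Bool) (x : GI) (w : List (List ℤ)) : Prop :=
  ∀ u ∈ x.1, ∀ v ∈ x.1, u ≠ v →
    (∃ l < 2 * K, 0 ≤ SS (2 * K) (cosList K (l : ℕ) (look x w u) (look x w v))) ∧
    (((u, v) ∈ x.2 ∨ (v, u) ∈ x.2) ↔ ∃ l < 2 * K,
      (0 ≤ SS (2 * K) (cosList K (l : ℕ) (look x w u) (look x w v)) ∧
        ¬ 0 < SS (2 * K) (cosList K (l : ℕ) (look x w u) (look x w v))) ∧
      (0 ≤ SS (2 * K) (cosList K ((l : ℕ) - 1) (look x w u) (look x w v)) ∧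
        ¬ 0 < SS (2 * K) (cosList K ((l : ℕ) - 1) (look x w u) (look x w v)))) ∧
    (strict = true → ¬ ((u, v) ∈ x.2 ∨ (v, u) ∈ x.2) →
      ∃ l < 2 * K, 0 < SS (2 * K) (cosList K (l : ℕ) (look x w u) (look x w v)))

theorem chk_iff (hK : 2 ≤ K) (strict : Bool) (x : GI) (w : List (List ℤ)) :
    Chk K strict x w ↔ Model K strict (listGraph x) (fun v => pt K (look x w v.1)) := by
  have key : ∀ u v : {v // v ∈ x.1}, u ≠ v →
      ((listGraph x).Adj u v ↔ ((u.1, v.1) ∈ x.2 ∨ (v.1, u.1) ∈ x.2)) := fun u v h => by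
    simp [listGraph, h]
  have e1 : ∀ z, (∃ l < 2 * K, 0 ≤ Fn K (l : ℕ) z - rho K) ↔ ∃ l, rho K ≤ Fn K l z := fun z => by
    rw [exists_int_iff hK (P := fun l => rho K ≤ Fn K l z) (fun l n h => by rwa [Fn_period hK])]
    simp
  have e2 : ∀ z, (∃ l < 2 * K, 0 < Fn K (l : ℕ) z - rho K) ↔ ∃ l, rho K < Fn K l z := fun z => by
    rw [exists_int_iff hK (P := fun l => rho K < Fn K l z) (fun l n h => by rwa [Fn_period hK])]
    simp
  have e3 : ∀ z, (∃ l < 2 * K, (0 ≤ Fn K (l : ℕ) z - rho K ∧ ¬ 0 < Fn K (l : ℕ) z - rho K) ∧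
      (0 ≤ Fn K ((l : ℕ) - 1) z - rho K ∧ ¬ 0 < Fn K ((l : ℕ) - 1) z - rho K)) ↔ Root K z := fun z => by
    rw [root_iff hK, exists_int_iff hK (P := fun l => Fn K l z = rho K ∧ Fn K (l - 1) z = rho K)
      (fun l n h => by rwa [Fn_period hK, add_sub_right_comm, Fn_period hK])]
    refine exists_congr (fun l => and_congr_right (fun _ => and_congr ?_ ?_)) <;>
      exact ⟨fun h => by linarith [h.1, not_lt.1 h.2], fun h => by simp [h]⟩
  simp only [Chk, SS_cosList hK, e1, e2, e3]
  constructor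
  · intro h u v huv
    rw [key u v huv]
    exact h u.1 u.2 v.1 v.2 (fun e => huv (Subtype.ext e))
  · intro h u hu v hv huv
    have ne : (⟨u, hu⟩ : {v // v ∈ x.1}) ≠ ⟨v, hv⟩ := fun e => huv (congrArg Subtype.val e)
    have := h _ _ ne
    rwa [key _ _ ne] at this

open Classical in
theorem chk_polyTime (hK : 2 ≤ K) (strict : Bool) :
    IsPolyTime (fun z : GI × List (List ℤ) => decide (Chk K strict z.1 z.2)) := by
  have h1 := pos_polyTime (K := 2 * K) (by omega)
  have h2 := nonneg_polyTime (K := 2 * K) (by omega)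
  have h3 : IsPolyTime (fun z : ℤ × List ℤ × List ℤ => cosList K z.1 z.2.1 z.2.2) := by
    unfold cosList; fun_prop
  have h4 : IsPolyTime (fun z : GI × List (List ℤ) × ℕ => look z.1 z.2.1 z.2.2) := by
    unfold look; fun_prop
  let P : List ℤ → Bool := fun L => decide (0 < SS (2 * K) L)
  let N : List ℤ → Bool := fun L => decide (0 ≤ SS (2 * K) L)
  have hP : IsPolyTime P := h1
  have hN : IsPolyTime N := h2
  have eP : ∀ L, 0 < SS (2 * K) L ↔ P L = true := fun L => by simp [P]
  have eN : ∀ L, 0 ≤ SS (2 * K) L ↔ N L = true := fun L => by simp [N]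
  clear_value P N
  simp only [Chk, eP, eN]
  fun_prop

theorem norm_pt_le (L : List ℤ) : ‖pt K L‖ ≤ L.length := by
  induction L with
  | nil => simp [pt]
  | cons e L ih =>
    simp only [pt, List.map_cons, List.sum_cons, List.length_cons] at *
    refine (norm_add_le _ _).trans ?_
    simp
    linarith

theorem walk_list (hK : 2 ≤ K) {V : Type} {G : SimpleGraph V} {p : V → ℂ}
    (h : ∀ u v, G.Adj u v → Root K (p u - p v)) {a b : V} (W : G.Walk a b) :
    ∃ L : List ℤ, L.length = W.length ∧ (∀ e ∈ L, e.natAbs ≤ K) ∧ pt K L = p b - p a := by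
  induction W with
  | nil => exact ⟨[], rfl, by simp, by simp [pt]⟩
  | cons hab W ih =>
    obtain ⟨L, l1, l2, l3⟩ := ih
    obtain ⟨i, hi⟩ := h _ _ hab.symm
    obtain ⟨e, e1, e2, e3⟩ := exists_rep hK i
    refine ⟨e :: L, by simp [l1], ?_, ?_⟩
    · intro y hy
      rcases List.mem_cons.1 hy with rfl | hy
      · omega
      · exact l2 y hy
    · simp only [pt, List.map_cons, List.sum_cons] at *
      rw [l3, ← e3, ← hi]
      ring

theorem exists_cert (hK : 2 ≤ K) (strict : Bool) (x : GI) {p : {v // v ∈ x.1} → ℂ}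
    (hp : Model K strict (listGraph x) p) : ∃ w : List (List ℤ), w.length = x.1.length ∧
      (∀ L ∈ w, L.length ≤ x.1.length + 2 * x.1.length * x.1.length ∧ ∀ e ∈ L, e.natAbs ≤ K) ∧
      Chk K strict x w := by
  classical
  have card : Fintype.card {v // v ∈ x.1} ≤ x.1.length := by
    rw [Fintype.card_of_subtype x.1.toFinset (fun v => List.mem_toFinset)]
    exact List.toFinset_card_le x.1
  let r : {v // v ∈ x.1} → {v // v ∈ x.1} := fun v => ((listGraph x).connectedComponentMk v).out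
  have hL : ∀ v, ∃ L : List ℤ, L.length < x.1.length ∧ (∀ e ∈ L, e.natAbs ≤ K) ∧
      pt K L = p v - p (r v) := by
    intro v
    have : (listGraph x).Reachable (r v) v :=
      SimpleGraph.ConnectedComponent.exact (Quot.out_eq _)
    obtain ⟨W⟩ := this
    obtain ⟨L, l1, l2, l3⟩ := walk_list hK (fun u v a => (hp u v a.ne).2.1.1 a) W.toPath.1
    exact ⟨L, by have := W.toPath.2.length_lt; omega, l2, l3⟩
  choose L l1 l2 l3 using hL
  let L' : {v // v ∈ x.1} → List ℤ := fun v =>
    L v ++ List.replicate (2 * x.1.length * x.1.idxOf (r v).1) 0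
  have l4 : ∀ v, pt K (L' v) = p v - p (r v) + (2 * x.1.length * x.1.idxOf (r v).1 : ℕ) := by
    intro v
    rw [← l3]
    simp [L', pt]
  refine ⟨x.1.map fun v => if h : v ∈ x.1 then L' ⟨v, h⟩ else [], by simp, ?_, ?_⟩
  · intro M hM
    obtain ⟨v, hv, rfl⟩ := List.mem_map.1 hM
    rw [dif_pos hv]
    constructor
    · have a := l1 ⟨v, hv⟩
      have b := List.idxOf_le_length (a := (r ⟨v, hv⟩).1) (l := x.1)
      have := Nat.mul_le_mul_left (2 * x.1.length) b
      simp only [L', List.length_append, List.length_replicate]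
      omega
    · intro e he
      rcases List.mem_append.1 he with he | he
      · exact l2 _ e he
      · rw [List.eq_of_mem_replicate he]; simp
  · rw [chk_iff hK]
    have lk : ∀ v : {v // v ∈ x.1},
        look x (x.1.map fun v => if h : v ∈ x.1 then L' ⟨v, h⟩ else []) v.1 = L' v := by
      intro v
      have := List.idxOf_lt_length_iff.2 v.2
      simp [look, List.getElem?_eq_getElem this, v.2]
    intro u v huv
    simp only [lk]
    by_cases e : r u = r v
    · rw [l4, l4, e, show ∀ a b c d : ℂ, a - b + c - (d - b + c) = a - d by intros; ring]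
      exact hp u v huv
    · have na : ¬ (listGraph x).Adj u v := fun a => e (by
        simp only [r, SimpleGraph.ConnectedComponent.connectedComponentMk_eq_of_adj a])
      have far : 1 < ‖pt K (L' u) - pt K (L' v)‖ := by
        have ne : x.1.idxOf (r u).1 ≠ x.1.idxOf (r v).1 := fun h =>
          e (Subtype.ext ((List.idxOf_inj (r u).2).1 h))
        have n1 := norm_pt_le (K := K) (L u)
        have n2 := norm_pt_le (K := K) (L v)
        have a1 : ((L u).length : ℝ) + 1 ≤ x.1.length := by exact_mod_cast l1 u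
        have a2 : ((L v).length : ℝ) + 1 ≤ x.1.length := by exact_mod_cast l1 v
        refine lt_of_lt_of_le ?_ (Complex.abs_re_le_norm _)
        have r1 := Complex.abs_re_le_norm (pt K (L u))
        have r2 := Complex.abs_re_le_norm (pt K (L v))
        rw [l4, l4, ← l3, ← l3]
        simp only [Complex.sub_re, Complex.add_re, Complex.natCast_re]
        rw [abs_le] at r1 r2
        rw [lt_abs]
        push_cast
        have n0 : (0 : ℝ) ≤ x.1.length := by positivity
        rcases lt_or_gt_of_ne ne with h | h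
        · have : (x.1.idxOf (r u).1 : ℝ) + 1 ≤ x.1.idxOf (r v).1 := by exact_mod_cast h
          right; nlinarith [r1.1, r1.2, r2.1, r2.2]
        · have : (x.1.idxOf (r v).1 : ℝ) + 1 ≤ x.1.idxOf (r u).1 := by exact_mod_cast h
          left; nlinarith [r1.1, r1.2, r2.1, r2.2]
      obtain ⟨l, hl⟩ := exists_Fn_of_norm hK far
      exact ⟨⟨l, hl.le⟩, iff_of_false na (fun t => by rw [t.norm] at far; exact lt_irrefl _ far),
        fun _ _ => ⟨l, hl⟩⟩

theorem polyCoin_mem_NP {k : ℕ} (hk : 3 ≤ k) {a : ℂ} (ha : a ≠ 0) (strict : Bool) :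
    langOf (fun x => PolyCoin k a strict (listGraph x)) ∈ NP := by
  classical
  have hK := two_le_KK hk
  refine langOf_mem_NP PolyDecode.dec PolyDecode.dec
    (fun x (w : List (List ℤ)) => decide (Chk (KK k) strict x w)) (chk_polyTime hK strict)
    (fun x => x.1.length * (2 * ((x.1.length + 2 * x.1.length * x.1.length) *
      (2 * (2 * KK k + 1) + 1)) + 1)) (by fun_prop) (fun x hx => ?_) (fun x w h => ?_)
  · obtain ⟨p, hp⟩ := (polyCoin_iff hk ha _ _).1 hx
    obtain ⟨w, w1, w2, w3⟩ := exists_cert hK strict x hp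
    refine ⟨w, ?_, by simpa using w3⟩
    rw [← w1]
    refine bsize_list_le _ _ (fun L hL => ?_)
    refine (bsize_list_le L (2 * KK k + 1) (fun e he => ?_)).trans
      (Nat.mul_le_mul_right _ (by rw [w1]; exact (w2 L hL).1))
    have := bsize_int_le e
    have := bsize_nat_le_self e.natAbs
    have := (w2 L hL).2 e he
    omega
  · exact (polyCoin_iff hk ha _ _).2 ⟨_, (chk_iff hK strict x w).1 (by simpa using h)⟩

end Pool.Agent.Lib.MP_0e6856_lc
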