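import Mathlib

/-!
Roots of unity of order `2K`, and the basic local geometry of point sets in which adjacent points
differ by such a root and other points are not too close.
-/

namespace Pool.Agent.Lib.MP_0e6856_lc

open Real

/-- `E K a = exp (a π i / K)`. -/
noncomputable def E (K : ℕ) (a : ℤ) : ℂ := Complex.exp (((a * (π / K) : ℝ) : ℂ) * Complex.I)

/-- The smallest angle (in units of `π / K`) of a rhombus. -/
def tt (K : ℕ) : ℤ := if K = 3 then 1 else K / 3 + 1

/-- The width of the window of possible rhombus angles. -/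
def WW (K : ℕ) : ℤ := if K = 3 then 0 else K - 2 * tt K

/-- The inradius of the regular `2K`-gon of circumradius one. -/
noncomputable def rho (K : ℕ) : ℝ := cos (π / (2 * K))

def Root (K : ℕ) (z : ℂ) : Prop := ∃ i : ℤ, z = E K i

def Far (K : ℕ) (z : ℂ) : Prop := ¬ Root K z ∧ rho K ≤ ‖z‖

variable {K : ℕ}

theorem E_add (a b : ℤ) : E K (a + b) = E K a * E K b := by
  unfold E
  rw [← Complex.exp_add]
  congr 1
  push_cast
  ring

@[simp] theorem E_zero : E K 0 = 1 := by simp [E]

@[simp] theorem norm_E (a : ℤ) : ‖E K a‖ = 1 := by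
  unfold E
  exact Complex.norm_exp_ofReal_mul_I _

theorem E_ne_zero (a : ℤ) : E K a ≠ 0 := Complex.exp_ne_zero _

theorem E_re (a : ℤ) : (E K a).re = cos (a * (π / K)) := Complex.exp_ofReal_mul_I_re _

theorem E_im (a : ℤ) : (E K a).im = sin (a * (π / K)) := Complex.exp_ofReal_mul_I_im _

theorem E_neg_mul (a : ℤ) : E K (-a) * E K a = 1 := by rw [← E_add]; simp

theorem E_mul_neg (a : ℤ) : E K a * E K (-a) = 1 := by rw [← E_add]; simp

theorem conj_E (a : ℤ) : (starRingEnd ℂ) (E K a) = E K (-a) := by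
  apply Complex.ext <;> simp [E_re, E_im]

theorem E_K (hK : 2 ≤ K) : E K K = -1 := by
  have : (K : ℝ) ≠ 0 := by positivity
  unfold E
  have h : (((K : ℤ) : ℝ) * (π / K)) = π := by push_cast; field_simp
  rw [h, Complex.exp_pi_mul_I]

theorem E_add_K (hK : 2 ≤ K) (a : ℤ) : E K (a + K) = - E K a := by
  rw [E_add, E_K hK]; ring

theorem E_sub_K (hK : 2 ≤ K) (a : ℤ) : E K (a - K) = - E K a := by
  have := E_add_K hK (a - K)
  rw [sub_add_cancel] at this
  rw [this]; ring

theorem E_period (hK : 2 ≤ K) (a n : ℤ) : E K (a + 2 * K * n) = E K a := by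
  have : (K : ℝ) ≠ 0 := by positivity
  unfold E
  have h : ((((a + 2 * K * n : ℤ) : ℝ) * (π / K) : ℝ) : ℂ) * Complex.I =
      (((a : ℝ) * (π / K) : ℝ) : ℂ) * Complex.I + n * (2 * π * Complex.I) := by
    have : (K : ℂ) ≠ 0 := by exact_mod_cast this
    push_cast; field_simp
  rw [h, Complex.exp_add, Complex.exp_int_mul_two_pi_mul_I, mul_one]

theorem E_inj (hK : 2 ≤ K) {a b : ℤ} (h : E K a = E K b) : ∃ n : ℤ, a = b + 2 * K * n := by
  unfold E at h
  obtain ⟨n, hn⟩ := Complex.exp_eq_exp_iff_exists_int.1 h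
  refine ⟨n, ?_⟩
  have hK' : (K : ℝ) ≠ 0 := by positivity
  have h2 := congrArg Complex.im hn
  simp at h2
  have h3 : (a : ℝ) = b + 2 * K * n := by
    have hp := pi_pos
    field_simp at h2
    nlinarith
  exact_mod_cast h3

/-- Two exponents in a window shorter than `2K` with the same root are equal. -/
theorem E_inj' (hK : 2 ≤ K) {a b : ℤ} (h : E K a = E K b) (h1 : a < b + 2 * K)
    (h2 : b < a + 2 * K) : a = b := by
  obtain ⟨n, hn⟩ := E_inj hK h
  have hK' : (0 : ℤ) < K := by omega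
  have : n = 0 := by
    rcases lt_trichotomy n 0 with h | h | h
    · nlinarith
    · exact h
    · nlinarith
  subst this
  omega

theorem exists_rep (hK : 2 ≤ K) (i : ℤ) : ∃ h : ℤ, -K < h ∧ h ≤ K ∧ E K i = E K h := by
  have hK' : (0 : ℤ) < 2 * K := by omega
  refine ⟨K - (K - i) % (2 * K), ?_, ?_, ?_⟩
  · have := Int.emod_lt_of_pos (K - i) hK'
    omega
  · have := Int.emod_nonneg (K - i) hK'.ne'
    omega
  · rw [← E_period hK i ((K - i) / (2 * K))]
    congr 1
    have := Int.emod_add_mul_ediv (K - i) (2 * K)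
    omega

theorem Root.neg (hK : 2 ≤ K) {z : ℂ} (h : Root K z) : Root K (-z) := by
  obtain ⟨i, rfl⟩ := h
  exact ⟨i + K, (E_add_K hK i).symm⟩

theorem Root.mul {z u : ℂ} (h : Root K z) (hu : Root K u) : Root K (z * u) := by
  obtain ⟨i, rfl⟩ := h
  obtain ⟨j, rfl⟩ := hu
  exact ⟨i + j, (E_add i j).symm⟩

theorem root_E (a : ℤ) : Root K (E K a) := ⟨a, rfl⟩

theorem Root.norm {z : ℂ} (h : Root K z) : ‖z‖ = 1 := by
  obtain ⟨i, rfl⟩ := h
  simp

theorem Root.conj {z : ℂ} (h : Root K z) : Root K ((starRingEnd ℂ) z) := by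
  obtain ⟨i, rfl⟩ := h
  exact ⟨-i, conj_E i⟩

theorem Far.of_mul {z : ℂ} {a : ℤ} (h : Far K (E K a * z)) : Far K z := by
  refine ⟨fun hz => h.1 ((root_E a).mul hz), ?_⟩
  simpa using h.2

theorem Far.neg (hK : 2 ≤ K) {z : ℂ} (h : Far K z) : Far K (-z) :=
  ⟨fun hz => h.1 (by simpa using hz.neg hK), by simpa using h.2⟩

theorem Far.congr {z u : ℂ} (h : Far K z) (e : z = u) : Far K u := e ▸ h

theorem Root.congr {z u : ℂ} (h : Root K z) (e : z = u) : Root K u := e ▸ h

theorem rho_pos (hK : 2 ≤ K) : 0 < rho K := by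
  have hK' : (2 : ℝ) ≤ K := by exact_mod_cast hK
  apply cos_pos_of_mem_Ioo
  have hp := pi_pos
  constructor
  · have : 0 < π / (2 * K) := by positivity
    linarith
  · rw [div_lt_div_iff₀ (by positivity) (by positivity)]
    nlinarith

theorem rho_sq : rho K ^ 2 = (1 + cos (π / K)) / 2 := by
  unfold rho
  have : π / K = 2 * (π / (2 * K)) := by ring
  rw [this, cos_two_mul]; ring

theorem Far.ne_zero (hK : 2 ≤ K) {z : ℂ} (h : Far K z) : z ≠ 0 := by
  rintro rfl
  have := h.2
  have := rho_pos hK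
  simp at *
  linarith

theorem not_far_of_normSq_lt (hK : 2 ≤ K) {z : ℂ} (h : z.re ^ 2 + z.im ^ 2 < rho K ^ 2) :
    ¬ Far K z := by
  rintro ⟨-, h2⟩
  have h3 : ‖z‖ ^ 2 = z.re ^ 2 + z.im ^ 2 := by
    rw [Complex.sq_norm, Complex.normSq_apply]; ring
  have := rho_pos hK
  nlinarith

/-! ### The parameters -/

theorem tt_pos : 1 ≤ tt K := by unfold tt; split <;> omega

theorem WW_nonneg (hK : 2 ≤ K) : 0 ≤ WW K := by unfold WW tt; split <;> omega

theorem WW_lt : WW K < tt K := by unfold WW tt; split <;> omega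

theorem tt_WW (h3 : K ≠ 3) : 2 * tt K + WW K = K := by unfold WW; simp [h3]

theorem tt_WW_le : 2 * tt K + WW K ≤ K := by unfold WW tt; split <;> omega

theorem le_tt : (K : ℤ) ≤ 3 * tt K := by unfold tt; split <;> omega

theorem lt_tt (h3 : K ≠ 3) : (K : ℤ) < 3 * tt K := by unfold tt; split <;> omega

theorem tt_three : tt 3 = 1 := rfl

theorem WW_three : WW 3 = 0 := rfl

theorem ne_three_of_WW (h : 0 < WW K) : K ≠ 3 := by rintro rfl; simp [WW] at h

theorem five_le_of_WW (hK : 2 ≤ K) (h : 0 < WW K) : 5 ≤ K := by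
  unfold WW tt at h; split at h <;> omega

/-! ### The angle lemma -/

theorem close_aux (hK : 2 ≤ K) {j : ℤ} (h0 : 0 ≤ j) (hj : 3 * j ≤ K) : ¬ Far K (E K j - 1) := by
  have hK' : (2 : ℝ) ≤ K := by exact_mod_cast hK
  have hp := pi_pos
  rcases eq_or_lt_of_le hj with h | h
  · rintro ⟨h1, -⟩
    refine h1 ⟨2 * j, ?_⟩
    have hj' : (j : ℝ) * (π / K) = π / 3 := by
      have : (K : ℝ) = 3 * j := by exact_mod_cast h.symm
      have hj0 : (j : ℝ) ≠ 0 := by intro h0; rw [h0] at this; linarith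
      rw [this]; field_simp
    have hj2 : ((2 * j : ℤ) : ℝ) * (π / K) = π - π / 3 := by
      push_cast; rw [mul_assoc, hj']; ring
    apply Complex.ext
    · simp only [Complex.sub_re, E_re, hj', hj2, cos_pi_sub, cos_pi_div_three]; norm_num
    · simp only [Complex.sub_im, E_im, hj', hj2, sin_pi_sub]; norm_num
  · apply not_far_of_normSq_lt hK
    set x := π / K / 3 with hx
    have hx0 : 0 < x := by positivity
    have hx1 : x ≤ π / 6 := by
      rw [hx, div_div, div_le_div_iff₀ (by positivity) (by positivity)]; nlinarith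
    have hj' : (j : ℝ) * (π / K) ≤ π / 3 - x := by
      have h1 : (3 * j + 1 : ℝ) ≤ K := by exact_mod_cast h
      have h2 : (j : ℝ) * (π / K) + x = (3 * j + 1) / K * (π / 3) := by rw [hx]; field_simp
      have h3 : (3 * j + 1 : ℝ) / K ≤ 1 := by rw [div_le_one (by positivity)]; exact h1
      nlinarith
    have hj0 : 0 ≤ (j : ℝ) * (π / K) := by
      have : (0 : ℝ) ≤ j := by exact_mod_cast h0
      positivity
    have hc : cos (π / 3 - x) ≤ cos (j * (π / K)) :=
      cos_le_cos_of_nonneg_of_le_pi hj0 (by linarith) hj'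
    have h3x : π / K = 3 * x := by rw [hx]; ring
    have hs0 : 0 < sin x := sin_pos_of_pos_of_lt_pi hx0 (by linarith)
    have hs1 : sin x ≤ 1 / 2 := by
      rw [← sin_pi_div_six]
      exact sin_le_sin_of_le_of_le_pi_div_two (by linarith) (by linarith) hx1
    have hc1 : 1 / 2 ≤ cos x := by
      rw [← cos_pi_div_three]
      exact cos_le_cos_of_nonneg_of_le_pi hx0.le (by linarith) (by linarith)
    have hcs := sin_sq_add_cos_sq x
    have hc2 := cos_le_one x
    have h3 : (1.7 : ℝ) < √3 := by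
      rw [Real.lt_sqrt (by norm_num)]; norm_num
    rw [cos_sub, cos_pi_div_three, sin_pi_div_three] at hc
    rw [rho_sq]
    simp only [Complex.sub_re, Complex.sub_im, E_re, E_im, Complex.one_re, Complex.one_im, sub_zero]
    have hj2 := sin_sq_add_cos_sq (j * (π / K))
    generalize (j : ℝ) * (π / K) = y at *
    rw [h3x, cos_three_mul]
    have e1 : 3 * (1 - cos x) ≤ 2 * sin x ^ 2 := by nlinarith
    have e2 : cos x * sin x ^ 2 ≤ sin x ^ 2 := by nlinarith
    have e3 : 6 * sin x ^ 2 ≤ 3 * sin x := by nlinarith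
    have e4 : cos x ^ 3 = cos x - cos x * sin x ^ 2 := by
      have : cos x ^ 2 = 1 - sin x ^ 2 := by linarith
      calc cos x ^ 3 = cos x * cos x ^ 2 := by ring
        _ = _ := by rw [this]; ring
    have e5 : 1.7 * sin x < √3 * sin x := by nlinarith
    nlinarith

theorem close (hK : 2 ≤ K) {j : ℤ} (h1 : -tt K < j) (h2 : j < tt K) : ¬ Far K (E K j - 1) := by
  have h3 : -(K : ℤ) ≤ 3 * j ∧ 3 * j ≤ K := by unfold tt at h1 h2; split at h1 <;> omega
  rcases le_total 0 j with h | h
  · exact close_aux hK h h3.2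
  · intro hf
    refine close_aux hK (j := -j) (by omega) (by omega) (Far.of_mul (a := j + K) (hf.congr ?_))
    rw [E_add_K hK]
    linear_combination (E_mul_neg (K := K) j)

/-- Two non-adjacent neighbours of a point make an angle of at least `tt K` units. -/
theorem angle (hK : 2 ≤ K) {a b : ℤ} (h : Far K (E K a - E K b)) (n : ℤ) :
    a - b + 2 * K * n ≤ -tt K ∨ tt K ≤ a - b + 2 * K * n := by
  by_contra hc
  push Not at hc
  refine close hK hc.1 hc.2 (Far.of_mul (a := b) (h.congr ?_))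
  rw [E_period hK, mul_sub, ← E_add]
  simp

end Pool.Agent.Lib.MP_0e6856_lc
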