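import Pool.Agent.Lib.MP_0e6856_lc.Local
import Pool.Agent.Shared.PolyTime.Extra

/-!
The sign of a sum of cosines of rational multiples of `π` is computable in polynomial time.
-/

namespace Pool.Agent.Lib.MP_0e6856_lc

open N68a2faeb Pool.Agent.Shared.PolyTime N487b59b3 Polynomial

theorem eval_polyTime (p : ℚ[X]) : IsPolyTime (fun x : ℚ => p.eval x) := by
  induction p using Polynomial.induction_on' with
  | add p q hp hq => simp only [eval_add]; fun_prop
  | monomial n a => simp only [eval_monomial]; fun_prop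

/-- Comparison of a rational number with a fixed real algebraic number. -/
theorem le_polyTime {c : ℝ} (hc : IsIntegral ℚ c) :
    IsPolyTime (fun x : ℚ => @decide ((x : ℝ) ≤ c) (Classical.propDecidable _)) := by
  have hs : (minpoly ℚ c).Separable := (minpoly.irreducible hc).separable
  have h0 : aeval c (minpoly ℚ c) = 0 := minpoly.aeval ℚ c
  have h1 : aeval c (derivative (minpoly ℚ c)) ≠ 0 := hs.aeval_derivative_ne_zero h0
  obtain ⟨p, p0, p1⟩ : ∃ p : ℚ[X], aeval c p = 0 ∧ 0 < aeval c (derivative p) := by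
    rcases lt_or_gt_of_ne h1 with h | h
    · exact ⟨-minpoly ℚ c, by simp, by simpa using h⟩
    · exact ⟨_, h0, h⟩
  have hd := hasDerivAt_iff_tendsto_slope.1 (p.hasDerivAt_aeval c)
  have ev := hd.eventually (lt_mem_nhds p1)
  rw [eventually_nhdsWithin_iff, Metric.eventually_nhds_iff] at ev
  obtain ⟨ε, ε0, hε⟩ := ev
  obtain ⟨lo, l1, l2⟩ := exists_rat_btwn (show c - ε < c by linarith)
  obtain ⟨hi, u1, u2⟩ := exists_rat_btwn (show c < c + ε by linarith)
  have hp := eval_polyTime p
  have : IsPolyTime (fun x : ℚ => decide (x ≤ lo ∨ (x ≤ hi ∧ p.eval x ≤ 0))) := by fun_prop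
  refine IsPolyTime.decide_congr this (fun x => ?_)
  have e : aeval (x : ℝ) p = ((p.eval x : ℚ) : ℝ) := by
    rw [← Polynomial.coe_aeval_eq_eval]
    exact Polynomial.aeval_algebraMap_apply ℝ x p
  have key : (lo : ℝ) < x → (x : ℝ) ≤ hi → (x : ℝ) ≠ c → 0 < ((p.eval x : ℚ) : ℝ) / (x - c) := by
    intro a b d
    have := hε (y := x) (by rw [Real.dist_eq, abs_lt]; constructor <;> linarith) d
    rwa [slope_def_field, p0, sub_zero, e] at this
  constructor
  · rintro (h | ⟨h, h'⟩)
    · have : (x : ℝ) ≤ lo := by exact_mod_cast h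
      linarith
    · by_contra hx
      push Not at hx
      have := key (by linarith) (by exact_mod_cast h) hx.ne'
      have h'' : ((p.eval x : ℚ) : ℝ) ≤ 0 := by exact_mod_cast h'
      have := div_nonpos_of_nonpos_of_nonneg h'' (show 0 ≤ (x : ℝ) - c by linarith)
      linarith
  · intro hx
    by_cases h : x ≤ lo
    · exact Or.inl h
    · refine Or.inr ⟨by exact_mod_cast hx.trans u1.le, ?_⟩
      rcases eq_or_lt_of_le hx with hx | hx
      · rw [hx, p0] at e
        exact_mod_cast e.ge
      · have := key (by exact_mod_cast not_le.1 h) (by linarith) hx.ne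
        by_contra h'
        have h'' : (0 : ℝ) ≤ ((p.eval x : ℚ) : ℝ) := by exact_mod_cast (not_le.1 h').le
        have := div_nonpos_of_nonneg_of_nonpos h'' (show (x : ℝ) - c ≤ 0 by linarith)
        linarith

variable {K : ℕ}

/-- A sum of cosines. -/
noncomputable def SS (K : ℕ) (L : List ℤ) : ℝ := (L.map fun r => (E K r).re).sum

theorem E_emod (hK : 2 ≤ K) (r : ℤ) : E K r = E K 1 ^ (r % (2 * K)).toNat := by
  have h : ∀ n : ℕ, E K 1 ^ n = E K n := by
    intro n
    induction n with
    | zero => simp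
    | succ n ih => rw [pow_succ, ih, ← E_add]; simp
  have h1 := Int.emod_nonneg r (show (2 * K : ℤ) ≠ 0 by omega)
  rw [h, Int.toNat_of_nonneg h1, ← E_period hK (r % (2 * K)) (r / (2 * K)), Int.emod_add_mul_ediv]

theorem E_one_pow (hK : 2 ≤ K) : E K 1 ^ (2 * K) = 1 := by
  have h : ∀ n : ℕ, E K 1 ^ n = E K n := by
    intro n
    induction n with
    | zero => simp
    | succ n ih => rw [pow_succ, ih, ← E_add]; simp
  have := E_period hK 0 1
  rw [h]
  simpa using this

theorem two_re (r : ℤ) : E K r + E K (-r) = ((2 * (E K r).re : ℝ) : ℂ) := by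
  rw [← conj_E, Complex.add_conj]

/-- A nonzero sum of cosines is not too small. -/
theorem gap (hK : 2 ≤ K) : ∃ d : ℕ, ∀ L : List ℤ, SS K L ≠ 0 →
    1 ≤ 2 * |SS K L| * (2 * L.length) ^ d := by
  have hi : IsIntegral ℤ (E K 1) :=
    ⟨X ^ (2 * K) - C 1, monic_X_pow_sub_C _ (by omega), by simp [E_one_pow hK]⟩
  have hq : IsIntegral ℚ (E K 1) := hi.tower_top
  let F := IntermediateField.adjoin ℚ {E K 1}
  have : FiniteDimensional ℚ F := IntermediateField.adjoin.finiteDimensional hq
  have : NumberField F := ⟨⟩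
  let z : F := IntermediateField.AdjoinSimple.gen ℚ (E K 1)
  let σ : F →+* ℂ := F.val.toRingHom
  have σz : σ z = E K 1 := rfl
  have zp : z ^ (2 * K) = 1 := σ.injective (by rw [map_pow, σz, E_one_pow hK, map_one])
  have zi : IsIntegral ℤ z := ⟨X ^ (2 * K) - C 1, monic_X_pow_sub_C _ (by omega), by simp [zp]⟩
  have hz : ∀ n : ℕ, NumberField.house (z ^ n) ≤ 1 := by
    intro n
    rw [NumberField.house, pi_norm_le_iff_of_nonneg zero_le_one]
    intro φ
    have : ‖φ z‖ = 1 := by
      have h : ‖φ z‖ ^ (2 * K) = 1 := by rw [← norm_pow, ← map_pow, zp]; simp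
      exact (pow_eq_one_iff_of_nonneg (norm_nonneg _) (by omega)).1 h
    simp [this]
  let t : ℤ → F := fun r => z ^ (r % (2 * K)).toNat + z ^ (-r % (2 * K)).toNat
  have key : ∀ L : List ℤ, IsIntegral ℤ (L.map t).sum ∧
      NumberField.house (L.map t).sum ≤ 2 * L.length ∧ σ (L.map t).sum = (2 * SS K L : ℝ) := by
    intro L
    induction L with
    | nil => simp [SS, isIntegral_zero, NumberField.house]
    | cons r L ih =>
      obtain ⟨i1, i2, i3⟩ := ih
      rw [List.map_cons, List.sum_cons]
      refine ⟨((zi.pow _).add (zi.pow _)).add i1, ?_, ?_⟩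
      · have a := NumberField.house_add_le (t r) (L.map t).sum
        have b := NumberField.house_add_le (z ^ (r % (2 * K)).toNat) (z ^ (-r % (2 * K)).toNat)
        have := hz (r % (2 * K)).toNat
        have := hz (-r % (2 * K)).toNat
        simp only [List.length_cons]
        push_cast
        linarith
      · rw [map_add, i3, map_add, map_pow, map_pow, σz, ← E_emod hK, ← E_emod hK, two_re]
        simp [SS, mul_add]
  refine ⟨Module.finrank ℚ F - 1, fun L hL => ?_⟩
  obtain ⟨i1, i2, i3⟩ := key L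
  have n0 : (L.map t).sum ≠ 0 := by
    intro h
    rw [h, map_zero] at i3
    have : 2 * SS K L = 0 := by exact_mod_cast i3.symm
    exact hL (by linarith)
  obtain ⟨y, hy⟩ := IsIntegrallyClosed.isIntegral_iff.1 (Algebra.isIntegral_norm ℚ i1)
  have y0 : y ≠ 0 := by
    rintro rfl
    exact (Algebra.norm_ne_zero_iff.2 n0) (by rw [← hy]; simp)
  have n1 : (1 : ℝ) ≤ ‖Algebra.norm ℚ (L.map t).sum‖ := by
    rw [← hy]
    have := Int.one_le_abs y0
    simp only [algebraMap_int_eq, eq_intCast, Int.norm_cast_rat, Int.norm_eq_abs]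
    exact_mod_cast this
  refine n1.trans ((NumberField.norm_norm_le_norm_mul_house_pow _ σ).trans ?_)
  rw [i3, Complex.norm_real, Real.norm_eq_abs, abs_mul, abs_two]
  gcongr
  exact NumberField.house_nonneg _

theorem re_E_integral (hK : 2 ≤ K) (r : ℤ) : IsIntegral ℚ (E K r).re := by
  have hq : IsIntegral ℚ (E K 1) :=
    ⟨X ^ (2 * K) - C 1, monic_X_pow_sub_C _ (by omega), by simp [E_one_pow hK]⟩
  have h : ∀ r, IsIntegral ℚ (E K r) := fun r => by rw [E_emod hK]; exact hq.pow _
  have h2 : IsIntegral ℚ (algebraMap ℚ ℂ (1 / 2) * (E K r + E K (-r))) :=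
    isIntegral_algebraMap.mul ((h r).add (h (-r)))
  rw [← isIntegral_algebraMap_iff (B := ℂ) (algebraMap ℝ ℂ).injective]
  convert h2 using 1
  rw [two_re]
  simp

open Classical in
theorem le_cos_polyTime (hK : 2 ≤ K) :
    IsPolyTime (fun z : ℚ × ℤ => decide ((z.1 : ℝ) ≤ (E K z.2).re)) := by
  have h : IsPolyTime (fun z : ℚ × ℤ => (List.range (2 * K)).map
      fun i : ℕ => decide ((z.1 : ℝ) ≤ (E K i).re)) :=
    IsPolyTime.map_const _ (fun i => by
      have := (le_polyTime (re_E_integral hK i)).comp (g := fun z : ℚ × ℤ => z.1) (by fun_prop)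
      exact IsPolyTime.decide_congr this (fun _ => Iff.rfl))
  have h2 : IsPolyTime (fun z : ℚ × ℤ => ((List.range (2 * K)).map
      fun i : ℕ => decide ((z.1 : ℝ) ≤ (E K i).re)).getD (z.2 % (2 * K)).toNat false) := by
    fun_prop
  refine h2.of_eq (fun z => ?_)
  have h1 := Int.emod_nonneg z.2 (show (2 * K : ℤ) ≠ 0 by omega)
  have h3 := Int.emod_lt_of_pos z.2 (show (0 : ℤ) < 2 * K by omega)
  rw [List.getD_eq_getElem _ _ (by simp; omega)]
  simp only [List.getElem_map, List.getElem_range, Int.toNat_of_nonneg h1]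
  rw [← E_period hK (z.2 % (2 * K)) (z.2 / (2 * K)), Int.emod_add_mul_ediv]

open Classical in
/-- An approximation of `N (1 + cos)`. -/
noncomputable def approx (K N : ℕ) (r : ℤ) : ℕ :=
  Nat.findGreatest (fun a => ((((a : ℚ) - N) / N : ℚ) : ℝ) ≤ (E K r).re) (2 * N)

theorem approx_spec {N : ℕ} (hN : 0 < N) (r : ℤ) :
    (approx K N r : ℝ) - N ≤ N * (E K r).re ∧ N * (E K r).re ≤ approx K N r - N + 1 := by
  classical
  have N0 : (0 : ℝ) < N := by exact_mod_cast hN
  have b := Complex.abs_re_le_norm (E K r)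
  rw [norm_E, abs_le] at b
  have e : ∀ a : ℕ, (((((a : ℚ) - N) / N : ℚ) : ℝ) ≤ (E K r).re) ↔ (a : ℝ) - N ≤ N * (E K r).re := by
    intro a
    push_cast
    rw [div_le_iff₀ N0, mul_comm]
  constructor
  · rw [← e]
    exact Nat.findGreatest_spec (P := fun a => ((((a : ℚ) - N) / N : ℚ) : ℝ) ≤ (E K r).re) (m := 0)
      (by omega) ((e 0).2 (by simp; nlinarith))
  · rcases Nat.lt_or_ge (approx K N r) (2 * N) with h | h
    · have := Nat.findGreatest_is_greatest (Nat.lt_succ_self (approx K N r)) h
      rw [e] at this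
      push_cast at this
      linarith
    · have : (2 * N : ℝ) ≤ approx K N r := by exact_mod_cast h
      nlinarith

theorem approx_sum {N : ℕ} (hN : 0 < N) (L : List ℤ) :
    ((L.map fun r => (approx K N r : ℤ) - N).sum : ℤ) ≤ N * SS K L ∧
      N * SS K L ≤ ((L.map fun r => (approx K N r : ℤ) - N).sum : ℤ) + L.length := by
  induction L with
  | nil => simp [SS]
  | cons r L ih =>
    have := approx_spec (K := K) hN r
    simp only [SS, List.map_cons, List.sum_cons, List.length_cons] at *
    push_cast at *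
    constructor <;> linarith [this.1, this.2, ih.1, ih.2]

theorem pos_polyTime (hK : 2 ≤ K) :
    IsPolyTime (fun L : List ℤ => @decide (0 < SS K L) (Classical.propDecidable _)) := by
  classical
  obtain ⟨d, hd⟩ := gap hK
  have h1 := le_cos_polyTime hK
  let N : List ℤ → ℕ := fun L => 2 * L.length * (2 * L.length) ^ d + 1
  have h2 : IsPolyTime (fun z : List ℤ × ℤ => approx K (N z.1) z.2) := by
    unfold approx
    refine IsPolyTime.findGreatest ?_ (by fun_prop) (by fun_prop)
    exact IsPolyTime.decide_congr (h1.comp (g := fun y : (List ℤ × ℤ) × ℕ =>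
      (((y.2 : ℚ) - N y.1.1) / N y.1.1, y.1.2)) (by fun_prop)) (fun _ => Iff.rfl)
  have h3 : IsPolyTime (fun L : List ℤ =>
      decide (0 < (L.map fun r => (approx K (N L) r : ℤ) - N L).sum)) := by fun_prop
  refine IsPolyTime.decide_congr h3 (fun L => ?_)
  obtain ⟨a, b⟩ := approx_sum (K := K) (N := N L) (by positivity) L
  have N0 : (0 : ℝ) < N L := by positivity
  constructor
  · intro h
    have : (0 : ℝ) < ((L.map fun r => (approx K (N L) r : ℤ) - N L).sum : ℤ) := by exact_mod_cast h
    by_contra hc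
    nlinarith
  · intro h
    have g := hd L h.ne'
    rw [abs_of_pos h] at g
    have : (L.length : ℝ) < N L * SS K L := by
      simp only [N]
      push_cast
      nlinarith [mul_le_mul_of_nonneg_left g (Nat.cast_nonneg (α := ℝ) L.length)]
    have : (0 : ℝ) < ((L.map fun r => (approx K (N L) r : ℤ) - N L).sum : ℤ) := by linarith
    exact_mod_cast this

theorem SS_neg (hK : 2 ≤ K) (L : List ℤ) : SS K (L.map fun r => r + K) = -SS K L := by
  induction L with
  | nil => simp [SS]
  | cons r L ih =>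
    simp only [SS, List.map_cons, List.sum_cons, E_add_K hK, Complex.neg_re] at *
    linarith

theorem nonneg_polyTime (hK : 2 ≤ K) :
    IsPolyTime (fun L : List ℤ => @decide (0 ≤ SS K L) (Classical.propDecidable _)) := by
  have h := (pos_polyTime hK).comp (g := fun L : List ℤ => L.map fun r : ℤ => r + K)
    (by fun_prop)
  refine h.not.of_eq (fun L => ?_)
  rw [Bool.eq_iff_iff]
  simp [SS_neg hK]

end Pool.Agent.Lib.MP_0e6856_lc
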